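import Mathlib

/-!
# A convexity inequality for averages of logarithms

`sl m = log m!`, `G m = log m! / m`.  For a real number `c ≥ 1` the sequence
`s~(c m)/(c m) - G m` (with `s~` the piecewise linear interpolation of `log m!`) is nondecreasing in
`m`; this gives the pointwise inequality `key` which is used with a Brègman type bound.
-/

namespace Pool.Agent.Q285.LogFact

open Real

noncomputable def sl (m : ℕ) : ℝ := Real.log (m.factorial : ℝ)

noncomputable def G (m : ℕ) : ℝ := sl m / m

lemma sl_zero : sl 0 = 0 := by simp [sl]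

lemma sl_one : sl 1 = 0 := by simp [sl]

lemma sl_succ (m : ℕ) : sl (m + 1) = sl m + Real.log (m + 1) := by
  unfold sl
  rw [Nat.factorial_succ]
  push_cast
  rw [Real.log_mul (by positivity) (by positivity)]
  ring

lemma mul_G (m : ℕ) : (m : ℝ) * G m = sl m := by
  unfold G
  rcases Nat.eq_zero_or_pos m with h | h
  · subst h; simp [sl_zero]
  · field_simp

/-- the tangent line of slope `log (q+1)` at `q` -/
noncomputable def tl (q : ℕ) (x : ℝ) : ℝ := sl q + (x - q) * Real.log (q + 1)

lemma tl_succ_sub (q : ℕ) (x : ℝ) :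
    tl (q + 1) x - tl q x = (x - (q + 1)) * (Real.log (q + 2) - Real.log (q + 1)) := by
  unfold tl
  rw [sl_succ]
  push_cast
  have : (q : ℝ) + 1 + 1 = q + 2 := by ring
  rw [this]
  ring

lemma log_step_nonneg (q : ℕ) : 0 ≤ Real.log ((q : ℝ) + 2) - Real.log (q + 1) := by
  have := Real.log_le_log (x := (q : ℝ) + 1) (y := q + 2) (by positivity) (by linarith)
  linarith

/-- going up in `q` while `q+1 ≤ x` increases the tangent value -/
lemma tl_mono_up {q p : ℕ} {x : ℝ} (hqp : q ≤ p) (hp : (p : ℝ) ≤ x) : tl q x ≤ tl p x := by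
  induction p, hqp using Nat.le_induction with
  | base => exact le_rfl
  | succ p hqp ih =>
    have h1 : (p : ℝ) + 1 ≤ x := by exact_mod_cast hp
    have h2 := tl_succ_sub p x
    have h3 := log_step_nonneg p
    have h4 := ih (by linarith)
    have : 0 ≤ (x - (p + 1)) * (Real.log (p + 2) - Real.log (p + 1)) :=
      mul_nonneg (by linarith) h3
    linarith

/-- going up in `q` beyond `x` decreases the tangent value -/
lemma tl_mono_down {q p : ℕ} {x : ℝ} (hqp : q ≤ p) (hq : x ≤ q + 1) : tl p x ≤ tl q x := by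
  induction p, hqp using Nat.le_induction with
  | base => exact le_rfl
  | succ p hqp ih =>
    have h0 : (q : ℝ) ≤ p := by exact_mod_cast hqp
    have h2 := tl_succ_sub p x
    have h3 := log_step_nonneg p
    have : (x - (p + 1)) * (Real.log (p + 2) - Real.log (p + 1)) ≤ 0 :=
      mul_nonpos_of_nonpos_of_nonneg (by linarith) h3
    linarith

/-- the piecewise linear interpolation of `sl` -/
noncomputable def st (x : ℝ) : ℝ := tl ⌊x⌋₊ x

lemma tl_le_st (q : ℕ) {x : ℝ} (hx : 0 ≤ x) : tl q x ≤ st x := by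
  unfold st
  rcases le_total q ⌊x⌋₊ with h | h
  · exact tl_mono_up h (Nat.floor_le hx)
  · exact tl_mono_down h (Nat.lt_floor_add_one x).le

lemma st_natCast (m : ℕ) : st m = sl m := by
  unfold st tl
  simp

noncomputable def U (q : ℕ) : ℝ := q * Real.log (q + 1) - sl q

lemma U_succ (q : ℕ) : U (q + 1) = U q + (q + 1) * (Real.log (q + 2) - Real.log (q + 1)) := by
  unfold U
  rw [sl_succ]
  push_cast
  have : (q : ℝ) + 1 + 1 = q + 2 := by ring
  rw [this]
  ring

lemma U_zero : U 0 = 0 := by simp [U, sl_zero]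

/-- `V j = j log (1 + 1/j)` (index shifted: `V q = (q+1) (log (q+2) - log (q+1))`) -/
noncomputable def V (q : ℕ) : ℝ := (q + 1) * (Real.log (q + 2) - Real.log (q + 1))

lemma V_mono_succ (q : ℕ) : V q ≤ V (q + 1) := by
  unfold V
  push_cast
  have e1 : (q : ℝ) + 1 + 1 = q + 2 := by ring
  have e2 : (q : ℝ) + 1 + 2 = q + 3 := by ring
  rw [e1, e2]
  -- concavity of log: (q+3)/(q+2) = ((q+1)/(q+2)) * ((q+2)/(q+1)) + (1/(q+2)) * 1
  have hc := strictConcaveOn_log_Ioi.concaveOn
  have hq1 : (0 : ℝ) < (q : ℝ) + 1 := by positivity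
  have hq2 : (0 : ℝ) < (q : ℝ) + 2 := by positivity
  have hq3 : (0 : ℝ) < (q : ℝ) + 3 := by positivity
  have hm1 : ((q : ℝ) + 2) / (q + 1) ∈ Set.Ioi (0 : ℝ) := by
    simp only [Set.mem_Ioi]; positivity
  have hm2 : (1 : ℝ) ∈ Set.Ioi (0 : ℝ) := by simp
  have ha : (0 : ℝ) ≤ ((q : ℝ) + 1) / (q + 2) := by positivity
  have hb : (0 : ℝ) ≤ 1 / ((q : ℝ) + 2) := by positivity
  have hab : ((q : ℝ) + 1) / (q + 2) + 1 / ((q : ℝ) + 2) = 1 := by field_simp; ring
  have key := hc.2 hm1 hm2 ha hb hab
  simp only [smul_eq_mul, Real.log_one, mul_zero, add_zero] at key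
  have e3 : ((q : ℝ) + 1) / (q + 2) * (((q : ℝ) + 2) / (q + 1)) + 1 / ((q : ℝ) + 2) * 1
      = ((q : ℝ) + 3) / (q + 2) := by
    field_simp; ring
  rw [e3, Real.log_div hq3.ne' hq2.ne', Real.log_div hq2.ne' hq1.ne'] at key
  have := mul_le_mul_of_nonneg_left key hq2.le
  have e4 : ((q : ℝ) + 2) * (((q : ℝ) + 1) / (q + 2) * (Real.log (q + 2) - Real.log (q + 1)))
      = (q + 1) * (Real.log (q + 2) - Real.log (q + 1)) := by
    field_simp
  rw [e4] at this
  linarith

lemma V_mono : Monotone V := monotone_nat_of_le_succ V_mono_succ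

lemma U_le (m : ℕ) : U m ≤ m * V m := by
  induction m with
  | zero => simp [U_zero]
  | succ m ih =>
    rw [U_succ]
    have h1 : ((m : ℝ) + 1) * (Real.log (m + 2) - Real.log (m + 1)) = V m := rfl
    rw [h1]
    have h2 := V_mono_succ m
    push_cast
    have h3 : (m : ℝ) * V m ≤ m * V (m + 1) := mul_le_mul_of_nonneg_left h2 (by positivity)
    nlinarith

/-- `U j / j` is nondecreasing -/
lemma U_ratio {m q : ℕ} (hm : 1 ≤ m) (hq : m ≤ q) : (q : ℝ) / m * U m ≤ U q := by
  have hm0 : (0 : ℝ) < m := by exact_mod_cast hm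
  induction q, hq using Nat.le_induction with
  | base => rw [div_self hm0.ne', one_mul]
  | succ q hq ih =>
    have hq0 : (0 : ℝ) < q := lt_of_lt_of_le hm0 (by exact_mod_cast hq)
    rw [U_succ]
    have h1 : ((q : ℝ) + 1) * (Real.log (q + 2) - Real.log (q + 1)) = V q := rfl
    rw [h1]
    push_cast
    -- U m / m ≤ V q
    have h2 : U m ≤ m * V q := (U_le m).trans
      (mul_le_mul_of_nonneg_left (V_mono hq) hm0.le)
    have h3 : U m / m ≤ V q := by
      rw [div_le_iff₀ hm0]; linarith
    have h4 : ((q : ℝ) + 1) / m * U m = (q : ℝ) / m * U m + U m / m := by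
      field_simp
    rw [h4]
    linarith

/-- main step: the running averages are nondecreasing -/
lemma step {c : ℝ} (hc : 1 ≤ c) {m : ℕ} (hm : 1 ≤ m) :
    (m + 1) * st (c * m) / m + c * (m * Real.log (m + 1) - sl m) / m ≤ st (c * (m + 1)) := by
  have hm0 : (0 : ℝ) < m := by exact_mod_cast hm
  set x : ℝ := c * m with hx
  have hxm : (m : ℝ) ≤ x := by nlinarith
  have hx0 : 0 ≤ x := hm0.le.trans hxm
  set q : ℕ := ⌊x⌋₊ with hq
  set θ : ℝ := x - q with hθ
  have hθ0 : 0 ≤ θ := by have := Nat.floor_le hx0; simp only [hθ]; linarith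
  have hθ1 : θ < 1 := by have := Nat.lt_floor_add_one x; simp only [hθ]; linarith
  have hqm : m ≤ q := Nat.le_floor hxm
  have hqm' : (m : ℝ) ≤ q := by exact_mod_cast hqm
  have e1 : c * (m + 1) = x + c := by rw [hx]; ring
  rw [e1]
  have hst : st x = sl q + θ * Real.log (q + 1) := rfl
  have h1 := tl_le_st (q + 1) (x := x + c) (by linarith)
  have h2 : tl (q + 1) (x + c) = st x + (1 - θ) * Real.log (q + 1)
      + (θ + c - 1) * Real.log (q + 2) := by
    unfold tl
    rw [sl_succ, hst]
    push_cast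
    have : (q : ℝ) + 1 + 1 = q + 2 := by ring
    rw [this, hθ]
    ring
  rw [h2] at h1
  refine le_trans ?_ h1
  -- need: st x / m + c U(m)/m ≤ (1-θ) log(q+1) + (θ+c-1) log (q+2)
  have hU1 := U_ratio hm hqm
  have hU2 := U_ratio hm (hqm.trans (Nat.le_succ q))
  rw [Nat.succ_eq_add_one, U_succ] at hU2
  push_cast at hU2
  set L1 := Real.log ((q : ℝ) + 1)
  set D := Real.log ((q : ℝ) + 2) - L1 with hD
  have hD0 : 0 ≤ D := log_step_nonneg q
  have hlog2 : Real.log ((q : ℝ) + 2) = L1 + D := by rw [hD]; ring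
  rw [hlog2]
  have hUm : (m : ℝ) * Real.log (m + 1) - sl m = U m := rfl
  rw [hUm, hst]
  have hUq : U q = q * L1 - sl q := rfl
  -- interpolation
  have h3 : (x / m) * U m ≤ U q + θ * ((q + 1) * D) := by
    have a1 : (1 - θ) * ((q : ℝ) / m * U m) ≤ (1 - θ) * U q :=
      mul_le_mul_of_nonneg_left hU1 (by linarith)
    have a2 : θ * (((q : ℝ) + 1) / m * U m) ≤ θ * (U q + (q + 1) * D) :=
      mul_le_mul_of_nonneg_left hU2 hθ0
    have a3 : (x / m) * U m = (1 - θ) * ((q : ℝ) / m * U m) + θ * (((q : ℝ) + 1) / m * U m) := by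
      have : x = q + θ := by rw [hθ]; ring
      rw [this]; field_simp; ring
    rw [a3]; nlinarith
  have hxc : x / m = c := by rw [hx]; field_simp
  rw [hxc] at h3
  -- multiply by m
  have h4 : θ * ((q + 1) * D) ≤ m * (θ + c - 1) * D := by
    have : θ * (q + 1) ≤ m * (θ + c - 1) := by
      have e : (m : ℝ) * (θ + c - 1) = m * θ + x - m := by rw [hx]; ring
      rw [e]
      have e2 : x = q + θ := by rw [hθ]; ring
      rw [e2]
      nlinarith
    calc θ * ((q + 1) * D) = (θ * (q + 1)) * D := by ring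
      _ ≤ (m * (θ + c - 1)) * D := mul_le_mul_of_nonneg_right this hD0
  have h5 : c * U m ≤ q * L1 - sl q + m * (θ + c - 1) * D := by linarith
  have h6 : (m + 1) * (sl q + θ * L1) / m + c * U m / m
      ≤ (sl q + θ * L1) + ((sl q + θ * L1) + (q * L1 - sl q + m * (θ + c - 1) * D)) / m := by
    have : (m + 1) * (sl q + θ * L1) / m + c * U m / m
      = (sl q + θ * L1) + ((sl q + θ * L1) + c * U m) / m := by field_simp; ring
    rw [this]
    gcongr
  refine h6.trans (le_of_eq ?_)
  have e2 : (sl q + θ * L1) + (q * L1 - sl q + m * (θ + c - 1) * D)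
      = x * L1 + m * (θ + c - 1) * D := by
    have : x = q + θ := by rw [hθ]; ring
    rw [this]; ring
  rw [e2]
  have e3 : (x * L1 + m * (θ + c - 1) * D) / m = c * L1 + (θ + c - 1) * D := by
    rw [hx]; field_simp
  rw [e3]
  ring

/-- the running averages `st (c m) / (c m) - sl m / m` are nondecreasing -/
lemma avg_mono {c : ℝ} (hc : 1 ≤ c) {a d : ℕ} (ha : 1 ≤ a) (had : a ≤ d) :
    st (c * a) / (c * a) - G a ≤ st (c * d) / (c * d) - G d := by
  have hc0 : 0 < c := by linarith
  induction d, had using Nat.le_induction with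
  | base => exact le_rfl
  | succ d had ih =>
    refine ih.trans ?_
    have hd1 : 1 ≤ d := ha.trans had
    have hd0 : (0 : ℝ) < d := by exact_mod_cast hd1
    have h := step hc hd1
    unfold G
    rw [sl_succ]
    push_cast
    have hd2 : (0 : ℝ) < (d : ℝ) + 1 := by positivity
    rw [div_sub_div _ _ (by positivity) (by positivity), div_sub_div _ _ (by positivity) (by positivity),
      div_le_div_iff₀ (by positivity) (by positivity)]
    have h' : (d + 1) * st (c * d) + c * (d * Real.log (d + 1) - sl d) ≤ d * st (c * (d + 1)) := by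
      have := mul_le_mul_of_nonneg_left h hd0.le
      have e : (d : ℝ) * ((d + 1) * st (c * d) / d + c * (d * Real.log (d + 1) - sl d) / d)
        = (d + 1) * st (c * d) + c * (d * Real.log (d + 1) - sl d) := by
        field_simp
      rw [e] at this
      exact this
    have hpos : 0 ≤ c * d * (d * (d + 1)) := by positivity
    nlinarith [mul_le_mul_of_nonneg_left h' hpos]

/-- The pointwise inequality. -/
theorem key {a d n : ℕ} (q : ℕ) (ha : 1 ≤ a) (had : a ≤ d) (hdn : d ≤ n) :
    (a : ℝ) * G d - sl a ≤ (d / n : ℝ) * U q + a * (G n - Real.log (q + 1)) := by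
  have ha0 : (0 : ℝ) < a := by exact_mod_cast ha
  have hd0 : (0 : ℝ) < d := lt_of_lt_of_le ha0 (by exact_mod_cast had)
  have hdn' : (d : ℝ) ≤ n := by exact_mod_cast hdn
  have hn0 : (0 : ℝ) < n := lt_of_lt_of_le hd0 hdn'
  set c : ℝ := n / d with hc
  have hc1 : 1 ≤ c := by rw [hc, le_div_iff₀ hd0]; linarith
  have hc0 : 0 < c := by linarith
  have h1 := avg_mono hc1 ha had
  have e1 : c * d = n := by rw [hc]; field_simp
  rw [e1, st_natCast] at h1
  have h2 := tl_le_st q (x := c * a) (by positivity)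
  -- tl q (c a) ≤ st (c a) ≤ c a (G a + G n - G d)
  have h3 : st (c * a) ≤ c * a * (G a + G n - G d) := by
    have : st (c * a) / (c * a) ≤ G a + G n - G d := by
      have : sl n / n = G n := rfl
      linarith
    rw [div_le_iff₀ (by positivity)] at this
    calc st (c * a) ≤ (G a + G n - G d) * (c * a) := this
      _ = c * a * (G a + G n - G d) := by ring
  have h4 := h2.trans h3
  unfold tl at h4
  have h5 : (d / n : ℝ) * (sl q + (c * a - q) * Real.log (q + 1))
      ≤ (d / n : ℝ) * (c * a * (G a + G n - G d)) := mul_le_mul_of_nonneg_left h4 (by positivity)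
  have e2 : (d / n : ℝ) * (c * a * (G a + G n - G d)) = a * (G a + G n - G d) := by
    rw [hc]; field_simp
  have e3 : (d / n : ℝ) * (sl q + (c * a - q) * Real.log (q + 1))
      = a * Real.log (q + 1) - (d / n : ℝ) * U q := by
    unfold U; rw [hc]; field_simp; ring
  rw [e2, e3] at h5
  have e4 : (a : ℝ) * G a = sl a := mul_G a
  nlinarith

end Pool.Agent.Q285.LogFact
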