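import Mathlib
import Pool.Agent.Q285.LogFact

/-!
# A Brègman–Minc type bound for choice functions with prescribed fibre sizes

For finite sets `A i` (`i : Fin n`) and prescribed fibre sizes `α`, the number of functions `f` with
`f i ∈ A i` and `#f⁻¹(j) = α j` times `∏ α j !` is at most `∏ (d j !)^(α j / d j)`, where `d j` is the
number of `i` with `j ∈ A i`.  (Schrijver's proof of the Brègman–Minc theorem.)
-/

namespace Pool.Agent.Q285.BregCol

open Finset Pool.Agent.Q285.LogFact

variable {κ : Type*} [Fintype κ] [DecidableEq κ]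

def Fam {n : ℕ} (A : Fin n → Finset κ) (α : κ → ℕ) : Finset (Fin n → κ) :=
  Finset.univ.filter
    (fun f => (∀ i, f i ∈ A i) ∧ ∀ j, (Finset.univ.filter (fun i => f i = j)).card = α j)

def deg {n : ℕ} (A : Fin n → Finset κ) (j : κ) : ℕ :=
  (Finset.univ.filter (fun i => j ∈ A i)).card

def rem (α : κ → ℕ) (j : κ) : κ → ℕ := fun j' => α j' - if j = j' then 1 else 0

lemma mem_Fam {n : ℕ} {A : Fin n → Finset κ} {α : κ → ℕ} {f : Fin n → κ} :
    f ∈ Fam A α ↔ (∀ i, f i ∈ A i) ∧
      ∀ j, (Finset.univ.filter (fun i => f i = j)).card = α j := by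
  simp [Fam]

lemma card_fiber_succAbove {n : ℕ} (f : Fin (n + 1) → κ) (i : Fin (n + 1)) (j : κ) :
    (Finset.univ.filter (fun i' => f i' = j)).card
      = (if f i = j then 1 else 0)
        + (Finset.univ.filter (fun i' : Fin n => f (i.succAbove i') = j)).card := by
  rw [Finset.card_filter, Finset.card_filter, Fin.sum_univ_succAbove _ i]

lemma deg_succAbove {n : ℕ} (A : Fin (n + 1) → Finset κ) (i : Fin (n + 1)) (j : κ) :
    deg A j = (if j ∈ A i then 1 else 0) + deg (fun i' => A (i.succAbove i')) j := by
  unfold deg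
  rw [Finset.card_filter, Finset.card_filter, Fin.sum_univ_succAbove _ i]

lemma card_fix {n : ℕ} (A : Fin (n + 1) → Finset κ) (α : κ → ℕ) (i : Fin (n + 1)) (j : κ)
    (hj : j ∈ A i) (hα : 1 ≤ α j) :
    ((Fam A α).filter (fun f => f i = j)).card
      = (Fam (fun i' => A (i.succAbove i')) (rem α j)).card := by
  refine Finset.card_nbij' (fun f i' => f (i.succAbove i')) (fun g => i.insertNth j g) ?_ ?_ ?_ ?_
  · intro f hf
    simp only [Finset.coe_filter, Set.mem_setOf_eq, mem_Fam] at hf
    simp only [Finset.mem_coe, mem_Fam]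
    refine ⟨fun i' => hf.1.1 _, fun j' => ?_⟩
    have h1 := card_fiber_succAbove f i j'
    rw [hf.1.2 j', hf.2] at h1
    unfold rem
    omega
  · intro g hg
    simp only [Finset.mem_coe, mem_Fam] at hg
    simp only [Finset.coe_filter, Set.mem_setOf_eq, mem_Fam]
    refine ⟨⟨?_, ?_⟩, by simp⟩
    · intro i'
      rcases Fin.eq_self_or_eq_succAbove i i' with h | ⟨y, h⟩
      · subst h; simpa using hj
      · subst h; simpa using hg.1 y
    · intro j'
      rw [card_fiber_succAbove _ i j']
      simp only [Fin.insertNth_apply_same, Fin.insertNth_apply_succAbove]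
      rw [hg.2 j']
      unfold rem
      by_cases h : j = j'
      · subst h; simp only [if_true]; omega
      · simp [h]
  · intro f hf
    simp only [Finset.coe_filter, Set.mem_setOf_eq, mem_Fam] at hf
    funext i'
    rcases Fin.eq_self_or_eq_succAbove i i' with h | ⟨y, h⟩
    · subst h; simp [hf.2]
    · subst h; simp
  · intro g _
    funext i'
    simp

lemma prod_rem (α : κ → ℕ) (j : κ) (hα : 1 ≤ α j) :
    α j * ∏ j', (rem α j j').factorial = ∏ j', (α j').factorial := by
  rw [← Finset.mul_prod_erase Finset.univ (fun j' => (rem α j j').factorial) (Finset.mem_univ j),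
    ← Finset.mul_prod_erase Finset.univ (fun j' => (α j').factorial) (Finset.mem_univ j),
    ← mul_assoc]
  congr 1
  · unfold rem
    simp only [if_true]
    exact Nat.mul_factorial_pred (by omega)
  · refine Finset.prod_congr rfl fun j' hj' => ?_
    have : j ≠ j' := (Finset.ne_of_mem_erase hj').symm
    simp [rem, this]

lemma sum_card_fix {n : ℕ} (A : Fin n → Finset κ) (α : κ → ℕ) (j : κ) :
    ∑ i, ((Fam A α).filter (fun f => f i = j)).card = α j * (Fam A α).card := by
  simp_rw [Finset.card_filter]
  rw [Finset.sum_comm]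
  have : ∀ f ∈ Fam A α, (∑ i, if f i = j then 1 else 0) = α j := by
    intro f hf
    rw [← Finset.card_filter]
    exact (mem_Fam.1 hf).2 j
  rw [Finset.sum_congr rfl this]
  simp [mul_comm]

lemma card_fix_zero {n : ℕ} (A : Fin n → Finset κ) (α : κ → ℕ) (i : Fin n) (j : κ)
    (hj : j ∉ A i) : ((Fam A α).filter (fun f => f i = j)).card = 0 := by
  rw [Finset.card_eq_zero, Finset.filter_eq_empty_iff]
  intro f hf h
  exact hj (h ▸ (mem_Fam.1 hf).1 i)

/-- the log-sum (Jensen) inequality -/
lemma log_sum {ι : Type*} (s : Finset ι) (p : ι → ℝ) (hp : ∀ i ∈ s, 0 ≤ p i)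
    (hpos : 0 < ∑ i ∈ s, p i) :
    (∑ i ∈ s, p i) * Real.log (∑ i ∈ s, p i)
      ≤ (∑ i ∈ s, p i) * Real.log s.card + ∑ i ∈ s, p i * Real.log (p i) := by
  set P := ∑ i ∈ s, p i with hP
  have hs : 0 < s.card := by
    rcases Finset.eq_empty_or_nonempty s with h | h
    · simp [hP, h] at hpos
    · exact Finset.card_pos.2 h
  have hs' : (0 : ℝ) < s.card := by exact_mod_cast hs
  have key : ∀ i ∈ s, p i - P / s.card + p i * (Real.log P - Real.log s.card) ≤ p i * Real.log (p i) := by
    intro i hi
    rcases (hp i hi).eq_or_lt with h | h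
    · rw [← h]; simp; positivity
    · have h1 := Real.add_one_le_exp (Real.log (P / s.card) - Real.log (p i))
      rw [Real.exp_sub, Real.exp_log (by positivity), Real.exp_log h] at h1
      rw [Real.log_div hpos.ne' hs'.ne'] at h1
      have h2 := mul_le_mul_of_nonneg_left h1 h.le
      have h3 : p i * (P / s.card / p i) = P / s.card := by field_simp
      rw [h3] at h2
      nlinarith
  have h := Finset.sum_le_sum key
  have e : ∑ i ∈ s, (p i - P / s.card + p i * (Real.log P - Real.log s.card))
      = P * (Real.log P - Real.log s.card) := by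
    rw [Finset.sum_add_distrib, Finset.sum_sub_distrib, ← Finset.sum_mul, ← hP]
    simp only [Finset.sum_const, nsmul_eq_mul]
    field_simp
    ring
  rw [e] at h
  linarith

lemma sum_alpha {n : ℕ} {A : Fin n → Finset κ} {α : κ → ℕ} {f : Fin n → κ} (hf : f ∈ Fam A α) :
    ∑ j, α j = n := by
  have h := (mem_Fam.1 hf).2
  calc ∑ j, α j = ∑ j, (Finset.univ.filter (fun i => f i = j)).card := by
        refine Finset.sum_congr rfl fun j _ => (h j).symm
    _ = (Finset.univ : Finset (Fin n)).card :=
        (Finset.card_eq_sum_card_fiberwise (fun i _ => Finset.mem_univ (f i))).symm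
    _ = n := by simp

lemma alpha_le_deg {n : ℕ} {A : Fin n → Finset κ} {α : κ → ℕ} {f : Fin n → κ} (hf : f ∈ Fam A α)
    (j : κ) : α j ≤ deg A j := by
  rw [← (mem_Fam.1 hf).2 j]
  refine Finset.card_le_card fun i hi => ?_
  simp only [Finset.mem_filter, Finset.mem_univ, true_and] at hi ⊢
  exact hi ▸ (mem_Fam.1 hf).1 i

/-- the inner computation of Schrijver's proof -/
lemma inner {n : ℕ} {A : Fin (n + 1) → Finset κ} {α : κ → ℕ} {f : Fin (n + 1) → κ}
    (hf : f ∈ Fam A α) (j : κ) :
    ∑ i, ((rem α (f i) j : ℕ) : ℝ) * G (deg (fun i' => A (i.succAbove i')) j)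
      = α j * (((n : ℝ) + 1) * G (deg A j) - Real.log (deg A j)) := by
  classical
  have hle := alpha_le_deg hf j
  set d := deg A j with hd
  rcases Nat.eq_zero_or_pos (α j) with h0 | hpos
  · have : ∀ i, rem α (f i) j = 0 := by intro i; unfold rem; omega
    simp [this, h0]
  have hd1 : 1 ≤ d := le_trans hpos hle
  -- split according to j ∈ A i
  have e : ∀ i : Fin (n + 1), ((rem α (f i) j : ℕ) : ℝ) * G (deg (fun i' => A (i.succAbove i')) j)
      = (if j ∈ A i then ((α j : ℝ) - (if f i = j then 1 else 0)) * G (d - 1)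
          else (α j : ℝ) * G d) := by
    intro i
    have h1 := deg_succAbove A i j
    by_cases hj : j ∈ A i
    · rw [if_pos hj] at h1
      rw [if_pos hj]
      have : deg (fun i' => A (i.succAbove i')) j = d - 1 := by omega
      rw [this]
      congr 1
      unfold rem
      by_cases hfi : f i = j
      · simp only [hfi, if_true]
        rw [Nat.cast_sub hpos]; simp
      · simp [hfi]
    · rw [if_neg hj] at h1
      rw [if_neg hj]
      have : deg (fun i' => A (i.succAbove i')) j = d := by omega
      rw [this]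
      congr 1
      have hfi : f i ≠ j := fun h => hj (h ▸ (mem_Fam.1 hf).1 i)
      unfold rem
      simp [hfi]
  rw [Finset.sum_congr rfl (fun i _ => e i), Finset.sum_ite]
  have c1 : (Finset.univ.filter (fun i => j ∈ A i)).card = d := rfl
  have c2 : ((Finset.univ.filter (fun i => ¬ j ∈ A i)).card : ℝ) = n + 1 - d := by
    have := Finset.card_filter_add_card_filter_not (s := (Finset.univ : Finset (Fin (n+1))))
      (fun i => j ∈ A i)
    rw [c1] at this
    have h3 : (d : ℝ) + ((Finset.univ.filter (fun i => ¬ j ∈ A i)).card : ℝ) = n + 1 := by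
      have h4 : d + (Finset.univ.filter (fun i => ¬ j ∈ A i)).card = n + 1 := by simpa using this
      exact_mod_cast h4
    linarith
  have c3 : ∑ i ∈ Finset.univ.filter (fun i => j ∈ A i), (if f i = j then (1 : ℝ) else 0) = α j := by
    rw [Finset.sum_ite]
    simp only [Finset.sum_const, nsmul_eq_mul, mul_one, mul_zero, add_zero, Finset.filter_filter]
    norm_cast
    rw [← (mem_Fam.1 hf).2 j]
    congr 1
    ext i
    simp only [Finset.mem_filter, Finset.mem_univ, true_and]
    constructor
    · exact fun h => h.2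
    · exact fun h => ⟨h ▸ (mem_Fam.1 hf).1 i, h⟩
  have s1 : ∑ i ∈ Finset.univ.filter (fun i => j ∈ A i),
      ((α j : ℝ) - (if f i = j then 1 else 0)) * G (d - 1)
      = (d * α j - α j) * G (d - 1) := by
    rw [← Finset.sum_mul, Finset.sum_sub_distrib, c3]
    simp [c1]
  rw [s1]
  simp only [Finset.sum_const, nsmul_eq_mul]
  rw [c2]
  have g1 : ((d : ℝ) - 1) * G (d - 1) = sl (d - 1) := by
    have := mul_G (d - 1)
    rw [Nat.cast_sub hd1] at this
    simpa using this
  have g2 : (d : ℝ) * G d = sl d := mul_G d
  have g3 : sl d = sl (d - 1) + Real.log d := by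
    obtain ⟨e, he⟩ := Nat.exists_eq_add_of_le' hd1
    rw [he, sl_succ]
    simp
  have : ((d : ℝ) * α j - α j) * G (d - 1) = α j * (((d : ℝ) - 1) * G (d - 1)) := by ring
  rw [this, g1]
  have g4 : sl (d - 1) = (d : ℝ) * G d - Real.log d := by rw [g2, g3]; ring
  rw [g4]
  ring

theorem bregman : ∀ (n : ℕ) (A : Fin n → Finset κ) (α : κ → ℕ), (Fam A α).Nonempty →
    Real.log ((Fam A α).card * ∏ j, (α j).factorial : ℕ) ≤ ∑ j, (α j : ℝ) * G (deg A j) := by
  intro n
  induction n with
  | zero =>
    intro A α ⟨f, hf⟩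
    have h0 : ∀ j, α j = 0 := by
      intro j
      have := sum_alpha hf
      have h := Finset.single_le_sum (f := α) (fun _ _ => Nat.zero_le _) (Finset.mem_univ j)
      omega
    have hc : (Fam A α).card ≤ 1 := by
      refine le_trans (Finset.card_le_univ _) ?_
      simp
    have hc' : 1 ≤ (Fam A α).card := Finset.card_pos.2 ⟨f, hf⟩
    have : (Fam A α).card = 1 := le_antisymm hc hc'
    rw [this]
    simp [h0]
  | succ n ih =>
    intro A α hne
    obtain ⟨f0, hf0⟩ := hne
    set N : ℕ := (Fam A α).card with hN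
    have hNpos : 0 < N := Finset.card_pos.2 ⟨f0, hf0⟩
    set Q : ℕ := ∏ j, (α j).factorial with hQ
    have hQpos : 0 < Q := Finset.prod_pos fun j _ => Nat.factorial_pos _
    have hNr : (0 : ℝ) < N := by exact_mod_cast hNpos
    have hQr : (0 : ℝ) < Q := by exact_mod_cast hQpos
    -- the minors
    let Pm : Fin (n + 1) → κ → ℝ := fun i j =>
      (((Fam (fun i' => A (i.succAbove i')) (rem α j)).card * ∏ j', (rem α j j').factorial : ℕ) : ℝ)
    have hPm0 : ∀ i j, 0 ≤ Pm i j := fun i j => Nat.cast_nonneg _
    let c : Fin (n + 1) → κ → ℝ := fun i j => (((Fam A α).filter (fun f => f i = j)).card : ℝ)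
    -- α_j P_ij = c_ij Q
    have hrel : ∀ i j, j ∈ A i → 1 ≤ α j → (α j : ℝ) * Pm i j = c i j * Q := by
      intro i j hj hα
      have h1 := card_fix A α i j hj hα
      have h2 := prod_rem α j hα
      simp only [Pm, c]
      rw [h1, hQ, ← h2]
      push_cast
      ring
    set P : ℝ := (N : ℝ) * Q with hP
    have hPpos : 0 < P := mul_pos hNr hQr
    -- Jensen for each j
    have hJ : ∀ j, (α j : ℝ) * (P * Real.log P)
        ≤ (α j : ℝ) * (P * Real.log (deg A j)) + Q * ∑ i, c i j * Real.log (Pm i j) := by
      intro j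
      rcases Nat.eq_zero_or_pos (α j) with h0 | hpos
      · have : ∀ i, c i j = 0 := by
          intro i
          have h := sum_card_fix A α j
          rw [h0, zero_mul] at h
          have h' := (Finset.sum_eq_zero_iff.1 h) i (Finset.mem_univ i)
          simp only [c, h', Nat.cast_zero]
        simp [this, h0]
      · have hα0 : (0 : ℝ) < α j := by exact_mod_cast hpos
        set I := Finset.univ.filter (fun i => j ∈ A i) with hI
        have hcz : ∀ i, i ∉ I → c i j = 0 := by
          intro i hi
          simp only [hI, Finset.mem_filter, Finset.mem_univ, true_and] at hi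
          simp only [c, card_fix_zero A α i j hi, Nat.cast_zero]
        have hsumc : ∑ i ∈ I, c i j = α j * N := by
          have h := sum_card_fix A α j
          have h' : ∑ i, c i j = (α j : ℝ) * N := by
            simp only [c]
            rw [← Nat.cast_sum, h]
            push_cast; rfl
          rw [← h']
          refine Finset.sum_subset (Finset.subset_univ _) fun i _ hi => hcz i hi
        have hsumP : ∑ i ∈ I, Pm i j = P := by
          have : (α j : ℝ) * ∑ i ∈ I, Pm i j = α j * P := by
            rw [Finset.mul_sum]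
            calc ∑ i ∈ I, (α j : ℝ) * Pm i j = ∑ i ∈ I, c i j * Q := by
                  refine Finset.sum_congr rfl fun i hi => hrel i j ?_ hpos
                  simpa [hI] using hi
              _ = (∑ i ∈ I, c i j) * Q := by rw [Finset.sum_mul]
              _ = α j * P := by rw [hsumc, hP]; ring
          exact mul_left_cancel₀ hα0.ne' this
        have h := log_sum I (fun i => Pm i j) (fun i _ => hPm0 i j) (by rw [hsumP]; exact hPpos)
        rw [hsumP] at h
        have hcard : (I.card : ℝ) = deg A j := rfl
        rw [hcard] at h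
        have h2 := mul_le_mul_of_nonneg_left h hα0.le
        have h3 : (α j : ℝ) * ∑ i ∈ I, Pm i j * Real.log (Pm i j)
            = Q * ∑ i, c i j * Real.log (Pm i j) := by
          rw [Finset.mul_sum, Finset.mul_sum]
          rw [← Finset.sum_subset (Finset.subset_univ I)
            (f := fun i => (Q : ℝ) * (c i j * Real.log (Pm i j)))
            (fun i _ hi => by rw [hcz i hi]; ring)]
          refine Finset.sum_congr rfl fun i hi => ?_
          have := hrel i j (by simpa [hI] using hi) hpos
          calc (α j : ℝ) * (Pm i j * Real.log (Pm i j)) = ((α j : ℝ) * Pm i j) * Real.log (Pm i j) := by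
                ring
            _ = Q * (c i j * Real.log (Pm i j)) := by rw [this]; ring
        rw [mul_add, h3] at h2
        exact h2
    have hS := Finset.sum_le_sum (fun j (_ : j ∈ (Finset.univ : Finset κ)) => hJ j)
    rw [Finset.sum_add_distrib, ← Finset.sum_mul, ← Finset.mul_sum] at hS
    have hαsum : (∑ j, (α j : ℝ)) = n + 1 := by
      have := sum_alpha hf0
      rw [← Nat.cast_sum, this]; push_cast; ring
    rw [hαsum] at hS
    -- rewrite the double sum over f
    have hdouble : ∑ j, ∑ i, c i j * Real.log (Pm i j)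
        = ∑ f ∈ Fam A α, ∑ i, Real.log (Pm i (f i)) := by
      rw [Finset.sum_comm]
      rw [Finset.sum_comm (s := Fam A α)]
      refine Finset.sum_congr rfl fun i _ => ?_
      simp only [c]
      have : ∀ j, ((((Fam A α).filter (fun f => f i = j)).card : ℕ) : ℝ) * Real.log (Pm i j)
          = ∑ f ∈ (Fam A α).filter (fun f => f i = j), Real.log (Pm i (f i)) := by
        intro j
        rw [Finset.sum_congr rfl (g := fun _ => Real.log (Pm i j))]
        · simp
        · intro f hf
          rw [(Finset.mem_filter.1 hf).2]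
      rw [Finset.sum_congr rfl (fun j _ => this j)]
      exact Finset.sum_fiberwise (Fam A α) (fun f => f i) (fun f => Real.log (Pm i (f i)))
    rw [hdouble] at hS
    -- bound each f
    have hf : ∀ f ∈ Fam A α, ∑ i, Real.log (Pm i (f i))
        ≤ ∑ j, (α j : ℝ) * (((n : ℝ) + 1) * G (deg A j) - Real.log (deg A j)) := by
      intro f hf
      calc ∑ i, Real.log (Pm i (f i))
          ≤ ∑ i, ∑ j, ((rem α (f i) j : ℕ) : ℝ) * G (deg (fun i' => A (i.succAbove i')) j) := by
            refine Finset.sum_le_sum fun i _ => ?_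
            have hα : 1 ≤ α (f i) := by
              rw [← (mem_Fam.1 hf).2 (f i)]
              exact Finset.card_pos.2 ⟨i, by simp⟩
            have hcard := card_fix A α i (f i) ((mem_Fam.1 hf).1 i) hα
            have hne : (Fam (fun i' => A (i.succAbove i')) (rem α (f i))).Nonempty := by
              rw [← Finset.card_pos, ← hcard]
              exact Finset.card_pos.2 ⟨f, by simp [hf]⟩
            exact ih _ _ hne
        _ = ∑ j, ∑ i, ((rem α (f i) j : ℕ) : ℝ) * G (deg (fun i' => A (i.succAbove i')) j) :=
            Finset.sum_comm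
        _ = _ := Finset.sum_congr rfl fun j _ => inner hf j
    have hS2 := Finset.sum_le_sum hf
    rw [Finset.sum_const, nsmul_eq_mul] at hS2
    have hS3 : ((n : ℝ) + 1) * (P * Real.log P) ≤ P * (((n : ℝ) + 1) * ∑ j, (α j : ℝ) * G (deg A j)) := by
      have e1 : (∑ j, (α j : ℝ) * (P * Real.log (deg A j))) + Q * (N * ∑ j, (α j : ℝ) *
          (((n : ℝ) + 1) * G (deg A j) - Real.log (deg A j)))
          = P * (((n : ℝ) + 1) * ∑ j, (α j : ℝ) * G (deg A j)) := by
        have : ∀ j, (α j : ℝ) * (((n : ℝ) + 1) * G (deg A j) - Real.log (deg A j))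
            = ((n : ℝ) + 1) * ((α j : ℝ) * G (deg A j)) - (α j : ℝ) * Real.log (deg A j) := by
          intro j; ring
        rw [Finset.sum_congr rfl (fun j _ => this j), Finset.sum_sub_distrib, ← Finset.mul_sum]
        have h2 : ∑ j, (α j : ℝ) * (P * Real.log (deg A j)) = P * ∑ j, (α j : ℝ) * Real.log (deg A j) := by
          rw [Finset.mul_sum]; exact Finset.sum_congr rfl fun j _ => by ring
        rw [h2, hP]; ring
      calc ((n : ℝ) + 1) * (P * Real.log P) ≤ _ := hS
        _ ≤ (∑ j, (α j : ℝ) * (P * Real.log (deg A j))) + Q * (N * ∑ j, (α j : ℝ) *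
          (((n : ℝ) + 1) * G (deg A j) - Real.log (deg A j))) := by
            gcongr
        _ = _ := e1
    have hfin : Real.log P ≤ ∑ j, (α j : ℝ) * G (deg A j) := by
      have hpos : 0 < P * ((n : ℝ) + 1) := by positivity
      refine le_of_mul_le_mul_left ?_ hpos
      calc P * ((n : ℝ) + 1) * Real.log P = ((n : ℝ) + 1) * (P * Real.log P) := by ring
        _ ≤ _ := hS3
        _ = _ := by ring
    have : (((N * Q : ℕ) : ℝ)) = P := by rw [hP]; push_cast; ring
    rw [this]
    exact hfin

end Pool.Agent.Q285.BregCol
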