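import Pool.Agent.Q256.MP.Stm

/-!
# Project MP, job AVOID: an integral linear form which does not vanish at finitely many vectors
-/

set_option autoImplicit false

namespace Pool.Agent.Q285.MP

open Polynomial Finset Pool.Agent.Q256.MP

theorem avoid : S_avoid := by
  classical
  intro n m
  refine ⟨(m * n + 1) ^ n, ?_⟩
  intro w hw
  obtain ⟨p, hp⟩ : ∃ p : Fin m → ℂ[X], p = fun i => ∑ j : Fin n, C (w i j) * X ^ (j : ℕ) := ⟨_, rfl⟩
  have hcoef : ∀ i (j : Fin n), (p i).coeff j = w i j := by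
    intro i j
    rw [hp]
    simp only [finsetSum_coeff, coeff_C_mul, coeff_X_pow]
    rw [Finset.sum_eq_single j]
    · simp
    · intro k _ hk
      rw [if_neg, mul_zero]
      intro h
      exact hk (Fin.ext h.symm)
    · intro h
      exact absurd (Finset.mem_univ _) h
  have hp0 : ∀ i, p i ≠ 0 := by
    intro i h
    obtain ⟨j, hj⟩ := Function.ne_iff.1 (hw i)
    refine hj ?_
    rw [← hcoef, h]
    simp
  have hdeg : ∀ i, (p i).natDegree ≤ n := by
    intro i
    rw [hp]
    refine natDegree_sum_le_of_forall_le _ _ fun j _ => ?_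
    refine (natDegree_C_mul_X_pow_le _ _).trans ?_
    exact j.2.le
  have heval : ∀ i (t : ℂ), (p i).eval t = ∑ j : Fin n, t ^ (j : ℕ) * w i j := by
    intro i t
    rw [hp]
    simp only [eval_finsetSum, eval_mul, eval_C, eval_pow, eval_X]
    exact Finset.sum_congr rfl fun j _ => mul_comm _ _
  obtain ⟨t, ht⟩ : ∃ t : Fin (m * n + 1), (∏ i, p i).eval (((t : ℕ) : ℂ)) ≠ 0 := by
    by_contra hcon
    push Not at hcon
    have h1 : (∏ i, p i) = 0 := by
      refine eq_zero_of_natDegree_lt_card_of_eval_eq_zero _ (f := fun t : Fin (m * n + 1) => (((t : ℕ) : ℂ))) ?_ hcon ?_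
      · intro a b hab
        have hab' : (((a : ℕ) : ℂ)) = (((b : ℕ) : ℂ)) := hab
        exact Fin.ext (by exact_mod_cast hab')
      · rw [Fintype.card_fin]
        refine lt_of_le_of_lt (natDegree_prod_le _ _) ?_
        refine lt_of_le_of_lt (Finset.sum_le_sum fun i _ => hdeg i) ?_
        simp
    exact Finset.prod_ne_zero_iff.2 (fun i _ => hp0 i) h1
  refine ⟨fun j => ((t : ℕ) : ℤ) ^ (j : ℕ), ?_, ?_⟩
  · intro j
    show |((t : ℕ) : ℤ) ^ (j : ℕ)| ≤ (((m * n + 1) ^ n : ℕ) : ℤ)
    rw [abs_of_nonneg (by positivity)]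
    have h1 : ((t : ℕ)) ^ (j : ℕ) ≤ (m * n + 1) ^ n := by
      refine (Nat.pow_le_pow_left t.2.le _).trans ?_
      exact Nat.pow_le_pow_right (Nat.succ_pos _) j.2.le
    exact_mod_cast h1
  · intro i h
    refine ht ?_
    rw [eval_prod]
    refine Finset.prod_eq_zero (Finset.mem_univ i) ?_
    rw [heval, ← h]
    refine Finset.sum_congr rfl fun j _ => ?_
    push_cast
    rfl

end Pool.Agent.Q285.MP
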