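import Pool.Agent.Q201.AR.Stm2

set_option autoImplicit false

/-!
# Project AR (helper201), JOB MREL: the coded relations of the Marker extension are definable
-/

open FirstOrder FirstOrder.Language

namespace Pool.Agent.Q285.AR

theorem t_MREL : Q201.AR.S_MREL := by
  intro L Rf Fi Fk Fn
  refine ⟨Formula.iExs (Fin 1) (Fi.relabel ![Sum.inr 0, Sum.inl 0]),
    Formula.iExs (Fin 1) (Fk.relabel ![Sum.inr 0, Sum.inl 0] ⊓ Fi.relabel ![Sum.inr 0, Sum.inl 1]),
    Formula.iExs (Fin 2) (((Rf.relabel ![Sum.inr 0, Sum.inr 1]).not ⊓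
      Fn.relabel ![Sum.inr 0, Sum.inr 1, Sum.inl 0]) ⊓
      (Fi.relabel ![Sum.inr 0, Sum.inl 1] ⊓ Fi.relabel ![Sum.inr 1, Sum.inl 2])), ?_⟩
  intro M _ R ι κ ν hR hi hk hn
  refine ⟨fun v => ?_, fun v => ?_, fun v => ?_⟩
  · rw [Formula.realize_iExs]
    constructor
    · rintro ⟨i, h⟩
      rw [Formula.realize_relabel, hi] at h
      exact ⟨i 0, h.symm⟩
    · rintro ⟨a, h⟩
      refine ⟨fun _ => a, ?_⟩
      rw [Formula.realize_relabel, hi]
      exact h.symm
  · rw [Formula.realize_iExs]
    constructor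
    · rintro ⟨i, h⟩
      rw [Formula.realize_inf, Formula.realize_relabel, Formula.realize_relabel, hi, hk] at h
      exact ⟨i 0, h.1.symm, h.2.symm⟩
    · rintro ⟨a, h1, h2⟩
      refine ⟨fun _ => a, ?_⟩
      rw [Formula.realize_inf, Formula.realize_relabel, Formula.realize_relabel, hi, hk]
      exact ⟨h1.symm, h2.symm⟩
  · rw [Formula.realize_iExs]
    constructor
    · rintro ⟨i, h⟩
      rw [Formula.realize_inf, Formula.realize_inf, Formula.realize_inf, Formula.realize_not,
        Formula.realize_relabel, Formula.realize_relabel, Formula.realize_relabel,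
        Formula.realize_relabel, hi, hi, hR, hn] at h
      exact ⟨i 0, i 1, h.1.1, h.1.2.symm, h.2.1.symm, h.2.2.symm⟩
    · rintro ⟨a, b, h1, h2, h3, h4⟩
      refine ⟨![a, b], ?_⟩
      rw [Formula.realize_inf, Formula.realize_inf, Formula.realize_inf, Formula.realize_not,
        Formula.realize_relabel, Formula.realize_relabel, Formula.realize_relabel,
        Formula.realize_relabel, hi, hi, hR, hn]
      exact ⟨⟨h1, h2.symm⟩, h3.symm, h4.symm⟩

end Pool.Agent.Q285.AR
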