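import Pool.Agent.Q256.UI.Stm

set_option autoImplicit false

/-! Project UI (helper256), job TAY: the Taylor expansion around the asymptotic direction. -/

namespace Pool.Agent.Q285.UI

open Finset MvPolynomial Pool.Agent.Q256.UI
open Pool.Agent.Q256.UP (PBox)

theorem single_add (α : Fin 2 →₀ ℕ) : Finsupp.single 0 (α 0) + Finsupp.single 1 (α 1) = α := by
  ext i
  fin_cases i <;> simp [Finsupp.add_apply, Finsupp.single_apply]

theorem deg_two (α : Fin 2 →₀ ℕ) : α.degree = α 0 + α 1 := by
  rw [Finsupp.degree_eq_sum, Fin.sum_univ_two]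

/-- the value as a double sum over the degree and the exponent of `y` -/
theorem ev_sum (d : ℕ) (F : MvPolynomial (Fin 2) ℤ) (x y : ℝ) (hF : F.totalDegree ≤ d) :
    ev F x y = ∑ k ∈ range (d + 1), ∑ i ∈ range (k + 1),
      ((F.coeff (Finsupp.single 0 (k - i) + Finsupp.single 1 i) : ℤ) : ℝ) *
        (x ^ (k - i) * y ^ i) := by
  unfold ev
  rw [eval₂_eq', Finset.sum_sigma']
  refine Finset.sum_of_injOn (fun α : Fin 2 →₀ ℕ => (⟨α 0 + α 1, α 1⟩ : Σ _ : ℕ, ℕ)) ?_ ?_ ?_ ?_
  · intro α _ β _ h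
    simp only [Sigma.mk.injEq, heq_eq_eq] at h
    rw [← single_add α, ← single_add β, h.2]
    have h1 : α 0 = β 0 := by omega
    rw [h1]
  · intro α hα
    have h1 : (α.sum fun _ e => e) ≤ F.totalDegree := le_totalDegree hα
    have h2 : (α.sum fun _ e => e) = α.degree := rfl
    rw [h2, deg_two] at h1
    simp only [coe_sigma, Set.mem_sigma_iff, mem_coe, mem_range]
    constructor <;> omega
  · rintro ⟨k, i⟩ hki hn
    simp only [mem_sigma, mem_range] at hki
    by_cases h0 : F.coeff (Finsupp.single 0 (k - i) + Finsupp.single 1 i) = 0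
    · simp only [h0, Int.cast_zero, zero_mul]
    · exfalso
      apply hn
      refine ⟨Finsupp.single 0 (k - i) + Finsupp.single 1 i, ?_, ?_⟩
      · rw [mem_coe, mem_support_iff]
        exact h0
      · simp [Finsupp.single_apply]
        omega
  · intro α _
    have h1 : α 0 + α 1 - α 1 = α 0 := by omega
    simp only [h1, single_add]
    rw [Fin.prod_univ_two]
    simp

theorem tay_one (d : ℕ) (F : MvPolynomial (Fin 2) ℤ) (θ x u : ℝ) (hF : F.totalDegree ≤ d) :
    ev F x (θ * x + u) = Q d (tc F θ) x u := by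
  rw [ev_sum d F x (θ * x + u) hF]
  unfold Q tc
  refine sum_congr rfl fun k _ => ?_
  have h1 : ∀ j ∈ range (k + 1), (∑ i ∈ range (k + 1),
      ((F.coeff (Finsupp.single 0 (k - i) + Finsupp.single 1 i) : ℤ) : ℝ) * (i.choose j : ℝ) *
      θ ^ (i - j)) * x ^ (k - j) * u ^ j = ∑ i ∈ range (k + 1),
      ((F.coeff (Finsupp.single 0 (k - i) + Finsupp.single 1 i) : ℤ) : ℝ) * (i.choose j : ℝ) *
      θ ^ (i - j) * x ^ (k - j) * u ^ j := fun j _ => by
    rw [sum_mul, sum_mul]
  rw [sum_congr rfl h1, sum_comm]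
  refine sum_congr rfl fun i hi => ?_
  have hik : i ≤ k := by
    have := mem_range.1 hi
    omega
  have h2 : (θ * x + u) ^ i = ∑ j ∈ range (k + 1), (i.choose j : ℝ) * (θ * x) ^ (i - j) * u ^ j := by
    rw [add_comm (θ * x) u, add_pow]
    have h3 : range (i + 1) ⊆ range (k + 1) := range_subset_range.2 (by omega)
    rw [← sum_subset h3 (f := fun j => (i.choose j : ℝ) * (θ * x) ^ (i - j) * u ^ j)]
    · refine sum_congr rfl fun j _ => ?_
      ring
    · intro j _ hj
      rw [mem_range, not_lt] at hj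
      rw [Nat.choose_eq_zero_of_lt (by omega)]
      simp
  rw [h2, mul_sum, mul_sum]
  refine sum_congr rfl fun j _ => ?_
  by_cases hji : j ≤ i
  · have h4 : x ^ (k - j) = x ^ (k - i) * x ^ (i - j) := by
      rw [← pow_add]
      congr 1
      omega
    rw [h4, mul_pow]
    ring
  · rw [Nat.choose_eq_zero_of_lt (by omega)]
    simp

/-- **TAY** -/
theorem tay : S_TAY := by
  refine ⟨fun d F θ x u hF => tay_one d F θ x u hF, fun F x y => ?_⟩
  unfold ev
  rw [eval₂_eq', eval_eq']
  push_cast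
  refine sum_congr rfl fun α _ => ?_
  rw [Fin.prod_univ_two, Fin.prod_univ_two]
  simp

end Pool.Agent.Q285.UI
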