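import Pool.Agent.Q256.MP.Stm
import Pool.Agent.W376.GE.LB

/-!
# Project MP of helper256: job STAR

A system of forms `F*` with `F*_j = L X_j ^ d + (terms with X_0)` (only for `j = 1`) which permutes the points `(1 : i : 0 : … : 0)`, `i < m`, in a given way.
-/

set_option autoImplicit false

namespace Pool.Agent.Q285.MPstar

open Pool.Agent.W276.GE Pool.Agent.Q256.MP Polynomial

/-- the polynomial in one variable -/
theorem poly (d m : ℕ) (hmd : m ≤ d) (σ : Fin m → Fin m) : ∃ (L : ℕ) (a : ℕ → ℤ), 1 ≤ L ∧ a d = L ∧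
    ∀ i : Fin m, ∑ k ∈ Finset.range (d + 1), a k * ((i : ℕ) : ℤ) ^ k = L * ((σ i : ℕ) : ℤ) := by
  have hinj : Set.InjOn (fun i : Fin m => ((i : ℕ) : ℚ)) (Finset.univ : Finset (Fin m)) := by
    intro i _ j _ h
    have h' : ((i : ℕ) : ℚ) = ((j : ℕ) : ℚ) := h
    exact Fin.ext (by exact_mod_cast h')
  let g : ℚ[X] := Lagrange.interpolate Finset.univ (fun i : Fin m => ((i : ℕ) : ℚ))
    (fun i => ((σ i : ℕ) : ℚ))
  have hg : degree g < m := by
    have := Lagrange.degree_interpolate_lt (s := (Finset.univ : Finset (Fin m)))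
      (v := fun i : Fin m => ((i : ℕ) : ℚ)) (fun i => ((σ i : ℕ) : ℚ)) hinj
    rwa [Finset.card_univ, Fintype.card_fin] at this
  let w : ℚ[X] := ∏ i : Fin m, (X - C (((i : ℕ) : ℚ)))
  have hw : w.Monic := monic_prod_of_monic _ _ fun i _ => monic_X_sub_C _
  have hwd : w.natDegree = m := by
    change (∏ i : Fin m, (X - C (((i : ℕ) : ℚ)))).natDegree = m
    rw [natDegree_prod_of_monic _ _ fun i _ => monic_X_sub_C _]
    rw [Finset.sum_congr rfl fun i _ => natDegree_X_sub_C _, Finset.sum_const, Finset.card_univ,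
      Fintype.card_fin, smul_eq_mul, mul_one]
  let q : ℚ[X] := X ^ (d - m) * w
  have hq : q.Monic := (monic_X_pow _).mul hw
  have hqd : q.natDegree = d := by
    change (X ^ (d - m) * w).natDegree = d
    rw [(monic_X_pow _).natDegree_mul hw, natDegree_X_pow, hwd]
    omega
  let f : ℚ[X] := q + g
  have hgd : degree g < (d : ℕ) := lt_of_lt_of_le hg (by exact_mod_cast hmd)
  have hgq : degree g < degree q := by
    rw [degree_eq_natDegree hq.ne_zero, hqd]
    exact hgd
  have hf1 : f.coeff d = 1 := by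
    change (q + g).coeff d = 1
    rw [coeff_add, coeff_eq_zero_of_degree_lt hgd, add_zero]
    have := hq.coeff_natDegree
    rwa [hqd] at this
  have hf3 : f.natDegree < d + 1 := by
    have h1 : f.degree = q.degree := degree_add_eq_left_of_degree_lt hgq
    rw [natDegree_eq_of_degree_eq h1, hqd]
    exact Nat.lt_succ_self d
  have hf2 : ∀ i : Fin m, f.eval (((i : ℕ) : ℚ)) = ((σ i : ℕ) : ℚ) := by
    intro i
    have h1 : g.eval (((i : ℕ) : ℚ)) = ((σ i : ℕ) : ℚ) :=
      Lagrange.eval_interpolate_at_node (s := (Finset.univ : Finset (Fin m)))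
        (v := fun i : Fin m => ((i : ℕ) : ℚ)) (fun i => ((σ i : ℕ) : ℚ)) hinj (Finset.mem_univ i)
    have h2 : w.eval (((i : ℕ) : ℚ)) = 0 := by
      change (∏ i : Fin m, (X - C (((i : ℕ) : ℚ)))).eval _ = 0
      rw [eval_prod]
      exact Finset.prod_eq_zero (Finset.mem_univ i) (by rw [eval_sub, eval_X, eval_C, sub_self])
    change (X ^ (d - m) * w + g).eval _ = _
    rw [eval_add, eval_mul, h1, h2, mul_zero, zero_add]
  let L : ℕ := ∏ k ∈ Finset.range (d + 1), (f.coeff k).den
  have hL : 1 ≤ L := Finset.one_le_prod' fun k _ => (f.coeff k).den_pos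
  have hex : ∀ k : ℕ, ∃ a : ℤ, k ∈ Finset.range (d + 1) → (a : ℚ) = L * f.coeff k := by
    intro k
    by_cases hk : k ∈ Finset.range (d + 1)
    · obtain ⟨c, hc⟩ : (f.coeff k).den ∣ L := Finset.dvd_prod_of_mem _ hk
      refine ⟨c * (f.coeff k).num, fun _ => ?_⟩
      rw [hc]
      push_cast
      have h1 : f.coeff k * ((f.coeff k).den : ℚ) = ((f.coeff k).num : ℚ) := Rat.mul_den_eq_num _
      rw [← h1]
      ring
    · exact ⟨0, fun h => absurd h hk⟩
  choose a ha using hex
  refine ⟨L, a, hL, ?_, ?_⟩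
  · have h1 := ha d (Finset.mem_range.2 (Nat.lt_succ_self d))
    rw [hf1, mul_one] at h1
    exact_mod_cast h1
  · intro i
    have h1 : (∑ k ∈ Finset.range (d + 1), (a k : ℚ) * ((i : ℕ) : ℚ) ^ k) = (L : ℚ) * ((σ i : ℕ) : ℚ) := by
      rw [← hf2 i, eval_eq_sum_range' hf3, Finset.mul_sum]
      refine Finset.sum_congr rfl fun k hk => ?_
      rw [ha k hk]
      ring
    exact_mod_cast h1

/-- the exponent vector of `X_0 ^ (d - k) X_1 ^ k` -/
def mk (n d : ℕ) (k : Fin (d + 1)) : E (n + 2) d :=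
  ⟨Pi.single 0 (d - k) + Pi.single 1 (k : ℕ), mem_E.2 (by
    simp only [Pi.add_apply, Finset.sum_add_distrib, Finset.sum_pi_single', Finset.mem_univ, if_true]
    have := k.2
    omega)⟩

theorem prod_single {R : Type} [CommRing R] {n : ℕ} (x : Fin n → R) (a : Fin n) (u : ℕ) :
    ∏ j, x j ^ (Pi.single a u : Fin n → ℕ) j = x a ^ u := by
  rw [Finset.prod_eq_single a]
  · rw [Pi.single_eq_same]
  · intro b _ hb
    rw [Pi.single_eq_of_ne hb, pow_zero]
  · intro h
    exact absurd (Finset.mem_univ a) h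

theorem prod_mk {R : Type} [CommRing R] {n d : ℕ} (x : Fin (n + 2) → R) (k : Fin (d + 1)) :
    ∏ j, x j ^ (mk n d k).1 j = x 0 ^ (d - k) * x 1 ^ (k : ℕ) := by
  rw [← prod_single x 0 (d - k), ← prod_single x 1 (k : ℕ), ← Finset.prod_mul_distrib]
  refine Finset.prod_congr rfl fun j _ => ?_
  rw [← pow_add]
  rfl

theorem ev_pw {R : Type} [CommRing R] {n d : ℕ} (L : ℤ) (j : Fin n) (x : Fin n → R) :
    ev (fun α => if α = Pool.Agent.W376.GE.pw d j then L else 0) x = (L : R) * x j ^ d := by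
  unfold ev
  rw [Finset.sum_eq_single (Pool.Agent.W376.GE.pw d j)]
  · beta_reduce
    rw [if_pos rfl, Pool.Agent.W376.GE.pw_val, prod_single]
  · intro b _ hb
    beta_reduce
    rw [if_neg hb, Int.cast_zero, zero_mul]
  · intro h
    exact absurd (Finset.mem_univ _) h

theorem ev_mk {R : Type} [CommRing R] {n d : ℕ} (a : ℕ → ℤ) (x : Fin (n + 2) → R) :
    ev (fun α => ∑ k : Fin (d + 1), if α = mk n d k then a k else 0) x =
      ∑ k : Fin (d + 1), (a k : R) * (x 0 ^ (d - k) * x 1 ^ (k : ℕ)) := by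
  unfold ev
  have h1 : ∀ α : E (n + 2) d, ((∑ k : Fin (d + 1), if α = mk n d k then a k else 0 : ℤ) : R) *
      ∏ i, x i ^ α.1 i = ∑ k : Fin (d + 1), if α = mk n d k then (a k : R) * ∏ i, x i ^ α.1 i else 0 := by
    intro α
    rw [Int.cast_sum, Finset.sum_mul]
    refine Finset.sum_congr rfl fun k _ => ?_
    split
    · rfl
    · rw [Int.cast_zero, zero_mul]
  rw [Finset.sum_congr rfl fun α _ => h1 α, Finset.sum_comm]
  refine Finset.sum_congr rfl fun k _ => ?_
  rw [Finset.sum_ite_eq' Finset.univ (mk n d k), if_pos (Finset.mem_univ _), prod_mk]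

theorem pw_eq_mk (n d : ℕ) (k : Fin (d + 1)) :
    Pool.Agent.W376.GE.pw d (1 : Fin (n + 2)) = mk n d k ↔ (k : ℕ) = d := by
  constructor
  · intro h
    have h1 := congrArg (fun α : E (n + 2) d => α.1 1) h
    have h2 : (Pi.single 1 d : Fin (n + 2) → ℕ) 1 =
      (Pi.single 0 (d - k) + Pi.single 1 (k : ℕ) : Fin (n + 2) → ℕ) 1 := h1
    rw [Pi.single_eq_same, Pi.add_apply, Pi.single_eq_same, Pi.single_eq_of_ne (by simp)] at h2
    omega
  · intro h
    refine Subtype.ext ?_
    change (Pi.single 1 d : Fin (n + 2) → ℕ) = Pi.single 0 (d - k) + Pi.single 1 (k : ℕ)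
    rw [h, Nat.sub_self, Pi.single_zero, zero_add]

/-- **Job STAR.** -/
theorem star : S_star := by
  intro N d m hN hm hmd σ
  obtain ⟨n, rfl⟩ : ∃ n, N = n + 1 := ⟨N - 1, by omega⟩
  obtain ⟨L, a, hL, had, ha⟩ := poly d m hmd σ
  let F : Sy (n + 1) d := fun j => if j = 1 then
    (fun α => ∑ k : Fin (d + 1), if α = mk n d k then a k else 0) else
    (fun α => if α = Pool.Agent.W376.GE.pw d j then (L : ℤ) else 0)
  have hF1 : F 1 = fun α => ∑ k : Fin (d + 1), if α = mk n d k then a k else 0 := if_pos rfl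
  have hF2 : ∀ j, j ≠ 1 → F j = fun α => if α = Pool.Agent.W376.GE.pw d j then (L : ℤ) else 0 :=
    fun j hj => if_neg hj
  refine ⟨L, F, hL, ?_, ?_, ?_⟩
  · intro j
    by_cases hj : j = 1
    · subst hj
      rw [hF1]
      have h1 : ∀ k : Fin (d + 1), (if Pool.Agent.W376.GE.pw d (1 : Fin (n + 2)) = mk n d k then a k else 0) =
          if k = Fin.last d then a d else 0 := by
        intro k
        by_cases hk : (k : ℕ) = d
        · rw [if_pos ((pw_eq_mk n d k).2 hk), if_pos (Fin.ext hk), hk]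
        · rw [if_neg fun h => hk ((pw_eq_mk n d k).1 h), if_neg fun h => hk (by rw [h]; rfl)]
      change (∑ k : Fin (d + 1), if Pool.Agent.W376.GE.pw d (1 : Fin (n + 2)) = mk n d k then a k else 0) = (L : ℤ)
      rw [Finset.sum_congr rfl fun k _ => h1 k, Finset.sum_ite_eq' Finset.univ (Fin.last d),
        if_pos (Finset.mem_univ _), had]
    · rw [hF2 j hj]
      exact if_pos rfl
  · intro j α hα hne
    by_cases hj : j = 1
    · subst hj
      rw [hF1] at hne
      obtain ⟨k, -, hk⟩ := Finset.exists_ne_zero_of_sum_ne_zero hne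
      have hαk : α = mk n d k := by
        by_contra h
        exact hk (if_neg h)
      refine ⟨by simp, ?_⟩
      have hkd : (k : ℕ) ≠ d := fun h => hα (hαk.trans ((pw_eq_mk n d k).2 h).symm)
      rw [hαk]
      change 1 ≤ (Pi.single 0 (d - k) + Pi.single 1 (k : ℕ) : Fin (n + 2) → ℕ) 0
      rw [Pi.add_apply, Pi.single_eq_same]
      have := k.2
      omega
    · rw [hF2 j hj] at hne
      exact absurd (if_neg hα) hne
  · intro i j
    by_cases hj : j = 1
    · subst hj
      rw [hF1, ev_mk]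
      have h1 : pt (n + 1) (i : ℕ) 0 = 1 := rfl
      have h2 : ∀ u : ℕ, pt (n + 1) u 1 = (u : ℤ) := fun u => rfl
      rw [h2 (i : ℕ), h2 (σ i : ℕ), ← ha i, ← Fin.sum_univ_eq_sum_range (fun k => a k * ((i : ℕ) : ℤ) ^ k)]
      refine Finset.sum_congr rfl fun k _ => ?_
      rw [h1, one_pow, one_mul]
      rfl
    · rw [hF2 j hj, ev_pw]
      have h3 : ∀ u : ℕ, pt (n + 1) u j ^ d = pt (n + 1) u j ∧ pt (n + 1) u j = pt (n + 1) (σ i : ℕ) j := by
        intro u
        by_cases h0 : j = 0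
        · subst h0
          exact ⟨one_pow d, rfl⟩
        · have h4 : ∀ v : ℕ, pt (n + 1) v j = 0 := by
            intro v
            unfold pt
            have e0 : ¬ (j : ℕ) = 0 := fun h => h0 (Fin.ext h)
            have e1 : ¬ (j : ℕ) = 1 := fun h => hj (Fin.ext h)
            rw [if_neg e0, if_neg e1]
          rw [h4, h4]
          exact ⟨zero_pow (by omega), rfl⟩
      rw [(h3 _).1, (h3 _).2]
      rfl

end Pool.Agent.Q285.MPstar
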