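import Pool.Agent.Q256.MP.Stm3

/-!
# Project MP, JOB LOWC: the lower bound of the number of lattice points in a box
-/

set_option autoImplicit false

open Pool.Agent.Q256.MP

namespace Pool.Agent.Q285.MP

open Pool.Agent.Q164.MPp (box_fin)

/-- the lower bound for the multiples of one number -/
theorem lowc_key {ι : Type} [Fintype ι] (L : Submodule ℤ (ι → ℤ)) : ∃ c : ℕ, 1 ≤ c ∧ ∀ K : ℕ,
    (K : ℝ) ^ (Module.finrank ℤ L) ≤ ({g : ι → ℤ | (∀ i, |g i| ≤ ((K * c : ℕ) : ℤ)) ∧ g ∈ L}.ncard : ℝ) := by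
  classical
  obtain ⟨s, hs⟩ : ∃ s, s = Module.finrank ℤ L := ⟨_, rfl⟩
  rw [← hs]
  let b : Module.Basis (Fin s) ℤ L := Module.finBasisOfFinrankEq ℤ L hs.symm
  obtain ⟨B, hB⟩ : ∃ B : ℕ, ∀ k i, |((b k : L) : ι → ℤ) i| ≤ (B : ℤ) := by
    refine ⟨∑ k, ∑ i, (((b k : L) : ι → ℤ) i).natAbs, fun k i => ?_⟩
    rw [Int.abs_eq_natAbs]
    norm_cast
    exact (Finset.single_le_sum (f := fun i => (((b k : L) : ι → ℤ) i).natAbs) (fun _ _ => Nat.zero_le _)
      (Finset.mem_univ i)).trans (Finset.single_le_sum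
      (f := fun k => ∑ i, (((b k : L) : ι → ℤ) i).natAbs) (fun _ _ => Nat.zero_le _) (Finset.mem_univ k))
  obtain ⟨c, hc⟩ : ∃ c : ℕ, c = s * B + 1 := ⟨_, rfl⟩
  refine ⟨c, by omega, fun K => ?_⟩
  let f : (Fin s → Fin K) → (ι → ℤ) := fun a => ((∑ k, ((a k : ℕ) : ℤ) • b k : L) : ι → ℤ)
  have hf : Function.Injective f := by
    intro a a' haa
    have h1 : (∑ k, ((a k : ℕ) : ℤ) • b k : L) = ∑ k, ((a' k : ℕ) : ℤ) • b k := Subtype.ext haa
    have h2 : ∀ a : Fin s → Fin K, ∀ k, b.repr (∑ k, ((a k : ℕ) : ℤ) • b k) k = ((a k : ℕ) : ℤ) := by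
      intro a k
      exact b.repr_sum_self (fun k => ((a k : ℕ) : ℤ)) ▸ rfl
    funext k
    have h3 := h2 a k
    rw [h1, h2 a' k] at h3
    exact Fin.ext (by exact_mod_cast h3.symm)
  have hcard : ((Finset.univ : Finset (Fin s → Fin K)).image f).card = K ^ s := by
    rw [Finset.card_image_of_injective _ hf, Finset.card_univ, Fintype.card_fun, Fintype.card_fin, Fintype.card_fin]
  have hsub : (((Finset.univ : Finset (Fin s → Fin K)).image f : Finset (ι → ℤ)) : Set (ι → ℤ)) ⊆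
      {g : ι → ℤ | (∀ i, |g i| ≤ ((K * c : ℕ) : ℤ)) ∧ g ∈ L} := by
    intro g hg
    rw [Finset.mem_coe, Finset.mem_image] at hg
    obtain ⟨a, -, rfl⟩ := hg
    refine ⟨fun i => ?_, Subtype.coe_prop _⟩
    have e : f a i = ∑ k, ((a k : ℕ) : ℤ) * ((b k : L) : ι → ℤ) i := by
      show ((∑ k, ((a k : ℕ) : ℤ) • b k : L) : ι → ℤ) i = _
      rw [Submodule.coe_sum, Finset.sum_apply]
      rfl
    rw [e]
    refine (Finset.abs_sum_le_sum_abs _ _).trans ?_
    have h3 : ∀ k ∈ (Finset.univ : Finset (Fin s)), |((a k : ℕ) : ℤ) * ((b k : L) : ι → ℤ) i| ≤ (K : ℤ) * B := by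
      intro k _
      rw [abs_mul]
      refine mul_le_mul ?_ (hB k i) (abs_nonneg _) (by positivity)
      rw [abs_of_nonneg (by positivity)]
      exact_mod_cast (a k).2.le
    refine (Finset.sum_le_sum h3).trans ?_
    rw [Finset.sum_const, Finset.card_univ, Fintype.card_fin, nsmul_eq_mul, hc]
    push_cast
    nlinarith [Int.natCast_nonneg K, Int.natCast_nonneg B]
  have h4 := Set.ncard_le_ncard hsub ((box_fin _).subset fun g hg => hg.1)
  rw [Set.ncard_coe_finset, hcard] at h4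
  exact_mod_cast h4

/-- **JOB LOWC** -/
theorem lowc : S_lowc := by
  intro ι _ L
  obtain ⟨c, hc, key⟩ := lowc_key L
  obtain ⟨s, hs⟩ : ∃ s, s = Module.finrank ℤ L := ⟨_, rfl⟩
  rw [← hs] at key ⊢
  have hcr : (1 : ℝ) ≤ c := by exact_mod_cast hc
  refine ⟨(1 / (2 * (c : ℝ))) ^ s, by positivity, fun H hH => ?_⟩
  rw [← mul_pow]
  have hfin : {g : ι → ℤ | (∀ i, |g i| ≤ (H : ℤ)) ∧ g ∈ L}.Finite := (box_fin _).subset fun g hg => hg.1
  by_cases h : c ≤ H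
  · have hK : 1 ≤ H / c := (Nat.one_le_div_iff (by omega)).2 h
    have h1 : H < (H / c + 1) * c := by
      rw [mul_comm]
      exact Nat.lt_mul_div_succ H (by omega)
    have h2 : (H : ℝ) < (((H / c : ℕ) : ℝ) + 1) * c := by exact_mod_cast h1
    have hKr : (1 : ℝ) ≤ ((H / c : ℕ) : ℝ) := by exact_mod_cast hK
    have h3 : 1 / (2 * (c : ℝ)) * H ≤ ((H / c : ℕ) : ℝ) := by
      rw [one_div, inv_mul_le_iff₀ (by positivity)]
      nlinarith
    refine (pow_le_pow_left₀ (by positivity) h3 s).trans ((key (H / c)).trans ?_)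
    have h4 : {g : ι → ℤ | (∀ i, |g i| ≤ ((H / c * c : ℕ) : ℤ)) ∧ g ∈ L} ⊆ {g : ι → ℤ | (∀ i, |g i| ≤ (H : ℤ)) ∧ g ∈ L} := by
      rintro g ⟨hg1, hg2⟩
      exact ⟨fun i => (hg1 i).trans (by exact_mod_cast Nat.div_mul_le_self H c), hg2⟩
    exact_mod_cast Set.ncard_le_ncard h4 hfin
  · have h1 : 1 / (2 * (c : ℝ)) * H ≤ 1 := by
      rw [one_div, inv_mul_le_iff₀ (by positivity)]
      have : (H : ℝ) ≤ c := by exact_mod_cast (not_le.1 h).le
      linarith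
    have h2 : 1 ≤ {g : ι → ℤ | (∀ i, |g i| ≤ (H : ℤ)) ∧ g ∈ L}.ncard := by
      rw [Nat.one_le_iff_ne_zero, ← Nat.pos_iff_ne_zero, Set.ncard_pos hfin]
      exact ⟨0, fun i => by simp, L.zero_mem⟩
    exact (pow_le_one₀ (by positivity) h1).trans (by exact_mod_cast h2)

end Pool.Agent.Q285.MP
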