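import Pool.Agent.Q256.UG.Stm

/-!
Project UG, job GRD: counting coefficient vectors with small values.
-/

set_option autoImplicit false

namespace Pool.Agent.Q285.UG

open Finset
open Pool.Agent.Q256.UG

theorem card_int (r X : ℝ) (hX : 0 ≤ X) :
    ((Finset.Icc ⌈-r - X⌉ ⌊X - r⌋).card : ℝ) ≤ 2 * X + 1 := by
  rw [Int.card_Icc]
  rcases le_total (⌊X - r⌋ + 1 - ⌈-r - X⌉) 0 with h | h
  · rw [Int.toNat_of_nonpos h]
    push_cast
    positivity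
  · have h1 : (((⌊X - r⌋ + 1 - ⌈-r - X⌉).toNat : ℤ) : ℝ) =
        ((⌊X - r⌋ + 1 - ⌈-r - X⌉ : ℤ) : ℝ) := by rw [Int.toNat_of_nonneg h]
    rw [Int.cast_natCast] at h1
    rw [h1]
    push_cast
    have h2 := Int.floor_le (X - r)
    have h3 := Int.le_ceil (-r - X)
    linarith

/-- One more coordinate. -/
theorem step {n : ℕ} (T : Finset (Fin n → ℤ)) (f : (Fin n → ℤ) → ℝ) {X : ℝ} (hX : 0 ≤ X)
    {S : Set (Fin (n + 1) → ℤ)}
    (hS : ∀ c ∈ S, Fin.tail c ∈ T ∧ |(c 0 : ℝ) + f (Fin.tail c)| ≤ X) :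
    S.Finite ∧ (S.ncard : ℝ) ≤ (2 * X + 1) * T.card := by
  classical
  set U : Finset (Fin (n + 1) → ℤ) := T.biUnion fun v =>
    (Finset.Icc ⌈-f v - X⌉ ⌊X - f v⌋).image fun z => (Fin.cons z v : Fin (n + 1) → ℤ) with hU
  have hSU : S ⊆ (U : Set (Fin (n + 1) → ℤ)) := by
    intro c hc
    obtain ⟨h1, h2⟩ := hS c hc
    rw [Finset.mem_coe, hU, Finset.mem_biUnion]
    refine ⟨Fin.tail c, h1, ?_⟩
    rw [Finset.mem_image]
    refine ⟨c 0, ?_, Fin.cons_self_tail c⟩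
    rw [abs_le] at h2
    rw [Finset.mem_Icc, Int.ceil_le, Int.le_floor]
    exact ⟨by linarith [h2.1], by linarith [h2.2]⟩
  refine ⟨U.finite_toSet.subset hSU, ?_⟩
  have h1 : S.ncard ≤ U.card := by
    rw [← Set.ncard_coe_finset U]
    exact Set.ncard_le_ncard hSU U.finite_toSet
  have h2' : U.card ≤ ∑ v ∈ T, ((Finset.Icc ⌈-f v - X⌉ ⌊X - f v⌋).image
      fun z => (Fin.cons z v : Fin (n + 1) → ℤ)).card := Finset.card_biUnion_le
  have h2 : (U.card : ℝ) ≤ ∑ v ∈ T, (2 * X + 1) := by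
    refine le_trans (Nat.cast_le.2 h2') ?_
    rw [Nat.cast_sum]
    refine Finset.sum_le_sum fun v _ => ?_
    refine le_trans ?_ (card_int (f v) X hX)
    exact_mod_cast Finset.card_image_le
  rw [Finset.sum_const, nsmul_eq_mul] at h2
  have h3 : (S.ncard : ℝ) ≤ U.card := by exact_mod_cast h1
  linarith

/-- The box. -/
noncomputable def bxv (n H : ℕ) : Finset (Fin n → ℤ) := Fintype.piFinset fun _ => Finset.Icc (-(H : ℤ)) H

theorem card_bxv (n H : ℕ) : ((bxv n H).card : ℝ) = (2 * (H : ℝ) + 1) ^ n := by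
  unfold bxv
  rw [Fintype.card_piFinset]
  simp only [Finset.prod_const, Finset.card_univ, Fintype.card_fin, Int.card_Icc]
  have h1 : ((H : ℤ) + 1 - -(H : ℤ)).toNat = 2 * H + 1 := by omega
  rw [h1]
  push_cast
  ring

theorem mem_bxv {n H : ℕ} {v : Fin n → ℤ} (h : ∀ i, |v i| ≤ (H : ℤ)) : v ∈ bxv n H := by
  unfold bxv
  rw [Fintype.mem_piFinset]
  exact fun i => Finset.mem_Icc.2 (abs_le.1 (h i))

/-- The three coordinates. -/
theorem pv0 (e : ℕ) (c : Fin (e + 2 + 1) → ℤ) (t : ℝ) :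
    pv (e + 2) c 0 t = c 0 + ∑ i : Fin (e + 2), (Fin.tail c i : ℝ) * (((i : ℕ) + 1).choose 0 : ℝ) *
      t ^ ((i : ℕ) + 1) := by
  unfold pv
  rw [Fin.sum_univ_succ]
  simp [Fin.tail]

theorem pv1 (e : ℕ) (c : Fin (e + 2 + 1) → ℤ) (t : ℝ) :
    pv (e + 2) c 1 t = (Fin.tail c 0 : ℤ) + ∑ i : Fin (e + 1), (Fin.tail (Fin.tail c) i : ℝ) *
      (((i : ℕ) + 2).choose 1 : ℝ) * t ^ ((i : ℕ) + 1) := by
  unfold pv
  rw [Fin.sum_univ_succ, Fin.sum_univ_succ]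
  simp only [Fin.tail, Fin.val_zero, Fin.val_succ]
  norm_num
  exact Finset.sum_congr rfl fun x _ => by ring

theorem pv2 (e : ℕ) (c : Fin (e + 2 + 1) → ℤ) (t : ℝ) :
    pv (e + 2) c 2 t = (Fin.tail (Fin.tail c) 0 : ℤ) + ∑ i : Fin e,
      (Fin.tail (Fin.tail (Fin.tail c)) i : ℝ) * (((i : ℕ) + 3).choose 2 : ℝ) *
        t ^ ((i : ℕ) + 1) := by
  unfold pv
  rw [Fin.sum_univ_succ, Fin.sum_univ_succ, Fin.sum_univ_succ]
  have h : ∀ x : ℕ, x + 1 + 1 + 1 - 2 = x + 1 := fun x => by omega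
  simp only [Fin.tail, Fin.val_zero, Fin.val_succ, h]
  norm_num [Nat.choose]

theorem grd : S_GRD := by
  intro d H t X Y Z hd hX hY hZ
  obtain ⟨e, rfl⟩ := Nat.exists_eq_add_of_le' hd
  have e1 : e + 2 - 1 = e + 1 := by omega
  have e2 : e + 2 - 2 = e := by omega
  rw [e1, e2]
  refine ⟨?_, ?_⟩
  · -- the last e + 1 coordinates
    have h1 := step (bxv (e + 1) H) (fun v => ∑ i : Fin (e + 1), (v i : ℝ) *
      (((i : ℕ) + 2).choose 1 : ℝ) * t ^ ((i : ℕ) + 1)) hY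
      (S := {v : Fin (e + 1 + 1) → ℤ | Fin.tail v ∈ bxv (e + 1) H ∧
        |(v 0 : ℝ) + ∑ i : Fin (e + 1), (Fin.tail v i : ℝ) *
          (((i : ℕ) + 2).choose 1 : ℝ) * t ^ ((i : ℕ) + 1)| ≤ Y}) (fun c hc => hc)
    obtain ⟨hf, h1⟩ := h1
    have h2 := step hf.toFinset (fun v => ∑ i : Fin (e + 2), (v i : ℝ) *
      (((i : ℕ) + 1).choose 0 : ℝ) * t ^ ((i : ℕ) + 1)) hX
      (S := {c | c ∈ Vc (e + 2) H ∧ |pv (e + 2) c 0 t| ≤ X ∧ |pv (e + 2) c 1 t| ≤ Y})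
      (by
        rintro c ⟨hc1, hc2, hc3⟩
        rw [pv0] at hc2
        rw [pv1] at hc3
        refine ⟨?_, hc2⟩
        rw [Set.Finite.mem_toFinset]
        exact ⟨mem_bxv fun i => hc1 _, hc3⟩)
    obtain ⟨-, h2⟩ := h2
    rw [← Set.ncard_eq_toFinset_card _ hf] at h2
    rw [card_bxv] at h1
    rw [Nat.card_coe_set_eq]
    refine h2.trans ?_
    rw [mul_assoc]
    exact mul_le_mul_of_nonneg_left h1 (by positivity)
  · have h0 := step (bxv e H) (fun v => ∑ i : Fin e, (v i : ℝ) *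
      (((i : ℕ) + 3).choose 2 : ℝ) * t ^ ((i : ℕ) + 1)) hZ
      (S := {v : Fin (e + 1) → ℤ | Fin.tail v ∈ bxv e H ∧
        |(v 0 : ℝ) + ∑ i : Fin e, (Fin.tail v i : ℝ) *
          (((i : ℕ) + 3).choose 2 : ℝ) * t ^ ((i : ℕ) + 1)| ≤ Z}) (fun c hc => hc)
    obtain ⟨hf0, h0⟩ := h0
    have h1 := step hf0.toFinset (fun v => ∑ i : Fin (e + 1), (v i : ℝ) *
      (((i : ℕ) + 2).choose 1 : ℝ) * t ^ ((i : ℕ) + 1)) hY
      (S := {v : Fin (e + 1 + 1) → ℤ | Fin.tail v ∈ hf0.toFinset ∧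
        |(v 0 : ℝ) + ∑ i : Fin (e + 1), (Fin.tail v i : ℝ) *
          (((i : ℕ) + 2).choose 1 : ℝ) * t ^ ((i : ℕ) + 1)| ≤ Y}) (fun c hc => hc)
    obtain ⟨hf, h1⟩ := h1
    have h2 := step hf.toFinset (fun v => ∑ i : Fin (e + 2), (v i : ℝ) *
      (((i : ℕ) + 1).choose 0 : ℝ) * t ^ ((i : ℕ) + 1)) hX
      (S := {c | c ∈ Vc (e + 2) H ∧ |pv (e + 2) c 0 t| ≤ X ∧ |pv (e + 2) c 1 t| ≤ Y ∧
        |pv (e + 2) c 2 t| ≤ Z})
      (by
        rintro c ⟨hc1, hc2, hc3, hc4⟩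
        rw [pv0] at hc2
        rw [pv1] at hc3
        rw [pv2] at hc4
        refine ⟨?_, hc2⟩
        rw [Set.Finite.mem_toFinset]
        refine ⟨?_, hc3⟩
        rw [Set.Finite.mem_toFinset]
        exact ⟨mem_bxv fun i => hc1 _, hc4⟩)
    obtain ⟨-, h2⟩ := h2
    rw [← Set.ncard_eq_toFinset_card _ hf] at h2
    rw [← Set.ncard_eq_toFinset_card _ hf0] at h1
    rw [card_bxv] at h0
    rw [Nat.card_coe_set_eq]
    refine h2.trans ?_
    rw [mul_assoc, mul_assoc]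
    refine mul_le_mul_of_nonneg_left (h1.trans ?_) (by positivity)
    exact mul_le_mul_of_nonneg_left h0 (by positivity)

end Pool.Agent.Q285.UG
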