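import Pool.Agent.Q256.UI.Stm
import Pool.Agent.Q285.UI_TAY

set_option autoImplicit false

/-! Project UI (helper256), job BDD: the sizes of the Taylor coefficients. -/

namespace Pool.Agent.Q285.UI

open Finset MvPolynomial Pool.Agent.Q256.UI
open Pool.Agent.Q256.UP (PBox)

theorem deg_pair (a b : ℕ) :
    (Finsupp.single 0 a + Finsupp.single 1 b : Fin 2 →₀ ℕ).degree = a + b := by
  rw [deg_two]
  simp

/-- **BDD** -/
theorem bdd : S_BDD := by
  intro d Φ θ hd hΦ hθ h1
  -- coefficients of the leading form in the wrong degree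
  have hz : ∀ k i, k ≠ d → i ≤ k →
      Φ.coeff (Finsupp.single 0 (k - i) + Finsupp.single 1 i) = 0 := by
    intro k i hk hi
    by_contra h0
    have h2 : (Finsupp.single 0 (k - i) + Finsupp.single 1 i : Fin 2 →₀ ℕ).degree = d := by
      have h3 := hΦ h0
      rw [Finsupp.degree_eq_weight_one]
      exact h3
    rw [deg_pair] at h2
    omega
  have hG : ∀ G : MvPolynomial (Fin 2) ℤ, G.totalDegree ≤ d - 1 → ∀ i, i ≤ d →
      G.coeff (Finsupp.single 0 (d - i) + Finsupp.single 1 i) = 0 := by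
    intro G hG i hi
    by_contra h0
    have h2 : (Finsupp.single 0 (d - i) + Finsupp.single 1 i : Fin 2 →₀ ℕ) ∈ G.support :=
      mem_support_iff.2 h0
    have h3 := le_totalDegree h2
    have h4 : ((Finsupp.single 0 (d - i) + Finsupp.single 1 i : Fin 2 →₀ ℕ).sum fun _ e => e) =
      (Finsupp.single 0 (d - i) + Finsupp.single 1 i : Fin 2 →₀ ℕ).degree := rfl
    rw [h4, deg_pair] at h3
    omega
  -- the leading coefficients
  have htop : ∀ G : MvPolynomial (Fin 2) ℤ, G.totalDegree ≤ d - 1 → ∀ j,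
      tc (Φ + G) θ d j = tc Φ θ d j := by
    intro G hGd j
    unfold tc
    refine sum_congr rfl fun i hi => ?_
    have hi' : i ≤ d := by
      have := mem_range.1 hi
      omega
    rw [coeff_add, hG G hGd i hi', add_zero]
  have hzero : tc Φ θ d 0 = 0 := by
    have h2 := ev_sum d Φ 1 θ (hΦ.totalDegree_le)
    rw [hθ, sum_range_succ] at h2
    have h3 : ∑ k ∈ range d, ∑ i ∈ range (k + 1),
      ((Φ.coeff (Finsupp.single 0 (k - i) + Finsupp.single 1 i) : ℤ) : ℝ) *
        ((1 : ℝ) ^ (k - i) * θ ^ i) = 0 := by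
      refine sum_eq_zero fun k hk => sum_eq_zero fun i hi => ?_
      have hk' := mem_range.1 hk
      have hi' := mem_range.1 hi
      rw [hz k i (by omega) (by omega)]
      simp
    rw [h3, zero_add] at h2
    unfold tc
    rw [h2]
    refine sum_congr rfl fun i _ => ?_
    simp
  obtain ⟨M, hM⟩ : ∃ M : ℝ, M = ∑ k ∈ range d, ∑ j ∈ range (k + 1), ∑ i ∈ range (k + 1),
    (i.choose j : ℝ) * |θ| ^ (i - j) := ⟨_, rfl⟩
  have hM0 : 0 ≤ M := by
    rw [hM]
    positivity
  obtain ⟨S, hS⟩ : ∃ S : ℝ, S = ∑ j ∈ range (d + 1), |tc Φ θ d j| := ⟨_, rfl⟩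
  have hS0 : 0 ≤ S := by
    rw [hS]
    positivity
  have ht : 0 < |tc Φ θ d 1| := abs_pos.2 h1
  have hti : 0 < 1 / |tc Φ θ d 1| := by positivity
  refine ⟨1 + 1 / |tc Φ θ d 1| + S + M, by linarith, fun H hH F hF => ?_⟩
  obtain ⟨G, ⟨hGd, hGB⟩, rfl⟩ := hF
  refine ⟨?_, ?_, ?_, ?_⟩
  · rw [htop G hGd, hzero]
  · rw [htop G hGd]
    have h2 : 1 / |tc Φ θ d 1| * |tc Φ θ d 1| = 1 := by field_simp
    nlinarith [mul_nonneg hS0 ht.le, mul_nonneg hM0 ht.le]
  · intro j hj
    rw [htop G hGd]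
    have h2 : |tc Φ θ d j| ≤ S := by
      rw [hS]
      exact single_le_sum (f := fun j => |tc Φ θ d j|) (fun i _ => abs_nonneg _)
        (mem_range.2 (by omega))
    linarith
  · intro k j hk hj
    have h2 : |tc (Φ + G) θ k j| ≤ H * ∑ i ∈ range (k + 1), (i.choose j : ℝ) * |θ| ^ (i - j) := by
      unfold tc
      rw [mul_sum]
      refine (abs_sum_le_sum_abs _ _).trans (sum_le_sum fun i hi => ?_)
      have hi' := mem_range.1 hi
      rw [coeff_add, hz k i (by omega) (by omega), zero_add, abs_mul, abs_mul, abs_pow,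
        Nat.abs_cast (i.choose j), mul_assoc]
      refine mul_le_mul_of_nonneg_right ?_ (by positivity)
      have h3 := hGB (Finsupp.single 0 (k - i) + Finsupp.single 1 i)
      have h4 : ((|G.coeff (Finsupp.single 0 (k - i) + Finsupp.single 1 i)| : ℤ) : ℝ) ≤
        ((H : ℤ) : ℝ) := Int.cast_le.2 h3
      rw [Int.cast_abs, Int.cast_natCast] at h4
      exact h4
    have h3 : ∑ i ∈ range (k + 1), (i.choose j : ℝ) * |θ| ^ (i - j) ≤ M := by
      rw [hM]
      refine le_trans ?_ (single_le_sum (f := fun k => ∑ j ∈ range (k + 1),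
        ∑ i ∈ range (k + 1), (i.choose j : ℝ) * |θ| ^ (i - j)) (fun i _ => by positivity)
        (mem_range.2 hk))
      exact single_le_sum (f := fun j => ∑ i ∈ range (k + 1), (i.choose j : ℝ) * |θ| ^ (i - j))
        (fun i _ => by positivity) (mem_range.2 (by omega))
    have hH0 : (0 : ℝ) ≤ H := Nat.cast_nonneg H
    calc |tc (Φ + G) θ k j| ≤ H * ∑ i ∈ range (k + 1), (i.choose j : ℝ) * |θ| ^ (i - j) := h2
      _ ≤ H * M := mul_le_mul_of_nonneg_left h3 hH0
      _ = M * H := mul_comm _ _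
      _ ≤ (1 + 1 / |tc Φ θ d 1| + S + M) * H :=
        mul_le_mul_of_nonneg_right (by linarith) hH0

end Pool.Agent.Q285.UI
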