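import Pool.Agent.Q82.CW.Stm

/-!
# The contradiction (part CW-CON)

The energy bound `S_AC` and the sup bounds `S_SUP` exclude the jump of the data.
-/

set_option autoImplicit false

open MeasureTheory Filter Topology Set
open scoped ContDiff

namespace Pool.Agent.Q82.CW

/-- A fixed bump function with support in `[1/4, 3/4]`. -/
noncomputable def con_k : ContDiffBump (1 / 2 : ℝ) := ⟨1 / 8, 1 / 4, by norm_num, by norm_num⟩

/-- The scaled bump. -/
noncomputable def con_q (h x : ℝ) : ℝ := con_k ((x - 5) / h)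

/-- The derivative of the scaled bump. -/
noncomputable def con_p (h x : ℝ) : ℝ := h⁻¹ * deriv con_k ((x - 5) / h)

/-- The test function. -/
noncomputable def con_v (h x : ℝ) : ℝ := h⁻¹ * (con_q h x - con_q h (x + h))

theorem con_k_zero {y : ℝ} (hy : y ≤ 0 ∨ 1 ≤ y) : con_k y = 0 := by
  have h : y ∉ Function.support con_k := by
    rw [con_k.support_eq, Metric.mem_ball, Real.dist_eq]
    have : con_k.rOut = 1 / 4 := rfl
    rw [this, not_lt, le_abs]
    rcases hy with hy | hy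
    · right; linarith
    · left; linarith
  exact Function.notMem_support.1 h

theorem con_dk_zero {y : ℝ} (hy : y ≤ 0 ∨ 1 ≤ y) : deriv con_k y = 0 := by
  have h : y ∉ Function.support (deriv con_k) := by
    intro hh
    have h1 := support_deriv_subset hh
    rw [con_k.tsupport_eq, Metric.mem_closedBall, Real.dist_eq] at h1
    have : con_k.rOut = 1 / 4 := rfl
    rw [this, abs_le] at h1
    rcases hy with hy | hy
    · linarith [h1.1]
    · linarith [h1.2]
  exact Function.notMem_support.1 h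

theorem con_k_contDiff : ContDiff ℝ ∞ con_k := con_k.contDiff

theorem con_dk_cont : Continuous (deriv con_k) := con_k_contDiff.continuous_deriv (by simp)

theorem con_dk_bd : ∃ C : ℝ, 0 ≤ C ∧ ∀ y, |deriv con_k y| ≤ C := by
  have h1 : HasCompactSupport (deriv con_k) := con_k.hasCompactSupport.deriv
  obtain ⟨C, hC⟩ := h1.exists_bound_of_continuous con_dk_cont
  exact ⟨C, (norm_nonneg _).trans (hC 0), hC⟩

theorem con_q_cont (h : ℝ) : Continuous (con_q h) :=
  con_k.continuous.comp ((continuous_id.sub continuous_const).div_const h)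

theorem con_p_cont (h : ℝ) : Continuous (con_p h) :=
  continuous_const.mul (con_dk_cont.comp ((continuous_id.sub continuous_const).div_const h))

theorem con_arg {h x : ℝ} (hh : 0 < h) (hx : x ∉ Ioo 5 (5 + h)) :
    (x - 5) / h ≤ 0 ∨ 1 ≤ (x - 5) / h := by
  rw [mem_Ioo, not_and_or, not_lt, not_lt] at hx
  rcases hx with hx | hx
  · left
    exact div_nonpos_of_nonpos_of_nonneg (by linarith) hh.le
  · right
    rw [le_div_iff₀ hh]
    linarith

theorem con_q_zero {h x : ℝ} (hh : 0 < h) (hx : x ∉ Ioo 5 (5 + h)) : con_q h x = 0 :=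
  con_k_zero (con_arg hh hx)

theorem con_p_zero {h x : ℝ} (hh : 0 < h) (hx : x ∉ Ioo 5 (5 + h)) : con_p h x = 0 := by
  rw [con_p, con_dk_zero (con_arg hh hx), mul_zero]

theorem con_q_mem (h x : ℝ) : 0 ≤ con_q h x ∧ con_q h x ≤ 1 :=
  ⟨con_k.nonneg, con_k.le_one⟩

theorem con_cs {f : ℝ → ℝ} {h : ℝ} (_hh : 0 < h) (hf : ∀ x, x ∉ Ioo 5 (5 + h) → f x = 0) :
    HasCompactSupport f :=
  HasCompactSupport.intro (K := Icc 5 (5 + h)) isCompact_Icc fun x hx => hf x fun h' =>
    hx ⟨h'.1.le, h'.2.le⟩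

theorem con_hasDeriv {h : ℝ} (x : ℝ) : HasDerivAt (con_q h) (con_p h x) x := by
  have h1 : HasDerivAt con_k (deriv con_k ((x - 5) / h)) ((x - 5) / h) :=
    (con_k_contDiff.differentiable (by simp)).differentiableAt.hasDerivAt
  have h2 : HasDerivAt (fun x : ℝ => (x - 5) / h) (h⁻¹) x := by
    have := ((hasDerivAt_id x).sub_const 5).div_const h
    rwa [one_div] at this
  have h3 := h1.comp x h2
  rw [mul_comm] at h3
  exact h3

theorem con_v_hasDeriv {h : ℝ} (x : ℝ) :
    HasDerivAt (con_v h) (h⁻¹ * (con_p h x - con_p h (x + h))) x := by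
  have h1 : HasDerivAt (fun y => con_q h (y + h)) (con_p h (x + h)) x :=
    (con_hasDeriv (x + h)).comp_add_const x h
  exact ((con_hasDeriv x).sub h1).const_mul _

theorem con_v_contDiff (h : ℝ) : ContDiff ℝ ∞ (con_v h) := by
  have h1 : ContDiff ℝ ∞ (con_q h) :=
    con_k_contDiff.comp ((contDiff_id.sub contDiff_const).div_const h)
  exact contDiff_const.mul (h1.sub (h1.comp (contDiff_id.add contDiff_const)))

theorem con_v_cs {h : ℝ} (hh : 0 < h) : HasCompactSupport (con_v h) := by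
  refine HasCompactSupport.intro (K := Icc (5 - h) (5 + h)) isCompact_Icc fun x hx => ?_
  rw [con_v, con_q_zero hh, con_q_zero hh, sub_zero, mul_zero]
  · intro h'
    exact hx ⟨by linarith [h'.1], by linarith [h'.2]⟩
  · intro h'
    exact hx ⟨by linarith [h'.1], by linarith [h'.2]⟩

theorem con_trans {f g : ℝ → ℝ} (hf : LocallyIntegrable f) (hg : Continuous g)
    (hgc : HasCompactSupport g) (h : ℝ) :
    ∫ x, f x * (h⁻¹ * (g x - g (x + h))) = h⁻¹ * ∫ x, Df h f x * g (x + h) := by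
  have i1 : Integrable (fun x => f x * g x) := by
    have := hf.integrable_smul_left_of_hasCompactSupport hg hgc
    simpa only [smul_eq_mul, mul_comm] using this
  have hg2 : Continuous (fun x => g (x + h)) := hg.comp (continuous_id.add continuous_const)
  have hgc2 : HasCompactSupport (fun x => g (x + h)) :=
    hgc.comp_homeomorph (Homeomorph.addRight h)
  have i2 : Integrable (fun x => f x * g (x + h)) := by
    have := hf.integrable_smul_left_of_hasCompactSupport hg2 hgc2
    simpa only [smul_eq_mul, mul_comm] using this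
  have i3 : Integrable (fun x => f (x + h) * g (x + h)) := i1.comp_add_right h
  have e1 : ∫ x, f x * (h⁻¹ * (g x - g (x + h))) =
      h⁻¹ * ((∫ x, f x * g x) - ∫ x, f x * g (x + h)) := by
    rw [← integral_sub i1 i2, ← integral_const_mul]
    congr 1
    funext x
    ring
  have e2 : ∫ x, Df h f x * g (x + h) =
      (∫ x, f (x + h) * g (x + h)) - ∫ x, f x * g (x + h) := by
    rw [← integral_sub i3 i2]
    congr 1
    funext x
    rw [Df]
    ring
  rw [e1, e2, integral_add_right_eq_self (fun x => f x * g x) h]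

theorem con_bd {F G : ℝ → ℝ} {a b : ℝ} (hab : a ≤ b) (hG : IntervalIntegrable G volume a b)
    (h0 : ∀ x, x ∉ Ioc a b → F x = 0) (h1 : ∀ x ∈ Ioc a b, |F x| ≤ G x) :
    |∫ x, F x| ≤ ∫ x in a..b, G x := by
  have e : ∫ x, F x = ∫ x in a..b, F x := by
    rw [intervalIntegral.integral_of_le hab,
      setIntegral_eq_integral_of_forall_compl_eq_zero h0]
  rw [e, ← Real.norm_eq_abs]
  exact intervalIntegral.norm_integral_le_of_norm_le hab
    (ae_of_all _ fun t ht => by rw [Real.norm_eq_abs]; exact h1 t ht) hG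

theorem con_memLp_Df {f : ℝ → ℝ} (hf : MemLp f 2) (h : ℝ) : MemLp (Df h f) 2 := by
  have h1 : MemLp (fun x => f (x + h)) 2 :=
    hf.comp_measurePreserving (measurePreserving_add_right volume h)
  exact h1.sub hf

theorem con_ii {f : ℝ → ℝ} (hf : MemLp f 2) (a b : ℝ) :
    IntervalIntegrable (fun x => f x ^ 2) volume a b :=
  hf.integrable_sq.intervalIntegrable

theorem con_ii1 {f : ℝ → ℝ} (hf : MemLp f 2) (a b : ℝ) :
    IntervalIntegrable (fun x => |f x|) volume a b :=
  (((hf.locallyIntegrable (by norm_num)).integrableOn_isCompact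
    isCompact_uIcc).intervalIntegrable).abs

theorem con_amgm {u l : ℝ} (hl : 0 < l) : |u| ≤ u ^ 2 / (2 * l) + l / 2 := by
  rw [← sq_abs, div_add_div _ _ (by positivity) (by norm_num), le_div_iff₀ (by positivity)]
  nlinarith [sq_nonneg (|u| - l)]

theorem con_csq {f : ℝ → ℝ} (hf : MemLp f 2) {a b : ℝ} (hab : a < b) :
    (∫ x in a..b, |f x|) ^ 2 ≤ (b - a) * ∫ x in a..b, f x ^ 2 := by
  set J := ∫ x in a..b, |f x| with hJ
  have h1 : 0 ≤ ∫ x in a..b, (|f x| - J / (b - a)) ^ 2 :=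
    intervalIntegral.integral_nonneg hab.le fun x _ => sq_nonneg _
  have h2 : ∫ x in a..b, (|f x| - J / (b - a)) ^ 2 =
      (∫ x in a..b, f x ^ 2) - (2 * (J / (b - a))) * J + (b - a) * (J / (b - a)) ^ 2 := by
    have e1 : ∀ x, (|f x| - J / (b - a)) ^ 2 =
        f x ^ 2 - 2 * (J / (b - a)) * |f x| + (J / (b - a)) ^ 2 := by
      intro x
      rw [sub_sq, sq_abs]
      ring
    simp only [e1]
    rw [intervalIntegral.integral_add ((con_ii hf a b).sub ((con_ii1 hf a b).const_mul _))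
      intervalIntegrable_const, intervalIntegral.integral_sub (con_ii hf a b)
      ((con_ii1 hf a b).const_mul _), intervalIntegral.integral_const_mul,
      intervalIntegral.integral_const, smul_eq_mul]
  have hba : 0 < b - a := sub_pos.2 hab
  rw [h2] at h1
  have e3 : (b - a) * ((∫ x in a..b, f x ^ 2) - (2 * (J / (b - a))) * J +
      (b - a) * (J / (b - a)) ^ 2) = (b - a) * (∫ x in a..b, f x ^ 2) - J ^ 2 := by
    field_simp
    ring
  have := mul_nonneg hba.le h1
  rw [e3] at this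
  linarith

/-- The first estimate. -/
theorem con_P1 {f : ℝ → ℝ} (hf : MemLp f 2) {h l : ℝ} (hh : 0 < h) (hl : 0 < l) :
    |∫ x, f x * con_v h x| ≤
      h⁻¹ * ((∫ x in (5 - h)..5, Df h f x ^ 2) / (2 * l) + l * h / 2) := by
  have e := con_trans (hf.locallyIntegrable (by norm_num)) (con_q_cont h)
    (con_cs hh fun x hx => con_q_zero hh hx) h
  have e' : ∫ x, f x * con_v h x = h⁻¹ * ∫ x, Df h f x * con_q h (x + h) := e
  rw [e', abs_mul, abs_of_pos (inv_pos.2 hh)]
  refine mul_le_mul_of_nonneg_left ?_ (inv_pos.2 hh).le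
  have hG : IntervalIntegrable (fun x => Df h f x ^ 2 / (2 * l) + l / 2) volume (5 - h) 5 :=
    ((con_ii (con_memLp_Df hf h) _ _).div_const _).add intervalIntegrable_const
  have h1 := con_bd (F := fun x => Df h f x * con_q h (x + h)) (by linarith) hG
    (fun x hx => by
      rw [con_q_zero hh (fun h' => hx ⟨by linarith [h'.1], by linarith [h'.2]⟩), mul_zero])
    (fun x _ => by
      rw [abs_mul, abs_of_nonneg (con_q_mem h (x + h)).1]
      exact (mul_le_of_le_one_right (abs_nonneg _) (con_q_mem h (x + h)).2).trans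
        (con_amgm hl))
  refine h1.trans (le_of_eq ?_)
  rw [intervalIntegral.integral_add ((con_ii (con_memLp_Df hf h) _ _).div_const _)
    intervalIntegrable_const, intervalIntegral.integral_div, intervalIntegral.integral_const,
    smul_eq_mul]
  ring

theorem con_ii0 {f : ℝ → ℝ} (hf : MemLp f 2) (a b : ℝ) :
    IntervalIntegrable f volume a b :=
  ((hf.locallyIntegrable (by norm_num)).integrableOn_isCompact
    isCompact_uIcc).intervalIntegrable

/-- The second estimate. -/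
theorem con_P2 {w b : ℝ → ℝ} (hw : Continuous w) (hb : MemLp b 2)
    (ftc : ∀ x y : ℝ, w y - w x = ∫ s in x..y, b s) {h l M C η : ℝ} (hh : 0 < h) (hh1 : h ≤ 1)
    (hl : 0 < l) (hM : ∀ x, |w x| ≤ M) (hC : 0 ≤ C) (hC' : ∀ y, |deriv con_k y| ≤ C)
    (hη : ∫ x in (4 : ℝ)..6, b x ^ 2 ≤ η ^ 2) :
    |∫ x, w x * b x * deriv (con_v h) x| ≤
      h⁻¹ * (h⁻¹ * C * (M * ((∫ x in (5 - h)..5, Df h b x ^ 2) / (2 * l) + l * h / 2) +
        2 * h * η ^ 2)) := by
  have hM0 : 0 ≤ M := (abs_nonneg _).trans (hM 0)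
  have hi : 0 < h⁻¹ := inv_pos.2 hh
  have hli : LocallyIntegrable (fun x => w x * b x) :=
    (hb.locallyIntegrable (by norm_num)).continuous_mul hw
  have e := con_trans hli (con_p_cont h) (con_cs hh fun x hx => con_p_zero hh hx) h
  have e' : ∫ x, w x * b x * deriv (con_v h) x =
      h⁻¹ * ∫ x, Df h (fun x => w x * b x) x * con_p h (x + h) := by
    rw [← e]
    congr 1
    funext x
    rw [(con_v_hasDeriv x).deriv]
  rw [e', abs_mul, abs_of_pos hi]
  refine mul_le_mul_of_nonneg_left ?_ hi.le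
  set B := ∫ x in (5 - h)..(5 + h), |b x| with hB
  have hB0 : 0 ≤ B := intervalIntegral.integral_nonneg (by linarith) fun x _ => abs_nonneg _
  have hG0 : IntervalIntegrable (fun x => M * (Df h b x ^ 2 / (2 * l) + l / 2)) volume (5 - h) 5 :=
    (((con_ii (con_memLp_Df hb h) _ _).div_const _).add intervalIntegrable_const).const_mul _
  have hG1 : IntervalIntegrable (fun x => B * |b x|) volume (5 - h) 5 :=
    (con_ii1 hb _ _).const_mul _
  have hG : IntervalIntegrable (fun x => h⁻¹ * C * (M * (Df h b x ^ 2 / (2 * l) + l / 2) +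
      B * |b x|)) volume (5 - h) 5 := (hG0.add hG1).const_mul _
  have h1 := con_bd (F := fun x => Df h (fun x => w x * b x) x * con_p h (x + h))
    (by linarith) hG
    (fun x hx => by
      rw [con_p_zero hh (fun h' => hx ⟨by linarith [h'.1], by linarith [h'.2]⟩), mul_zero])
    (fun x hx => by
      have e1 : Df h (fun x => w x * b x) x = w (x + h) * Df h b x + (w (x + h) - w x) * b x := by
        simp only [Df]
        ring
      have e2 : |w (x + h) - w x| ≤ B := by
        rw [ftc]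
        refine (intervalIntegral.abs_integral_le_integral_abs (by linarith)).trans ?_
        exact intervalIntegral.integral_mono_interval hx.1.le (by linarith) (by linarith [hx.2])
          (ae_of_all _ fun x => abs_nonneg _) (con_ii1 hb _ _)
      have e3 : |con_p h (x + h)| ≤ h⁻¹ * C := by
        rw [con_p, abs_mul, abs_of_pos hi]
        exact mul_le_mul_of_nonneg_left (hC' _) hi.le
      have e4 : |Df h (fun x => w x * b x) x| ≤
          M * (Df h b x ^ 2 / (2 * l) + l / 2) + B * |b x| := by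
        rw [e1]
        refine (abs_add_le _ _).trans ?_
        rw [abs_mul, abs_mul]
        refine add_le_add ?_ (mul_le_mul_of_nonneg_right e2 (abs_nonneg _))
        exact mul_le_mul (hM _) (con_amgm hl) (abs_nonneg _) hM0
      rw [abs_mul, mul_comm]
      exact mul_le_mul e3 e4 (abs_nonneg _) (mul_nonneg hi.le hC))
  refine h1.trans ?_
  have e5 : ∫ x in (5 - h)..5, h⁻¹ * C * (M * (Df h b x ^ 2 / (2 * l) + l / 2) + B * |b x|) =
      h⁻¹ * C * (M * ((∫ x in (5 - h)..5, Df h b x ^ 2) / (2 * l) + l * h / 2) +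
        B * ∫ x in (5 - h)..5, |b x|) := by
    rw [intervalIntegral.integral_const_mul, intervalIntegral.integral_add hG0 hG1,
      intervalIntegral.integral_const_mul, intervalIntegral.integral_const_mul,
      intervalIntegral.integral_add ((con_ii (con_memLp_Df hb h) _ _).div_const _)
      intervalIntegrable_const, intervalIntegral.integral_div, intervalIntegral.integral_const,
      smul_eq_mul]
    ring
  rw [e5]
  refine mul_le_mul_of_nonneg_left (add_le_add le_rfl ?_) (mul_nonneg hi.le hC)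
  have e6 : ∫ x in (5 - h)..5, |b x| ≤ B :=
    intervalIntegral.integral_mono_interval le_rfl (by linarith) (by linarith)
      (ae_of_all _ fun x => abs_nonneg _) (con_ii1 hb _ _)
  have e7 : B ^ 2 ≤ (5 + h - (5 - h)) * ∫ x in (5 - h)..(5 + h), b x ^ 2 :=
    con_csq hb (by linarith)
  have e8 : ∫ x in (5 - h)..(5 + h), b x ^ 2 ≤ ∫ x in (4 : ℝ)..6, b x ^ 2 :=
    intervalIntegral.integral_mono_interval (by linarith) (by linarith) (by linarith)
      (ae_of_all _ fun x => sq_nonneg _) (con_ii hb _ _)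
  have e9 : (5 + h - (5 - h)) = 2 * h := by ring
  rw [e9] at e7
  calc B * ∫ x in (5 - h)..5, |b x| ≤ B * B := mul_le_mul_of_nonneg_left e6 hB0
    _ = B ^ 2 := (sq B).symm
    _ ≤ 2 * h * ∫ x in (5 - h)..(5 + h), b x ^ 2 := e7
    _ ≤ 2 * h * η ^ 2 := mul_le_mul_of_nonneg_left (e8.trans hη) (by linarith)

/-- The third estimate. -/
theorem con_P3 {w : ℝ → ℝ} {h M : ℝ} (hh : 0 < h) (hM : ∀ x, |w x| ≤ M) :
    |∫ x, (2 * w x ^ 2 - 6 * w x) * con_v h x| ≤ 2 * (2 * M ^ 2 + 6 * M) := by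
  have hM0 : 0 ≤ M := (abs_nonneg _).trans (hM 0)
  have hi : 0 < h⁻¹ := inv_pos.2 hh
  have h1 := con_bd (F := fun x => (2 * w x ^ 2 - 6 * w x) * con_v h x)
    (G := fun _ => (2 * M ^ 2 + 6 * M) * h⁻¹) (a := 5 - h) (b := 5 + h) (by linarith)
    intervalIntegrable_const
    (fun x hx => by
      rw [con_v, con_q_zero hh (x := x), con_q_zero hh (x := x + h), sub_zero, mul_zero, mul_zero]
      · exact fun h' => hx ⟨by linarith [h'.1], by linarith [h'.2]⟩
      · exact fun h' => hx ⟨by linarith [h'.1], by linarith [h'.2]⟩)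
    (fun x _ => by
      rw [abs_mul]
      refine mul_le_mul ?_ ?_ (abs_nonneg _) (by positivity)
      · refine (abs_sub _ _).trans ?_
        rw [abs_mul, abs_mul, abs_pow, abs_of_pos (by norm_num : (0 : ℝ) < 2),
          abs_of_pos (by norm_num : (0 : ℝ) < 6)]
        have := pow_le_pow_left₀ (abs_nonneg _) (hM x) 2
        linarith [hM x]
      · rw [con_v, abs_mul, abs_of_pos hi]
        refine mul_le_of_le_one_right hi.le ?_
        rw [abs_le]
        have h1 := con_q_mem h x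
        have h2 := con_q_mem h (x + h)
        constructor <;> linarith [h1.1, h1.2, h2.1, h2.2])
  refine h1.trans (le_of_eq ?_)
  rw [intervalIntegral.integral_const, smul_eq_mul]
  field_simp
  ring

/-- The value at the initial time. -/
theorem con_E0 {c : ℝ → ℝ} {κ h : ℝ} (hh : 0 < h) (hh1 : h ≤ 1)
    (hc : ∀ᵐ x : ℝ, x ∈ Icc (4 : ℝ) 6 → c x = if 5 ≤ x then κ else 0) :
    ∫ x, c x * con_v h x = κ * ∫ x, con_k x := by
  have e1 : ∫ x, c x * con_v h x = ∫ x, κ * h⁻¹ * con_k ((x - 5) / h) := by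
    apply integral_congr_ae
    filter_upwards [hc] with x hx
    change c x * (h⁻¹ * (con_q h x - con_q h (x + h))) = κ * h⁻¹ * con_q h x
    by_cases hx1 : x ∈ Ioo 5 (5 + h)
    · rw [hx ⟨by linarith [hx1.1], by linarith [hx1.2]⟩, if_pos hx1.1.le,
        con_q_zero hh (x := x + h) (fun h' => by linarith [h'.2, hx1.1])]
      ring
    · rw [con_q_zero hh hx1]
      by_cases hx2 : x + h ∈ Ioo 5 (5 + h)
      · rw [hx ⟨by linarith [hx2.1], by linarith [hx2.2]⟩,
          if_neg (by linarith [hx2.2])]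
        ring
      · rw [con_q_zero hh hx2]
        ring
  rw [e1, integral_const_mul, integral_sub_right_eq_self (fun x => con_k (x / h)) 5,
    Measure.integral_comp_div con_k h, abs_of_pos hh, smul_eq_mul]
  field_simp

theorem con_contOn {f : ℝ → ℝ → ℝ} (hf : ∀ τ, 0 ≤ τ → MemLp (f τ) 2)
    (ht : ∀ τ0, 0 ≤ τ0 → Tendsto (fun τ => ∫ x, (f τ x - f τ0 x) ^ 2) (𝓝[Ici 0] τ0) (𝓝 0))
    (h a b : ℝ) (hab : a ≤ b) :
    ContinuousOn (fun τ => ∫ x in a..b, Df h (f τ) x ^ 2) (Ici 0) := by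
  intro τ0 hτ0
  have hτ0' : 0 ≤ τ0 := hτ0
  have m0 := con_memLp_Df (hf τ0 hτ0') h
  set F0 := ∫ x in a..b, Df h (f τ0) x ^ 2 with hF0
  have hF0n : 0 ≤ F0 := intervalIntegral.integral_nonneg hab fun x _ => sq_nonneg _
  have key : ∀ s : ℝ, 0 < s → ∀ τ, 0 ≤ τ → |(∫ x in a..b, Df h (f τ) x ^ 2) - F0| ≤
      (1 + 1 / s) * (4 * ∫ x, (f τ x - f τ0 x) ^ 2) + s * F0 := by
    intro s hs τ hτ
    have m1 := con_memLp_Df (hf τ hτ) h
    have m2 : MemLp (fun x => f τ x - f τ0 x) 2 := (hf τ hτ).sub (hf τ0 hτ0')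
    have m3 : MemLp (fun x => Df h (fun x => f τ x - f τ0 x) x) 2 := con_memLp_Df m2 h
    rw [hF0, ← intervalIntegral.integral_sub (con_ii m1 _ _) (con_ii m0 _ _),
      ← Real.norm_eq_abs]
    have i1 : IntervalIntegrable (fun x => (1 + 1 / s) *
        Df h (fun x => f τ x - f τ0 x) x ^ 2) volume a b := (con_ii m3 a b).const_mul _
    have i2 : IntervalIntegrable (fun x => s * Df h (f τ0) x ^ 2) volume a b :=
      (con_ii m0 a b).const_mul _
    refine (intervalIntegral.norm_integral_le_of_norm_le hab (g := fun x => (1 + 1 / s) *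
      Df h (fun x => f τ x - f τ0 x) x ^ 2 + s * Df h (f τ0) x ^ 2)
      (ae_of_all _ fun x _ => ?_) (i1.add i2)).trans ?_
    · rw [Real.norm_eq_abs]
      have e1 : Df h (fun x => f τ x - f τ0 x) x = Df h (f τ) x - Df h (f τ0) x := by
        simp only [Df]
        ring
      rw [e1]
      set X := Df h (f τ) x
      set Y := Df h (f τ0) x
      have e2 : (1 + 1 / s) * (X - Y) ^ 2 + s * Y ^ 2 =
          (X - Y) ^ 2 + ((X - Y) ^ 2 / s + s * Y ^ 2) := by ring
      have e3 : |2 * Y * (X - Y)| ≤ (X - Y) ^ 2 / s + s * Y ^ 2 := by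
        rw [abs_le]
        have e4 : 0 ≤ ((X - Y) + s * Y) ^ 2 / s := div_nonneg (sq_nonneg _) hs.le
        have e5 : 0 ≤ ((X - Y) - s * Y) ^ 2 / s := div_nonneg (sq_nonneg _) hs.le
        have e6 : ((X - Y) + s * Y) ^ 2 / s = (X - Y) ^ 2 / s + s * Y ^ 2 + 2 * Y * (X - Y) := by
          field_simp
          ring
        have e7 : ((X - Y) - s * Y) ^ 2 / s = (X - Y) ^ 2 / s + s * Y ^ 2 - 2 * Y * (X - Y) := by
          field_simp
          ring
        constructor <;> linarith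
      have e8 : X ^ 2 - Y ^ 2 = (X - Y) ^ 2 + 2 * Y * (X - Y) := by ring
      rw [e2, e8]
      refine (abs_add_le _ _).trans ?_
      rw [abs_of_nonneg (sq_nonneg (X - Y))]
      linarith
    · rw [intervalIntegral.integral_add i1 i2, intervalIntegral.integral_const_mul,
        intervalIntegral.integral_const_mul]
      have hs1 : 0 ≤ 1 + 1 / s := by positivity
      refine add_le_add (mul_le_mul_of_nonneg_left ?_ hs1) le_rfl
      have e1 : ∫ x in a..b, Df h (fun x => f τ x - f τ0 x) x ^ 2 ≤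
          ∫ x, Df h (fun x => f τ x - f τ0 x) x ^ 2 := by
        rw [intervalIntegral.integral_of_le hab]
        exact setIntegral_le_integral m3.integrable_sq (ae_of_all _ fun x => sq_nonneg _)
      refine e1.trans ?_
      have i3 : Integrable (fun x => (f τ x - f τ0 x) ^ 2) := m2.integrable_sq
      have i4 : Integrable (fun x => (f τ (x + h) - f τ0 (x + h)) ^ 2) := i3.comp_add_right h
      have e2 : ∫ x, Df h (fun x => f τ x - f τ0 x) x ^ 2 ≤
          ∫ x, (2 * (f τ (x + h) - f τ0 (x + h)) ^ 2 + 2 * (f τ x - f τ0 x) ^ 2) := by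
        apply integral_mono m3.integrable_sq ((i4.const_mul 2).add (i3.const_mul 2))
        intro x
        change ((f τ (x + h) - f τ0 (x + h)) - (f τ x - f τ0 x)) ^ 2 ≤
          2 * (f τ (x + h) - f τ0 (x + h)) ^ 2 + 2 * (f τ x - f τ0 x) ^ 2
        nlinarith [sq_nonneg ((f τ (x + h) - f τ0 (x + h)) + (f τ x - f τ0 x))]
      refine e2.trans (le_of_eq ?_)
      rw [integral_add (i4.const_mul 2) (i3.const_mul 2), integral_const_mul, integral_const_mul,
        integral_add_right_eq_self (fun x => (f τ x - f τ0 x) ^ 2) h]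
      ring
  rw [ContinuousWithinAt, Metric.tendsto_nhds]
  intro ε hε
  set s := ε / (2 * (F0 + 1)) with hs
  have hs0 : 0 < s := by positivity
  have hsF : s * F0 < ε / 2 := by
    rw [hs, div_mul_eq_mul_div, div_lt_div_iff₀ (by positivity) (by norm_num)]
    nlinarith
  have ht' : Tendsto (fun τ => (1 + 1 / s) * (4 * ∫ x, (f τ x - f τ0 x) ^ 2)) (𝓝[Ici 0] τ0)
      (𝓝 0) := by
    have := ((ht τ0 hτ0').const_mul 4).const_mul (1 + 1 / s)
    simpa only [mul_zero] using this
  have h2 : ∀ᶠ τ in 𝓝[Ici 0] τ0, (1 + 1 / s) * (4 * ∫ x, (f τ x - f τ0 x) ^ 2) < ε / 2 :=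
    ht'.eventually (gt_mem_nhds (by positivity))
  filter_upwards [h2, self_mem_nhdsWithin] with τ h3 h4
  rw [Real.dist_eq]
  have := key s hs0 τ h4
  linarith

/-- One step of the argument, with the step size `h`. -/
theorem con_step {w b c : ℝ → ℝ → ℝ} (sol : Sol0 w b c) {δ κ : ℝ} (ini : Ini w c δ κ)
    {h A M C s : ℝ} (hh : 0 < h) (hh1 : h ≤ 1 / 5) (hA : A * h ^ 2 = 1) (hs : 0 < s)
    (hM : ∀ τ ∈ Icc 0 h, ∀ x, |w τ x| ≤ M) (hC : 0 ≤ C) (hC' : ∀ y, |deriv con_k y| ≤ C)
    (hη : ∀ τ ∈ Icc 0 h, ∫ x in (4 : ℝ)..6, b τ x ^ 2 ≤ Real.sqrt s ^ 2) :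
    κ * ∫ x, con_k x ≤
      (1 / (2 * s) + (5 * h + C * M) / (2 * s)) *
        (∫ τ in (0 : ℝ)..h, A * ((∫ x in (4.6 : ℝ)..(5.4 - 2 * h), Df h (c τ) x ^ 2) +
          ∫ x in (4.6 : ℝ)..(5.4 - 2 * h), Df h (b τ) x ^ 2)) +
      (s / 2 + C * M * s / 2 + 2 * C * s) + (5 * s / 2 + 2 * (2 * M ^ 2 + 6 * M)) * h := by
  have hi : 0 < h⁻¹ := inv_pos.2 hh
  have hA0 : 0 < A := by
    by_contra hneg
    have := mul_nonpos_of_nonpos_of_nonneg (not_lt.1 hneg) (sq_nonneg h)
    rw [hA] at this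
    linarith
  have hM0 : 0 ≤ M := (abs_nonneg _).trans (hM 0 ⟨le_rfl, hh.le⟩ 0)
  have hss : Real.sqrt s ^ 2 = s := Real.sq_sqrt hs.le
  set e : ℝ → ℝ := fun τ => A * ((∫ x in (4.6 : ℝ)..(5.4 - 2 * h), Df h (c τ) x ^ 2) +
          ∫ x in (4.6 : ℝ)..(5.4 - 2 * h), Df h (b τ) x ^ 2) with he
  have hab : (4.6 : ℝ) ≤ 5.4 - 2 * h := by norm_num; linarith
  have hcont : ContinuousOn e (Ici 0) :=
    continuousOn_const.mul ((con_contOn sol.mc sol.tc h _ _ hab).add
      (con_contOn sol.mb sol.tb h _ _ hab))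
  have hei : ∀ t : ℝ, 0 ≤ t → IntervalIntegrable e volume 0 t := fun t ht =>
    (hcont.mono fun x hx => by
      rw [uIcc_of_le ht] at hx
      exact hx.1).intervalIntegrable
  have hnc : ∀ τ, 0 ≤ ∫ x in (4.6 : ℝ)..(5.4 - 2 * h), Df h (c τ) x ^ 2 := fun τ =>
    intervalIntegral.integral_nonneg hab fun x _ => sq_nonneg _
  have hnb : ∀ τ, 0 ≤ ∫ x in (4.6 : ℝ)..(5.4 - 2 * h), Df h (b τ) x ^ 2 := fun τ =>
    intervalIntegral.integral_nonneg hab fun x _ => sq_nonneg _
  have he0 : ∀ τ, 0 ≤ e τ := fun τ => mul_nonneg hA0.le (add_nonneg (hnc τ) (hnb τ))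
  have he2 : ∀ τ, h ^ 2 * e τ = (∫ x in (4.6 : ℝ)..(5.4 - 2 * h), Df h (c τ) x ^ 2) +
          ∫ x in (4.6 : ℝ)..(5.4 - 2 * h), Df h (b τ) x ^ 2 := by
    intro τ
    rw [he]
    beta_reduce
    rw [← mul_assoc, mul_comm (h ^ 2) A, hA, one_mul]
  have hPc : ∀ τ, 0 ≤ τ → ∫ x in (5 - h)..5, Df h (c τ) x ^ 2 ≤ h ^ 2 * e τ := by
    intro τ hτ
    rw [he2]
    have := intervalIntegral.integral_mono_interval (f := fun x => Df h (c τ) x ^ 2)
      (μ := volume) (c := 4.6) (a := 5 - h) (b := 5) (d := 5.4 - 2 * h)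
      (by norm_num; linarith) (by linarith) (by norm_num; linarith)
      (ae_of_all _ fun x => sq_nonneg _) (con_ii (con_memLp_Df (sol.mc τ hτ) h) _ _)
    linarith [hnb τ]
  have hPb : ∀ τ, 0 ≤ τ → ∫ x in (5 - h)..5, Df h (b τ) x ^ 2 ≤ h ^ 2 * e τ := by
    intro τ hτ
    rw [he2]
    have := intervalIntegral.integral_mono_interval (f := fun x => Df h (b τ) x ^ 2)
      (μ := volume) (c := 4.6) (a := 5 - h) (b := 5) (d := 5.4 - 2 * h)
      (by norm_num; linarith) (by linarith) (by norm_num; linarith)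
      (ae_of_all _ fun x => sq_nonneg _) (con_ii (con_memLp_Df (sol.mb τ hτ) h) _ _)
    linarith [hnc τ]
  -- the first estimate
  have E1 : ∀ τ, 0 ≤ τ → |∫ x, c τ x * con_v h x| ≤ h * e τ / (2 * s) + s / 2 := by
    intro τ hτ
    refine (con_P1 (sol.mc τ hτ) hh hs).trans ?_
    have h1 : (∫ x in (5 - h)..5, Df h (c τ) x ^ 2) / (2 * s) ≤ h ^ 2 * e τ / (2 * s) :=
      div_le_div_of_nonneg_right (hPc τ hτ) (by positivity)
    refine (mul_le_mul_of_nonneg_left (add_le_add h1 le_rfl) hi.le).trans (le_of_eq ?_)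
    field_simp
  have E2 : ∀ τ ∈ Icc 0 h, |∫ x, w τ x * b τ x * deriv (con_v h) x| ≤
      C * M * e τ / (2 * s) + (C * M * s / 2 + 2 * C * s) * h⁻¹ := by
    intro τ hτ
    refine (con_P2 (sol.cw τ hτ.1) (sol.mb τ hτ.1) (sol.ftc τ hτ.1) hh (by linarith) hs
      (hM τ hτ) hC hC' (hη τ hτ)).trans ?_
    have h1 : (∫ x in (5 - h)..5, Df h (b τ) x ^ 2) / (2 * s) ≤ h ^ 2 * e τ / (2 * s) :=
      div_le_div_of_nonneg_right (hPb τ hτ.1) (by positivity)
    rw [hss]
    have h2 : M * ((∫ x in (5 - h)..5, Df h (b τ) x ^ 2) / (2 * s) + s * h / 2) + 2 * h * s ≤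
        M * (h ^ 2 * e τ / (2 * s) + s * h / 2) + 2 * h * s :=
      add_le_add (mul_le_mul_of_nonneg_left (add_le_add h1 le_rfl) hM0) le_rfl
    refine (mul_le_mul_of_nonneg_left (mul_le_mul_of_nonneg_left h2 (mul_nonneg hi.le hC))
      hi.le).trans (le_of_eq ?_)
    field_simp
    ring
  set al := (5 * h + C * M) / (2 * s) with hal
  set be := 5 * s / 2 + (C * M * s / 2 + 2 * C * s) * h⁻¹ + 2 * (2 * M ^ 2 + 6 * M) with hbe
  have hal0 : 0 ≤ al := by positivity
  have hbe0 : 0 ≤ be := by positivity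
  have EG : ∀ τ ∈ Icc 0 h, |-5 * (∫ x, c τ x * con_v h x) -
      (∫ x, w τ x * b τ x * deriv (con_v h) x) +
      ∫ x, (2 * w τ x ^ 2 - 6 * w τ x) * con_v h x| ≤ al * e τ + be := by
    intro τ hτ
    have h1 := E1 τ hτ.1
    have h2 := E2 τ hτ
    have h3 := con_P3 hh (hM τ hτ)
    have h4 : al * e τ + be = 5 * (h * e τ / (2 * s) + s / 2) +
        (C * M * e τ / (2 * s) + (C * M * s / 2 + 2 * C * s) * h⁻¹) +
        2 * (2 * M ^ 2 + 6 * M) := by
      rw [hal, hbe]
      ring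
    rw [h4]
    rw [abs_le] at h1 h2 h3 ⊢
    constructor <;> linarith [h1.1, h1.2, h2.1, h2.2, h3.1, h3.2]
  have hE : IntervalIntegrable (fun τ => al * e τ + be) volume 0 h :=
    ((hei h hh.le).const_mul _).add intervalIntegrable_const
  set I := ∫ τ in (0 : ℝ)..h, e τ with hI
  have hEv : ∫ τ in (0 : ℝ)..h, (al * e τ + be) = al * I + be * h := by
    rw [intervalIntegral.integral_add ((hei h hh.le).const_mul _) intervalIntegrable_const,
      intervalIntegral.integral_const_mul, intervalIntegral.integral_const, smul_eq_mul, sub_zero,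
      mul_comm be h]
  have key : ∀ t ∈ Icc 0 h, κ * ∫ x, con_k x ≤
      h * e t / (2 * s) + (s / 2 + (al * I + be * h)) := by
    intro t ht
    have h1 := sol.eq2 (con_v h) (con_v_contDiff h) (con_v_cs hh) 0 t le_rfl ht.1
    rw [con_E0 hh (by linarith) ini.2.2.2] at h1
    have h2 := intervalIntegral.norm_integral_le_of_norm_le (μ := volume) (a := 0) (b := t)
      (f := fun τ => -5 * (∫ x, c τ x * con_v h x) -
      (∫ x, w τ x * b τ x * deriv (con_v h) x) +
      ∫ x, (2 * w τ x ^ 2 - 6 * w τ x) * con_v h x) (g := fun τ => al * e τ + be) ht.1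
      (ae_of_all _ fun τ hτ => by
        rw [Real.norm_eq_abs]
        exact EG τ ⟨hτ.1.le, hτ.2.trans ht.2⟩)
      (((hei t ht.1).const_mul _).add intervalIntegrable_const)
    have h3 : ∫ τ in (0 : ℝ)..t, (al * e τ + be) ≤ ∫ τ in (0 : ℝ)..h, (al * e τ + be) :=
      intervalIntegral.integral_mono_interval le_rfl ht.1 ht.2
        (ae_of_all _ fun x => add_nonneg (mul_nonneg hal0 (he0 x)) hbe0) hE
    rw [hEv] at h3
    rw [Real.norm_eq_abs, ← h1, abs_le] at h2
    have h4 := E1 t ht.1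
    rw [abs_le] at h4
    linarith [h2.1, h4.2]
  -- average over `t`
  have hav : ∫ t in (0 : ℝ)..h, (κ * ∫ x, con_k x) ≤
      ∫ t in (0 : ℝ)..h, (h / (2 * s) * e t + (s / 2 + (al * I + be * h))) := by
    refine intervalIntegral.integral_mono_on hh.le intervalIntegrable_const
      (((hei h hh.le).const_mul _).add intervalIntegrable_const) fun t ht => ?_
    refine (key t ht).trans (le_of_eq ?_)
    ring
  rw [intervalIntegral.integral_const, smul_eq_mul, sub_zero,
    intervalIntegral.integral_add ((hei h hh.le).const_mul _) intervalIntegrable_const,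
    intervalIntegral.integral_const_mul, intervalIntegral.integral_const, smul_eq_mul, sub_zero,
    ← hI] at hav
  have hav2 : h * (κ * ∫ x, con_k x) ≤ h * (1 / (2 * s) * I + (s / 2 + (al * I + be * h))) := by
    refine hav.trans (le_of_eq ?_)
    ring
  have hav3 := le_of_mul_le_mul_left hav2 hh
  refine hav3.trans (le_of_eq ?_)
  have : be * h = (C * M * s / 2 + 2 * C * s) + (5 * s / 2 + 2 * (2 * M ^ 2 + 6 * M)) * h := by
    rw [hbe]
    field_simp
    ring
  rw [this]
  ring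

/-- Job CW-CON. -/
theorem con1 (h1 : S_SUP) (_h2 : S_H1T) (h3 : S_AC) : S_CON := by
  intro w b c sol δ κ ini
  obtain ⟨M, hM⟩ := (h1 w b c sol).1 1 zero_le_one
  obtain ⟨C, hC, hC'⟩ := con_dk_bd
  have hac := h3 w b c sol δ κ ini
  have I0 : 0 < ∫ x, con_k x := con_k.integral_pos
  have hhj : Tendsto (fun j : ℕ => ((1 : ℝ) / 2) ^ j) atTop (𝓝 0) :=
    tendsto_pow_atTop_nhds_zero_of_lt_one (by norm_num) (by norm_num)
  have key : ∀ s : ℝ, 0 < s → κ * ∫ x, con_k x ≤ s / 2 + C * M * s / 2 + 2 * C * s := by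
    intro s hs
    obtain ⟨t, ht, ht2⟩ := (h1 w b c sol).2 δ κ ini (Real.sqrt s) (Real.sqrt_pos.2 hs)
    have hlim : Tendsto (fun j : ℕ => (1 / (2 * s) + (5 * (1 / 2) ^ j + C * M) / (2 * s)) *
        (∫ τ in (0 : ℝ)..(1 / 2) ^ j, 4 ^ j *
          ((∫ x in (4.6 : ℝ)..(5.4 - 2 * (1 / 2) ^ j), Df ((1 / 2) ^ j) (c τ) x ^ 2) +
          ∫ x in (4.6 : ℝ)..(5.4 - 2 * (1 / 2) ^ j), Df ((1 / 2) ^ j) (b τ) x ^ 2)) +
        (s / 2 + C * M * s / 2 + 2 * C * s) + (5 * s / 2 + 2 * (2 * M ^ 2 + 6 * M)) *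
          (1 / 2) ^ j) atTop (𝓝 (s / 2 + C * M * s / 2 + 2 * C * s)) := by
      have l1 : Tendsto (fun j : ℕ => 1 / (2 * s) + (5 * (1 / 2) ^ j + C * M) / (2 * s)) atTop
          (𝓝 (1 / (2 * s) + (5 * 0 + C * M) / (2 * s))) :=
        (((hhj.const_mul 5).add_const (C * M)).div_const (2 * s)).const_add _
      have l2 := ((l1.mul hac).add_const (s / 2 + C * M * s / 2 + 2 * C * s)).add
        (hhj.const_mul (5 * s / 2 + 2 * (2 * M ^ 2 + 6 * M)))
      simpa only [mul_zero, zero_add, add_zero] using l2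
    refine ge_of_tendsto hlim ?_
    have ev1 : ∀ᶠ j : ℕ in atTop, ((1 : ℝ) / 2) ^ j < min t (1 / 5) :=
      hhj.eventually (gt_mem_nhds (lt_min ht (by norm_num)))
    filter_upwards [ev1] with j hj
    have hj1 : ((1 : ℝ) / 2) ^ j ≤ t := (hj.trans_le (min_le_left _ _)).le
    have hj2 : ((1 : ℝ) / 2) ^ j ≤ 1 / 5 := (hj.trans_le (min_le_right _ _)).le
    exact con_step sol ini (by positivity) hj2 (by
        rw [← pow_mul, mul_comm j 2, pow_mul, ← mul_pow]
        norm_num) hs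
      (fun τ hτ => (hM τ ⟨hτ.1, hτ.2.trans (hj2.trans (by norm_num))⟩).1) hC hC'
      (fun τ hτ => (ht2 τ ⟨hτ.1, hτ.2.trans hj1⟩).2)
  have hM0 : 0 ≤ M := (abs_nonneg _).trans ((hM 0 ⟨le_rfl, zero_le_one⟩).1 0)
  have hκ : 0 < κ * ∫ x, con_k x := mul_pos ini.2.1 I0
  have hD : 0 < 1 / 2 + C * M / 2 + 2 * C := by positivity
  have h4 := key (κ * (∫ x, con_k x) / (2 * (1 / 2 + C * M / 2 + 2 * C)))
    (div_pos hκ (by positivity))
  have h5 : ∀ s : ℝ, s / 2 + C * M * s / 2 + 2 * C * s = (1 / 2 + C * M / 2 + 2 * C) * s :=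
    fun s => by ring
  rw [h5] at h4
  have h6 : (1 / 2 + C * M / 2 + 2 * C) *
      (κ * (∫ x, con_k x) / (2 * (1 / 2 + C * M / 2 + 2 * C))) = κ * (∫ x, con_k x) / 2 := by
    field_simp
  rw [h6] at h4
  linarith

end Pool.Agent.Q82.CW
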