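import Mathlib

set_option autoImplicit false

/-!
# Triangle-free 4-critical graphs have edge density bounded away from 1/4

Let `G` be a triangle-free graph with nearly `n ^ 2 / 4` edges.  It contains a nearly complete
bipartite core `(A, B)` with a small rest `R`.  If `G` is 4-critical, then for every core edge `ab`
there is a vertex `r` of `R` adjacent to `a` such that `a` is the only common neighbour of `r` and `b`
in `A`.  Hence the core has at most `|R| |B|` edges, a contradiction.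
-/

open Finset

namespace Pool.Agent.Q285.CritFour

set_option linter.unusedSectionVars false

variable {V : Type*} [Fintype V] [DecidableEq V]

theorem private_nbr (G : SimpleGraph V) (h3 : ¬ G.Colorable 3)
    (hc : ∀ e ∈ G.edgeSet, (G.deleteEdges {e}).Colorable 3)
    (A B : Finset V) (hA : ∀ x ∈ A, ∀ y ∈ A, ¬ G.Adj x y)
    (hcB : ∀ a₁ ∈ A, ∀ a₂ ∈ A, ∀ a₃ ∈ A, ∀ b, ∃ b' ∈ B, b' ≠ b ∧ G.Adj a₁ b' ∧ G.Adj a₂ b'
      ∧ G.Adj a₃ b')
    (hcA : ∀ b₁ ∈ B, ∀ b₂ ∈ B, ∀ a, ∃ a' ∈ A, a' ≠ a ∧ G.Adj b₁ a' ∧ G.Adj b₂ a')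
    (a b : V) (ha : a ∈ A) (hb : b ∈ B) (hab : G.Adj a b) :
    ∃ r, r ∉ A ∧ r ∉ B ∧ G.Adj a r ∧ ∀ a' ∈ A, G.Adj a' r → G.Adj a' b → a' = a := by
  obtain ⟨φ⟩ := hc s(a, b) ((SimpleGraph.mem_edgeSet G).2 hab)
  have hφ : ∀ x y, G.Adj x y → s(x, y) ≠ s(a, b) → φ x ≠ φ y := by
    intro x y hxy hne
    apply φ.valid
    rw [SimpleGraph.deleteEdges_adj]
    exact ⟨hxy, by simpa using hne⟩
  have hEq : φ a = φ b := by
    by_contra hne
    apply h3
    refine ⟨SimpleGraph.Coloring.mk φ ?_⟩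
    intro x y hxy
    by_cases h : s(x, y) = s(a, b)
    · rw [Sym2.eq_iff] at h
      rcases h with ⟨rfl, rfl⟩ | ⟨rfl, rfl⟩
      · exact hne
      · exact Ne.symm hne
    · exact hφ x y hxy h
  -- neighbours of b other than a
  have h1 : ∀ x, G.Adj x b → x ≠ a → φ x ≠ φ a := by
    intro x hx hxa
    rw [hEq]
    apply hφ x b hx
    rw [Ne, Sym2.eq_iff]
    rintro (⟨h, -⟩ | ⟨-, h⟩)
    · exact hxa h
    · exact hab.ne h.symm
  have h2 : ∀ x, G.Adj a x → x ≠ b → φ x ≠ φ a := by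
    intro x hx hxb
    apply Ne.symm
    apply hφ a x hx
    rw [Ne, Sym2.eq_iff]
    rintro (⟨-, h⟩ | ⟨h, -⟩)
    · exact hxb h
    · exact hab.ne h
  -- monochromatic
  obtain ⟨a₂, ha₂, ha₂a, hba₂, -⟩ := hcA b hb b hb a
  have hmono : ∀ a' ∈ A, G.Adj a' b → a' ≠ a → φ a' = φ a₂ := by
    intro a' ha' hab' hne
    by_contra hcol
    obtain ⟨b', hb', hbb', e1, e2, e3⟩ := hcB a ha a₂ ha₂ a' ha' b
    have n1 := h2 b' e1 hbb'
    have n2 : φ a₂ ≠ φ b' := by
      apply hφ a₂ b' e2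
      rw [Ne, Sym2.eq_iff]
      rintro (⟨h, -⟩ | ⟨h, -⟩)
      · exact ha₂a h
      · exact hA a ha a₂ ha₂ (h ▸ hab)
    have n3 : φ a' ≠ φ b' := by
      apply hφ a' b' e3
      rw [Ne, Sym2.eq_iff]
      rintro (⟨h, -⟩ | ⟨h, -⟩)
      · exact hne h
      · exact hA a ha a' ha' (h ▸ hab)
    have n4 := h1 a₂ hba₂.symm ha₂a
    have n5 := h1 a' hab' hne
    revert hcol n1 n2 n3 n4 n5
    generalize φ a = x
    generalize φ a₂ = y
    generalize φ a' = z
    generalize φ b' = w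
    revert x y z w
    decide
  have hcol2 := h1 a₂ hba₂.symm ha₂a
  -- a sees the colour of a₂
  have h4 : ∃ r, G.Adj a r ∧ r ≠ b ∧ φ r = φ a₂ := by
    by_contra hno
    push Not at hno
    apply h3
    refine ⟨SimpleGraph.Coloring.mk (fun x => if x = a then φ a₂ else φ x) ?_⟩
    intro x y hxy
    by_cases hxa : x = a
    · subst hxa
      have hya : y ≠ x := hxy.ne'
      simp only [if_true, if_neg hya]
      by_cases hyb : y = b
      · subst hyb
        rw [← hEq]
        exact hcol2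
      · exact (hno y hxy hyb).symm
    · by_cases hya : y = a
      · subst hya
        simp only [if_true, if_neg hxa]
        by_cases hxb : x = b
        · subst hxb
          rw [← hEq]
          exact hcol2.symm
        · exact hno x hxy.symm hxb
      · simp only [if_neg hxa, if_neg hya]
        apply hφ x y hxy
        rw [Ne, Sym2.eq_iff]
        rintro (⟨h, -⟩ | ⟨-, h⟩)
        · exact hxa h
        · exact hya h
  obtain ⟨r, har, hrb, hr⟩ := h4
  have key : ∀ a' ∈ A, G.Adj a' r → G.Adj a' b → a' = a := by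
    intro a' ha' har' hab'
    by_contra hne
    have n1 := hmono a' ha' hab' hne
    have n2 : φ a' ≠ φ r := by
      apply hφ a' r har'
      rw [Ne, Sym2.eq_iff]
      rintro (⟨h, -⟩ | ⟨h, -⟩)
      · exact hne h
      · exact hA a ha a' ha' (h ▸ hab)
    exact n2 (n1.trans hr.symm)
  refine ⟨r, fun h => hA a ha r h har, ?_, har, key⟩
  intro hrB
  obtain ⟨a', ha', hne, e1, e2⟩ := hcA b hb r hrB a
  exact hne (key a' ha' e2.symm e1.symm)

theorem core_le (G : SimpleGraph V) [DecidableRel G.Adj] (h3 : ¬ G.Colorable 3)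
    (hc : ∀ e ∈ G.edgeSet, (G.deleteEdges {e}).Colorable 3)
    (A B : Finset V) (hA : ∀ x ∈ A, ∀ y ∈ A, ¬ G.Adj x y)
    (hcB : ∀ a₁ ∈ A, ∀ a₂ ∈ A, ∀ a₃ ∈ A, ∀ b, ∃ b' ∈ B, b' ≠ b ∧ G.Adj a₁ b' ∧ G.Adj a₂ b'
      ∧ G.Adj a₃ b')
    (hcA : ∀ b₁ ∈ B, ∀ b₂ ∈ B, ∀ a, ∃ a' ∈ A, a' ≠ a ∧ G.Adj b₁ a' ∧ G.Adj b₂ a') :
    ((A ×ˢ B).filter (fun p => G.Adj p.1 p.2)).card ≤ ((A ∪ B)ᶜ).card * B.card := by
  have h : ∀ p : V × V, ∃ r : V, (p.1 ∈ A → p.2 ∈ B → G.Adj p.1 p.2 →
      r ∉ A ∧ r ∉ B ∧ G.Adj p.1 r ∧ ∀ a' ∈ A, G.Adj a' r → G.Adj a' p.2 → a' = p.1) := by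
    intro p
    by_cases hp : p.1 ∈ A ∧ p.2 ∈ B ∧ G.Adj p.1 p.2
    · obtain ⟨r, hr⟩ := private_nbr G h3 hc A B hA hcB hcA p.1 p.2 hp.1 hp.2.1 hp.2.2
      exact ⟨r, fun _ _ _ => hr⟩
    · exact ⟨p.1, fun h1 h2 h4 => absurd ⟨h1, h2, h4⟩ hp⟩
  choose f hf using h
  have hf1 := fun p h1 h2 h4 => (hf p h1 h2 h4).1
  have hf2 := fun p h1 h2 h4 => (hf p h1 h2 h4).2.1
  have hf3 := fun p h1 h2 h4 => (hf p h1 h2 h4).2.2.1
  have hf4 := fun p h1 h2 h4 => (hf p h1 h2 h4).2.2.2
  rw [← card_product]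
  apply card_le_card_of_injOn (fun p => (f p, p.2))
  · intro p hp
    simp only [coe_filter, mem_product, Set.mem_ofPred_eq] at hp
    simp only [coe_product, Set.mem_prod, mem_coe, mem_compl, mem_union, not_or]
    exact ⟨⟨hf1 p hp.1.1 hp.1.2 hp.2, hf2 p hp.1.1 hp.1.2 hp.2⟩, hp.1.2⟩
  · intro p hp q hq hpq
    simp only [coe_filter, mem_product, Set.mem_ofPred_eq] at hp hq
    simp only [Prod.mk.injEq] at hpq
    have := hf4 q hq.1.1 hq.1.2 hq.2 p.1 hp.1.1
      (by rw [← hpq.1]; exact hf3 p hp.1.1 hp.1.2 hp.2) (by rw [← hpq.2]; exact hp.2)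
    exact Prod.ext this hpq.2

/-- An edge with large degree sum. -/
theorem exists_edge (G : SimpleGraph V) [DecidableRel G.Adj] (he : 0 < G.edgeFinset.card) :
    ∃ u v, G.Adj u v ∧
      4 * G.edgeFinset.card ≤ Fintype.card V * (G.degree u + G.degree v) := by
  by_contra hno
  push Not at hno
  set e := G.edgeFinset.card with hedef
  set n := Fintype.card V with hn
  have hsum : ∑ v, G.degree v = 2 * e := G.sum_degrees_eq_twice_card_edges
  -- Cauchy
  have hcs : (∑ v, G.degree v) ^ 2 ≤ n * ∑ v, (G.degree v) ^ 2 := by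
    have := sq_sum_le_card_mul_sum_sq (s := (univ : Finset V)) (f := fun v => (G.degree v))
    simpa [hn] using this
  have hd : ∀ v, G.degree v = ∑ w, if G.Adj v w then 1 else 0 := by
    intro v
    rw [← G.card_neighborFinset_eq_degree, G.neighborFinset_eq_filter, card_filter]
  have h1 : ∑ v, (G.degree v) ^ 2 = ∑ v, ∑ w, if G.Adj v w then G.degree v else 0 := by
    apply sum_congr rfl
    intro v _
    rw [sq]
    nth_rewrite 2 [hd v]
    rw [mul_sum]
    apply sum_congr rfl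
    intro w _
    split_ifs <;> simp
  have h2 : ∑ v, (G.degree v) ^ 2 = ∑ v, ∑ w, if G.Adj v w then G.degree w else 0 := by
    rw [h1, sum_comm]
    apply sum_congr rfl
    intro v _
    apply sum_congr rfl
    intro w _
    simp [G.adj_comm v w]
  have h3 : 2 * (n * ∑ v, (G.degree v) ^ 2)
      = ∑ v, ∑ w, if G.Adj v w then n * (G.degree v + G.degree w) else 0 := by
    rw [mul_left_comm, two_mul]
    nth_rewrite 1 [h1]
    rw [h2, ← sum_add_distrib, mul_sum]
    apply sum_congr rfl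
    intro v _
    rw [← sum_add_distrib, mul_sum]
    apply sum_congr rfl
    intro w _
    split_ifs <;> simp
  have h4 : (∑ v, ∑ w, if G.Adj v w then n * (G.degree v + G.degree w) else 0)
      + (∑ v, ∑ w, if G.Adj v w then 1 else 0) ≤ ∑ v, ∑ w, if G.Adj v w then 4 * e else 0 := by
    rw [← sum_add_distrib]
    apply sum_le_sum
    intro v _
    rw [← sum_add_distrib]
    apply sum_le_sum
    intro w _
    split_ifs with h
    · exact hno v w h
    · simp
  have h5 : (∑ v, ∑ w, if G.Adj v w then 1 else 0) = 2 * e := by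
    rw [← hsum]
    apply sum_congr rfl
    intro v _
    rw [hd v]
  have h6 : (∑ v, ∑ w, if G.Adj v w then 4 * e else 0) = 2 * e * (4 * e) := by
    rw [← h5, sum_mul]
    apply sum_congr rfl
    intro v _
    rw [sum_mul]
    apply sum_congr rfl
    intro w _
    split_ifs <;> simp
  rw [h6, h5, ← h3] at h4
  rw [hsum] at hcs
  nlinarith

/-- Edge count for two disjoint independent sets. -/
theorem edge_le (G : SimpleGraph V) [DecidableRel G.Adj] (A B : Finset V)
    (hA : ∀ x ∈ A, ∀ y ∈ A, ¬ G.Adj x y) (hB : ∀ x ∈ B, ∀ y ∈ B, ¬ G.Adj x y) :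
    G.edgeFinset.card ≤ ((A ×ˢ B).filter (fun p => G.Adj p.1 p.2)).card
      + ((A ∪ B)ᶜ).card * Fintype.card V := by
  have hE : (univ.filter (fun p : V × V => G.Adj p.1 p.2)).card = 2 * G.edgeFinset.card := by
    rw [← G.sum_degrees_eq_twice_card_edges, card_filter, Fintype.sum_prod_type]
    apply sum_congr rfl
    intro v _
    rw [← G.card_neighborFinset_eq_degree, G.neighborFinset_eq_filter, card_filter]
  have hsub : univ.filter (fun p : V × V => G.Adj p.1 p.2)
      ⊆ (((A ×ˢ B).filter (fun p => G.Adj p.1 p.2))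
        ∪ ((B ×ˢ A).filter (fun p => G.Adj p.1 p.2)))
        ∪ (((A ∪ B)ᶜ ×ˢ univ) ∪ (univ ×ˢ (A ∪ B)ᶜ)) := by
    rintro ⟨x, y⟩ h
    simp only [mem_filter, mem_univ, true_and] at h
    simp only [mem_union, mem_filter, mem_product, mem_compl, mem_univ, and_true, true_and, h]
    have h1 := hA x
    have h2 := hB x
    by_cases xA : x ∈ A <;> by_cases xB : x ∈ B <;> by_cases yA : y ∈ A <;> by_cases yB : y ∈ B <;>
      simp_all
  have h1 := card_le_card hsub
  have h2 := card_union_le (((A ×ˢ B).filter (fun p => G.Adj p.1 p.2))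
        ∪ ((B ×ˢ A).filter (fun p => G.Adj p.1 p.2)))
        (((A ∪ B)ᶜ ×ˢ (univ : Finset V)) ∪ ((univ : Finset V) ×ˢ (A ∪ B)ᶜ))
  have h3 := card_union_le ((A ×ˢ B).filter (fun p => G.Adj p.1 p.2))
        ((B ×ˢ A).filter (fun p => G.Adj p.1 p.2))
  have h4 := card_union_le ((A ∪ B)ᶜ ×ˢ (univ : Finset V)) ((univ : Finset V) ×ˢ (A ∪ B)ᶜ)
  have h5 : ((B ×ˢ A).filter (fun p => G.Adj p.1 p.2)).card
      = ((A ×ˢ B).filter (fun p => G.Adj p.1 p.2)).card := by
    refine card_bij' (fun p _ => (p.2, p.1)) (fun p _ => (p.2, p.1)) ?_ ?_ ?_ ?_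
    · rintro ⟨x, y⟩ h
      simp only [mem_filter, mem_product] at h ⊢
      exact ⟨⟨h.1.2, h.1.1⟩, h.2.symm⟩
    · rintro ⟨x, y⟩ h
      simp only [mem_filter, mem_product] at h ⊢
      exact ⟨⟨h.1.2, h.1.1⟩, h.2.symm⟩
    · rintro ⟨x, y⟩ _; rfl
    · rintro ⟨x, y⟩ _; rfl
  rw [card_product, card_product, card_univ] at h4
  rw [hE] at h1
  rw [h5] at h3
  nlinarith

/-- A vertex-set version of the union bound. -/
theorem exists_good (B : Finset V) (S : Finset V) (b : V) (h : S.card + 1 < B.card) :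
    ∃ b' ∈ B, b' ≠ b ∧ b' ∉ S := by
  by_contra hno
  push Not at hno
  have : B ⊆ insert b S := by
    intro x hx
    rw [mem_insert]
    by_cases hxb : x = b
    · exact Or.inl hxb
    · exact Or.inr (hno x hx hxb)
  have h1 := card_le_card this
  have h2 := card_insert_le b S
  omega

/-- The numerical part. -/
theorem numeric (n x y a b E m₀ M : ℝ) (hn : 100 ≤ n) (hlt : 499 / 2000 * n ^ 2 < E)
    (h0 : E ≤ m₀ + (n - (x + y)) * n) (hA : (x - a) * n ≤ 20 * M) (hB : (y - b) * n ≤ 20 * M)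
    (hM : m₀ + M = x * y) (hM0 : 0 ≤ M) (hdeg : 4 * E ≤ n * (x + y)) (hxy : x + y ≤ n) (hx : 0 ≤ x)
    (hy : 0 ≤ y) : 3 * n + 20 < 20 * b ∧ 3 * n + 20 < 20 * a ∧ 2 * (n - (a + b)) * n < E := by
  have hnpos : 0 < n := by linarith
  have k1 : 499 / 500 * n < x + y := by
    by_contra hcon
    push Not at hcon
    have : n * (x + y) ≤ n * (499 / 500 * n) := mul_le_mul_of_nonneg_left hcon hnpos.le
    nlinarith
  have k0 : (n - (x + y)) * n ≤ (1 / 500 * n) * n :=
    mul_le_mul_of_nonneg_right (by linarith) hnpos.le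
  have hm : 99 / 400 * n ^ 2 ≤ m₀ := by nlinarith
  have hxy' : x * y ≤ n ^ 2 / 4 := by nlinarith [sq_nonneg (x - y)]
  have k2 : M ≤ 1 / 400 * n ^ 2 := by linarith
  have k3 : (x - a) ≤ 1 / 20 * n := by
    by_contra hcon
    push Not at hcon
    have : (1 / 20 * n) * n < (x - a) * n := mul_lt_mul_of_pos_right hcon hnpos
    nlinarith
  have k4 : (y - b) ≤ 1 / 20 * n := by
    by_contra hcon
    push Not at hcon
    have : (1 / 20 * n) * n < (y - b) * n := mul_lt_mul_of_pos_right hcon hnpos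
    nlinarith
  have hMx : 99 / 400 * n ^ 2 ≤ x * y := by linarith
  have k5 : 99 / 400 * n ≤ x := by
    by_contra hcon
    push Not at hcon
    have h1 : x * y ≤ x * n := mul_le_mul_of_nonneg_left (by linarith) hx
    have h2 : x * n < (99 / 400 * n) * n := mul_lt_mul_of_pos_right hcon hnpos
    nlinarith
  have k6 : 99 / 400 * n ≤ y := by
    by_contra hcon
    push Not at hcon
    have h1 : x * y ≤ n * y := mul_le_mul_of_nonneg_right (by linarith) hy
    have h2 : y * n < (99 / 400 * n) * n := mul_lt_mul_of_pos_right hcon hnpos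
    nlinarith
  refine ⟨by linarith, by linarith, ?_⟩
  have k7 : n - (a + b) ≤ 51 / 500 * n := by linarith
  have k8 : (n - (a + b)) * n ≤ (51 / 500 * n) * n := mul_le_mul_of_nonneg_right k7 hnpos.le
  nlinarith

theorem main_bound (G : SimpleGraph V) [DecidableRel G.Adj] (htf : G.CliqueFree 3)
    (h3 : ¬ G.Colorable 3) (hc : ∀ e ∈ G.edgeSet, (G.deleteEdges {e}).Colorable 3)
    (hn : 100 ≤ Fintype.card V) :
    (G.edgeFinset.card : ℝ) ≤ 499 / 2000 * (Fintype.card V : ℝ) ^ 2 := by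
  by_contra hlt
  push Not at hlt
  have htri : ∀ x y z, G.Adj x y → G.Adj x z → G.Adj y z → False := by
    intro x y z h1 h2 h3
    exact htf {x, y, z} (SimpleGraph.is3Clique_triple_iff.2 ⟨h1, h2, h3⟩)
  set n := Fintype.card V with hndef
  have hnR : (100 : ℝ) ≤ n := by exact_mod_cast hn
  have he0 : 0 < G.edgeFinset.card := by
    have : (0 : ℝ) < G.edgeFinset.card := by nlinarith
    exact_mod_cast this
  obtain ⟨u, v, huv, hdeg⟩ := exists_edge G he0
  set A₀ := G.neighborFinset u with hA₀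
  set B₀ := G.neighborFinset v with hB₀
  have iA₀ : ∀ x ∈ A₀, ∀ y ∈ A₀, ¬ G.Adj x y := by
    intro x hx y hy hxy
    rw [hA₀, SimpleGraph.mem_neighborFinset] at hx hy
    exact htri u x y hx hy hxy
  have iB₀ : ∀ x ∈ B₀, ∀ y ∈ B₀, ¬ G.Adj x y := by
    intro x hx y hy hxy
    rw [hB₀, SimpleGraph.mem_neighborFinset] at hx hy
    exact htri v x y hx hy hxy
  have hdis : Disjoint A₀ B₀ := by
    rw [Finset.disjoint_left]
    intro x hx hy
    rw [hA₀, SimpleGraph.mem_neighborFinset] at hx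
    rw [hB₀, SimpleGraph.mem_neighborFinset] at hy
    exact htri u v x huv hx hy
  set mA : V → ℕ := fun a => (B₀.filter (fun b => ¬ G.Adj a b)).card with hmA
  set mB : V → ℕ := fun b => (A₀.filter (fun a => ¬ G.Adj a b)).card with hmB
  set A := A₀.filter (fun a => 20 * mA a < n) with hA
  set B := B₀.filter (fun b => 20 * mB b < n) with hB
  have iA : ∀ x ∈ A, ∀ y ∈ A, ¬ G.Adj x y :=
    fun x hx y hy => iA₀ x (mem_filter.1 hx).1 y (mem_filter.1 hy).1
  have iB : ∀ x ∈ B, ∀ y ∈ B, ¬ G.Adj x y :=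
    fun x hx y hy => iB₀ x (mem_filter.1 hx).1 y (mem_filter.1 hy).1
  set M := ((A₀ ×ˢ B₀).filter (fun p => ¬ G.Adj p.1 p.2)).card with hM
  set m₀ := ((A₀ ×ˢ B₀).filter (fun p => G.Adj p.1 p.2)).card with hm₀
  have hMm : m₀ + M = A₀.card * B₀.card := by
    rw [hm₀, hM, ← card_product]
    exact card_filter_add_card_filter_not _
  have hMA : M = ∑ a ∈ A₀, mA a := by
    rw [hM, card_filter, sum_product]
    apply sum_congr rfl
    intro a _
    rw [hmA]
    simp only [card_filter]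
  have hMB : M = ∑ b ∈ B₀, mB b := by
    rw [hM, card_filter, sum_product_right]
    apply sum_congr rfl
    intro a _
    rw [hmB]
    simp only [card_filter]
  have hAM : (A₀.card - A.card) * n ≤ 20 * M := by
    rw [hMA, mul_sum]
    have h1 : (A₀.filter (fun a => ¬ 20 * mA a < n)).card = A₀.card - A.card := by
      have := card_filter_add_card_filter_not (s := A₀) (fun a => 20 * mA a < n)
      rw [← hA] at this
      omega
    rw [← h1, ← smul_eq_mul]
    refine le_trans (card_nsmul_le_sum (A₀.filter (fun a => ¬ 20 * mA a < n))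
      (fun a => 20 * mA a) n ?_) ?_
    · intro a ha
      have := (mem_filter.1 ha).2
      simp only [not_lt] at this
      exact this
    · exact sum_le_sum_of_subset (filter_subset _ _)
  have hBM : (B₀.card - B.card) * n ≤ 20 * M := by
    rw [hMB, mul_sum]
    have h1 : (B₀.filter (fun a => ¬ 20 * mB a < n)).card = B₀.card - B.card := by
      have := card_filter_add_card_filter_not (s := B₀) (fun a => 20 * mB a < n)
      rw [← hB] at this
      omega
    rw [← h1, ← smul_eq_mul]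
    refine le_trans (card_nsmul_le_sum (B₀.filter (fun a => ¬ 20 * mB a < n))
      (fun a => 20 * mB a) n ?_) ?_
    · intro a ha
      have := (mem_filter.1 ha).2
      simp only [not_lt] at this
      exact this
    · exact sum_le_sum_of_subset (filter_subset _ _)
  have hE0 := edge_le G A₀ B₀ iA₀ iB₀
  have hE1 := edge_le G A B iA iB
  have hAs : A.card ≤ A₀.card := card_filter_le _ _
  have hBs : B.card ≤ B₀.card := card_filter_le _ _
  have hR0 : ((A₀ ∪ B₀)ᶜ).card = n - (A₀.card + B₀.card) := by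
    rw [card_compl, card_union_of_disjoint hdis]
  have hAB0 : A₀.card + B₀.card ≤ n := by
    rw [← card_union_of_disjoint hdis]
    exact card_le_univ _
  have hdis' : Disjoint A B := disjoint_of_subset_left (filter_subset _ _)
    (disjoint_of_subset_right (filter_subset _ _) hdis)
  have hR : ((A ∪ B)ᶜ).card = n - (A.card + B.card) := by
    rw [card_compl, card_union_of_disjoint hdis']
  have hdeg' : 4 * G.edgeFinset.card ≤ n * (A₀.card + B₀.card) := by
    rw [hA₀, hB₀, G.card_neighborFinset_eq_degree, G.card_neighborFinset_eq_degree]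
    exact hdeg
  rw [hR0, ← hndef] at hE0
  rw [hR, ← hndef] at hE1
  -- pass to reals
  have hE0' : (G.edgeFinset.card : ℝ) ≤ m₀ + ((n : ℝ) - (A₀.card + B₀.card)) * n := by
    have : (G.edgeFinset.card : ℝ) ≤ ((m₀ + (n - (A₀.card + B₀.card)) * n : ℕ) : ℝ) := by
      exact_mod_cast hE0
    push_cast [Nat.cast_sub hAB0] at this
    exact this
  have hAM' : ((A₀.card : ℝ) - A.card) * n ≤ 20 * M := by
    have : (((A₀.card - A.card) * n : ℕ) : ℝ) ≤ ((20 * M : ℕ) : ℝ) := by exact_mod_cast hAM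
    push_cast [Nat.cast_sub hAs] at this
    exact this
  have hBM' : ((B₀.card : ℝ) - B.card) * n ≤ 20 * M := by
    have : (((B₀.card - B.card) * n : ℕ) : ℝ) ≤ ((20 * M : ℕ) : ℝ) := by exact_mod_cast hBM
    push_cast [Nat.cast_sub hBs] at this
    exact this
  have hMm' : (m₀ : ℝ) + M = A₀.card * B₀.card := by exact_mod_cast hMm
  have hdeg'' : 4 * (G.edgeFinset.card : ℝ) ≤ n * (A₀.card + B₀.card) := by exact_mod_cast hdeg'
  have hAB0' : (A₀.card : ℝ) + B₀.card ≤ n := by exact_mod_cast hAB0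
  have hApos : (0 : ℝ) ≤ A₀.card := Nat.cast_nonneg _
  have hBpos : (0 : ℝ) ≤ B₀.card := Nat.cast_nonneg _
  have hMpos : (0 : ℝ) ≤ M := Nat.cast_nonneg _
  have hnpos : (0 : ℝ) < n := by linarith
  obtain ⟨k7', k8', k9⟩ := numeric n A₀.card B₀.card A.card B.card G.edgeFinset.card m₀ M hnR hlt
    hE0' hAM' hBM' hMm' hMpos hdeg'' hAB0' hApos hBpos
  have k7 : 3 * n + 20 < 20 * B.card := by exact_mod_cast k7'
  have k8 : 3 * n + 20 < 20 * A.card := by exact_mod_cast k8'
  have hcB : ∀ a₁ ∈ A, ∀ a₂ ∈ A, ∀ a₃ ∈ A, ∀ b, ∃ b' ∈ B, b' ≠ b ∧ G.Adj a₁ b' ∧ G.Adj a₂ b'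
      ∧ G.Adj a₃ b' := by
    intro a₁ h1 a₂ h2 a₃ h3 b
    have g1 := (mem_filter.1 h1).2
    have g2 := (mem_filter.1 h2).2
    have g3 := (mem_filter.1 h3).2
    simp only [hmA] at g1 g2 g3
    have c1 := card_union_le ((B₀.filter (fun b => ¬ G.Adj a₁ b)) ∪ (B₀.filter (fun b => ¬ G.Adj a₂ b)))
      (B₀.filter (fun b => ¬ G.Adj a₃ b))
    have c2 := card_union_le (B₀.filter (fun b => ¬ G.Adj a₁ b)) (B₀.filter (fun b => ¬ G.Adj a₂ b))
    obtain ⟨b', hb', hne, hS⟩ := exists_good B (((B₀.filter (fun b => ¬ G.Adj a₁ b)) ∪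
      (B₀.filter (fun b => ¬ G.Adj a₂ b))) ∪ (B₀.filter (fun b => ¬ G.Adj a₃ b))) b (by omega)
    have hb0 : b' ∈ B₀ := (mem_filter.1 hb').1
    simp only [mem_union, mem_filter, hb0, true_and, not_or, not_not] at hS
    exact ⟨b', hb', hne, hS.1.1, hS.1.2, hS.2⟩
  have hcA : ∀ b₁ ∈ B, ∀ b₂ ∈ B, ∀ a, ∃ a' ∈ A, a' ≠ a ∧ G.Adj b₁ a' ∧ G.Adj b₂ a' := by
    intro b₁ h1 b₂ h2 a
    have g1 := (mem_filter.1 h1).2
    have g2 := (mem_filter.1 h2).2
    simp only [hmB] at g1 g2
    have c2 := card_union_le (A₀.filter (fun a => ¬ G.Adj a b₁)) (A₀.filter (fun a => ¬ G.Adj a b₂))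
    obtain ⟨a', ha', hne, hS⟩ := exists_good A ((A₀.filter (fun a => ¬ G.Adj a b₁)) ∪
      (A₀.filter (fun a => ¬ G.Adj a b₂))) a (by omega)
    have ha0 : a' ∈ A₀ := (mem_filter.1 ha').1
    simp only [mem_union, mem_filter, ha0, true_and, not_or, not_not] at hS
    exact ⟨a', ha', hne, hS.1.symm, hS.2.symm⟩
  have hcore := core_le G h3 hc A B iA hcB hcA
  rw [hR] at hcore
  have hABn : A.card + B.card ≤ n := by omega
  have hBn : B.card ≤ n := by omega
  have f1 : (G.edgeFinset.card : ℝ) ≤ 2 * ((n : ℝ) - (A.card + B.card)) * n := by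
    have : G.edgeFinset.card ≤ 2 * (n - (A.card + B.card)) * n := by
      have h9 : (n - (A.card + B.card)) * B.card ≤ (n - (A.card + B.card)) * n :=
        Nat.mul_le_mul_left _ hBn
      calc G.edgeFinset.card ≤ _ := hE1
        _ ≤ (n - (A.card + B.card)) * B.card + (n - (A.card + B.card)) * n :=
          Nat.add_le_add_right hcore _
        _ ≤ _ := by nlinarith
    have h10 : (G.edgeFinset.card : ℝ) ≤ ((2 * (n - (A.card + B.card)) * n : ℕ) : ℝ) := by
      exact_mod_cast this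
    push_cast [Nat.cast_sub hABn] at h10
    exact h10
  linarith

end Pool.Agent.Q285.CritFour
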