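import Mathlib
import Pool.Agent.Helper805.CHS.Colour

set_option autoImplicit false

/-!
# Proper halving 2-colourings

Pair up the vertices and give the two vertices of every pair opposite colours at random; the local
lemma shows that the colouring is proper with positive probability if the degrees are at most
`c ^ n`, `c < 2`.
-/

open Finset

namespace Pool.Agent.Q285.Halving

open Pool.Agent.Helper805.CHS.LLL

theorem agree_card {T : Type} [Fintype T] [DecidableEq T] (S : Finset T) (ω₀ : T → Bool)
    (P : (T → Bool) → Prop) (hP : ∀ ω, P ω → ∀ t ∈ S, ω t = ω₀ t) :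
    cnt P * 2 ^ S.card ≤ 2 ^ Fintype.card T := by
  have h1 : (2 : ℕ) ^ S.card = (univ : Finset (S → Bool)).card := by
    rw [card_univ, Fintype.card_fun, Fintype.card_bool, Fintype.card_coe]
  have h2 : (2 : ℕ) ^ Fintype.card T = (univ : Finset (T → Bool)).card := by
    rw [card_univ, Fintype.card_fun, Fintype.card_bool]
  rw [h1, h2, cnt, ← card_product]
  apply card_le_card_of_injOn
    (fun q : (T → Bool) × (S → Bool) => fun t => if h : t ∈ S then q.2 ⟨t, h⟩ else q.1 t)
  · intro _ _
    simp
  · rintro ⟨ω, f⟩ h ⟨ω', f'⟩ h' heq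
    simp only [coe_product, Set.mem_prod, mem_coe, mem_ev, mem_univ, and_true] at h h'
    simp only at heq
    have e : ∀ t, (if h : t ∈ S then f ⟨t, h⟩ else ω t) = (if h : t ∈ S then f' ⟨t, h⟩ else ω' t) :=
      fun t => congrFun heq t
    have e1 : ω = ω' := by
      funext t
      by_cases ht : t ∈ S
      · rw [hP ω h t ht, hP ω' h' t ht]
      · have := e t
        simpa [ht] using this
    have e2 : f = f' := by
      funext ⟨t, ht⟩
      have := e t
      simpa [ht] using this
    rw [e1, e2]

theorem halving (n : ℕ) (hn : 1 ≤ n) (c : ℝ) (hc : 1 < c) (h32 : 32 * (n : ℝ) * c ^ n ≤ 2 ^ n)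
    (F : Finset (Finset ℕ)) (hF : ∀ A ∈ F, A.card = n)
    (hdeg : ∀ v : ℕ, ((F.filter (fun A => v ∈ A)).card : ℝ) ≤ c ^ n) :
    ∃ R : Finset ℕ, R ⊆ F.biUnion id ∧ R.card = (F.biUnion id).card / 2 ∧
      ∀ A ∈ F, (A ∩ R).Nonempty ∧ ¬ A ⊆ R := by
  classical
  set V := F.biUnion id with hV
  set N := V.card with hN
  let g : Fin N ≃ V := V.equivFin.symm
  let T := Fin (N / 2)
  have hlt : ∀ (t : T) (b : Bool), 2 * t.val + (if b then 0 else 1) < N := by
    intro t b
    have := t.isLt
    split_ifs <;> omega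
  let v : T → Bool → ℕ := fun t b => (g ⟨2 * t.val + (if b then 0 else 1), hlt t b⟩ : ℕ)
  have hvinj : ∀ t b t' b', v t b = v t' b' → t = t' ∧ b = b' := by
    intro t b t' b' h
    have h1 := g.injective (Subtype.ext h)
    have h2 : 2 * t.val + (if b then 0 else 1) = 2 * t'.val + (if b' then 0 else 1) :=
      congrArg Fin.val h1
    cases b <;> cases b' <;> simp at h2 ⊢
    · exact Fin.ext (by omega)
    · omega
    · omega
    · exact Fin.ext (by omega)
  have hvV : ∀ t b, v t b ∈ V := fun t b => (g _).2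
  obtain ⟨last, hlast⟩ : ∃ last : ℕ, ∀ x ∈ V, (∃ t b, x = v t b) ∨ x = last := by
    by_cases hN0 : 0 < N
    · refine ⟨(g ⟨N - 1, by omega⟩ : ℕ), ?_⟩
      intro x hx
      set i := g.symm ⟨x, hx⟩ with hi
      have hgi : g i = ⟨x, hx⟩ := by rw [hi]; simp
      by_cases h : i.val < 2 * (N / 2)
      · left
        by_cases hpar : i.val % 2 = 0
        · refine ⟨⟨i.val / 2, by omega⟩, true, ?_⟩
          show x = (g _ : ℕ)
          have : (⟨2 * (i.val / 2) + (if true = true then 0 else 1), hlt ⟨i.val / 2, by omega⟩ true⟩ : Fin N)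
              = i := by
            apply Fin.ext
            simp
            omega
          rw [this, hgi]
        · refine ⟨⟨i.val / 2, by omega⟩, false, ?_⟩
          show x = (g _ : ℕ)
          have : (⟨2 * (i.val / 2) + (if false = true then 0 else 1), hlt ⟨i.val / 2, by omega⟩ false⟩ : Fin N)
              = i := by
            apply Fin.ext
            simp
            omega
          rw [this, hgi]
      · right
        have : (⟨N - 1, by omega⟩ : Fin N) = i := by
          apply Fin.ext
          have := i.isLt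
          show N - 1 = i.val
          omega
        rw [this, hgi]
    · refine ⟨0, ?_⟩
      intro x hx
      have : V.card = 0 := by omega
      rw [card_eq_zero] at this
      rw [this] at hx
      simp at hx
  let Rd : (T → Bool) → Finset ℕ := fun ω => univ.image (fun t => v t (ω t))
  have hRd : ∀ ω x, x ∈ Rd ω ↔ ∃ t, v t (ω t) = x := by
    intro ω x
    simp [Rd]
  have hRv : ∀ ω t b, v t b ∈ Rd ω ↔ ω t = b := by
    intro ω t b
    rw [hRd]
    constructor
    · rintro ⟨t', h⟩
      obtain ⟨h1, h2⟩ := hvinj _ _ _ _ h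
      rw [← h1, h2]
    · intro h
      exact ⟨t, by rw [h]⟩
  let S : Finset ℕ → Finset T := fun A => univ.filter (fun t => v t true ∈ A ∨ v t false ∈ A)
  have hS : ∀ A t, t ∈ S A ↔ (v t true ∈ A ∨ v t false ∈ A) := by
    intro A t
    simp [S]
  have hS' : ∀ A t b, v t b ∈ A → t ∈ S A := by
    intro A t b h
    rw [hS]
    cases b
    · exact Or.inr h
    · exact Or.inl h
  have hScard : ∀ A ∈ F, (S A).card ≤ n := by
    intro A hA
    rw [← hF A hA]
    apply card_le_card_of_injOn (fun t => if v t true ∈ A then v t true else v t false)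
    · intro t ht
      have := (hS A t).1 ht
      simp only
      split_ifs with h
      · exact h
      · exact this.resolve_left h
    · intro t _ t' _ h
      simp only at h
      split_ifs at h
      · exact (hvinj _ _ _ _ h).1
      · exact (hvinj _ _ _ _ h).1
      · exact (hvinj _ _ _ _ h).1
      · exact (hvinj _ _ _ _ h).1
  let B : Finset ℕ → (T → Bool) → Prop := fun A ω => A ⊆ Rd ω ∨ Disjoint A (Rd ω)
  have hAV : ∀ A ∈ F, A ⊆ V := by
    intro A hA x hx
    rw [hV, mem_biUnion]
    exact ⟨A, hA, hx⟩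
  have hB : ∀ A ∈ F, Pool.Agent.Helper805.CHS.LLL.DependsOn (B A) (S A) := by
    intro A hA ω ω' hag h
    rcases h with h | h
    · left
      intro x hx
      obtain ⟨t, ht⟩ := (hRd ω x).1 (h hx)
      have hts : t ∈ S A := hS' A t (ω t) (by rw [ht]; exact hx)
      rw [hRd]
      exact ⟨t, by rw [← hag t hts]; exact ht⟩
    · right
      rw [Finset.disjoint_left] at h ⊢
      intro x hx hx'
      obtain ⟨t, ht⟩ := (hRd ω' x).1 hx'
      have hts : t ∈ S A := hS' A t (ω' t) (by rw [ht]; exact hx)
      apply h hx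
      rw [hRd]
      exact ⟨t, by rw [hag t hts]; exact ht⟩
  have hpow : (2 : ℝ) ^ n = 2 * 2 ^ (n - 1) := by
    obtain ⟨m, rfl⟩ : ∃ m, n = m + 1 := ⟨n - 1, by omega⟩
    simp [pow_succ, mul_comm]
  have hcnt1 : ∀ A ∈ F, cnt (fun ω => A ⊆ Rd ω) * 2 ^ (n - 1) ≤ 2 ^ Fintype.card T := by
    intro A hA
    by_cases he : ∃ ω₀, A ⊆ Rd ω₀
    · obtain ⟨ω₀, h0⟩ := he
      have hc : n - 1 ≤ (S A).card := by
        have h1 : A ⊆ (S A).image (fun t => v t (ω₀ t)) := by
          intro x hx
          obtain ⟨t, ht⟩ := (hRd ω₀ x).1 (h0 hx)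
          rw [mem_image]
          exact ⟨t, hS' A t (ω₀ t) (by rw [ht]; exact hx), ht⟩
        have h2 := le_trans (card_le_card h1) card_image_le
        rw [hF A hA] at h2
        omega
      refine le_trans (Nat.mul_le_mul_left _ (Nat.pow_le_pow_right (by norm_num) hc)) ?_
      apply agree_card (S A) ω₀
      intro ω hω t ht
      rcases (hS A t).1 ht with h | h
      · rw [(hRv ω t true).1 (hω h), (hRv ω₀ t true).1 (h0 h)]
      · rw [(hRv ω t false).1 (hω h), (hRv ω₀ t false).1 (h0 h)]
    · push Not at he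
      have : cnt (fun ω => A ⊆ Rd ω) = 0 := by
        rw [cnt, card_eq_zero, eq_empty_iff_forall_notMem]
        intro ω hω
        exact he ω (mem_ev.1 hω)
      rw [this]
      simp
  have hcnt2 : ∀ A ∈ F, cnt (fun ω => Disjoint A (Rd ω)) * 2 ^ (n - 1) ≤ 2 ^ Fintype.card T := by
    intro A hA
    by_cases he : ∃ ω₀, Disjoint A (Rd ω₀)
    · obtain ⟨ω₀, h0⟩ := he
      rw [Finset.disjoint_left] at h0
      have hc : n - 1 ≤ (S A).card := by
        have h1 : A ⊆ insert last ((S A).image (fun t => v t (!ω₀ t))) := by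
          intro x hx
          rw [mem_insert]
          rcases hlast x (hAV A hA hx) with ⟨t, b, rfl⟩ | h
          · right
            rw [mem_image]
            refine ⟨t, hS' A t b hx, ?_⟩
            have h3 : ω₀ t ≠ b := fun h => h0 hx ((hRv ω₀ t b).2 h)
            have h4 : (!ω₀ t) = b := by
              revert h3
              cases ω₀ t <;> cases b <;> simp
            rw [h4]
          · exact Or.inl h
        have h2 := le_trans (card_le_card h1) (card_insert_le _ _)
        have h3 : ((S A).image (fun t => v t (!ω₀ t))).card ≤ (S A).card := card_image_le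
        rw [hF A hA] at h2
        omega
      refine le_trans (Nat.mul_le_mul_left _ (Nat.pow_le_pow_right (by norm_num) hc)) ?_
      apply agree_card (S A) ω₀
      intro ω hω t ht
      rw [Finset.disjoint_left] at hω
      rcases (hS A t).1 ht with h | h
      · have a1 : ω t ≠ true := fun h' => hω h ((hRv ω t true).2 h')
        have a2 : ω₀ t ≠ true := fun h' => h0 h ((hRv ω₀ t true).2 h')
        simp only [ne_eq, Bool.not_eq_true] at a1 a2
        rw [a1, a2]
      · have a1 : ω t ≠ false := fun h' => hω h ((hRv ω t false).2 h')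
        have a2 : ω₀ t ≠ false := fun h' => h0 h ((hRv ω₀ t false).2 h')
        simp only [ne_eq, Bool.not_eq_false] at a1 a2
        rw [a1, a2]
    · push Not at he
      have : cnt (fun ω => Disjoint A (Rd ω)) = 0 := by
        rw [cnt, card_eq_zero, eq_empty_iff_forall_notMem]
        intro ω hω
        exact he ω (mem_ev.1 hω)
      rw [this]
      simp
  have hcardT : (Fintype.card (T → Bool) : ℝ) = 2 ^ Fintype.card T := by
    rw [Fintype.card_fun, Fintype.card_bool]
    push_cast
    rfl
  have hp : ∀ A ∈ F, (cnt (B A) : ℝ) ≤ (4 / 2 ^ n) * Fintype.card (T → Bool) := by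
    intro A hA
    have h1 : cnt (B A) ≤ cnt (fun ω => A ⊆ Rd ω) + cnt (fun ω => Disjoint A (Rd ω)) := by
      refine le_trans (card_le_card ?_) (card_union_le _ _)
      intro ω hω
      rw [mem_ev] at hω
      rw [mem_union, mem_ev, mem_ev]
      exact hω
    have h2 := hcnt1 A hA
    have h3 := hcnt2 A hA
    have h4 : cnt (B A) * 2 ^ (n - 1) ≤ 2 * 2 ^ Fintype.card T := by
      refine le_trans (Nat.mul_le_mul_right _ h1) ?_
      rw [add_mul]
      omega
    have h5 : (cnt (B A) : ℝ) * 2 ^ (n - 1) ≤ 2 * 2 ^ Fintype.card T := by exact_mod_cast h4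
    rw [hcardT, hpow, div_mul_eq_mul_div, le_div_iff₀ (by positivity)]
    linarith
  have hcn : 1 ≤ c ^ n := one_le_pow₀ hc.le
  have hnR : (1 : ℝ) ≤ n := by exact_mod_cast hn
  have hdd : ∀ A ∈ F, (F.filter (fun A' => ¬ Disjoint (S A) (S A'))).card ≤ ⌊2 * (n : ℝ) * c ^ n⌋₊ := by
    intro A hA
    apply Nat.le_floor
    have h1 : F.filter (fun A' => ¬ Disjoint (S A) (S A'))
        ⊆ (S A).biUnion (fun t => (F.filter (fun A' => v t true ∈ A')) ∪
          (F.filter (fun A' => v t false ∈ A'))) := by
      intro A' hA'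
      rw [mem_filter, Finset.not_disjoint_iff] at hA'
      obtain ⟨hA'F, t, ht, ht'⟩ := hA'
      rw [mem_biUnion]
      refine ⟨t, ht, ?_⟩
      rw [mem_union, mem_filter, mem_filter]
      rcases (hS A' t).1 ht' with h | h
      · exact Or.inl ⟨hA'F, h⟩
      · exact Or.inr ⟨hA'F, h⟩
    have h2 := le_trans (card_le_card h1) card_biUnion_le
    have h3 : ((∑ t ∈ S A, ((F.filter (fun A' => v t true ∈ A')) ∪
          (F.filter (fun A' => v t false ∈ A'))).card : ℕ) : ℝ) ≤ ∑ t ∈ S A, 2 * c ^ n := by
      push_cast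
      apply sum_le_sum
      intro t _
      have h4 := card_union_le (F.filter (fun A' => v t true ∈ A')) (F.filter (fun A' => v t false ∈ A'))
      have h5 : (((F.filter (fun A' => v t true ∈ A')) ∪ (F.filter (fun A' => v t false ∈ A'))).card : ℝ)
          ≤ (F.filter (fun A' => v t true ∈ A')).card + (F.filter (fun A' => v t false ∈ A')).card := by
        exact_mod_cast h4
      have h6 := hdeg (v t true)
      have h7 := hdeg (v t false)
      linarith
    have h4 : ((F.filter (fun A' => ¬ Disjoint (S A) (S A'))).card : ℝ) ≤ ∑ t ∈ S A, 2 * c ^ n :=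
      le_trans (by exact_mod_cast h2) h3
    rw [sum_const, nsmul_eq_mul] at h4
    have h5 : ((S A).card : ℝ) ≤ n := by exact_mod_cast hScard A hA
    refine le_trans h4 ?_
    have h6 : ((S A).card : ℝ) * (2 * c ^ n) ≤ n * (2 * c ^ n) :=
      mul_le_mul_of_nonneg_right h5 (by positivity)
    linarith
  have hfl : (⌊2 * (n : ℝ) * c ^ n⌋₊ : ℝ) ≤ 2 * (n : ℝ) * c ^ n := Nat.floor_le (by positivity)
  obtain ⟨ω, hω⟩ := lll F B S hB (4 / 2 ^ n) ⌊2 * (n : ℝ) * c ^ n⌋₊ (by positivity)
    (fun A hA => by convert hp A hA) (fun A hA => by convert hdd A hA)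
    (by
      have h2n : (0 : ℝ) < 2 ^ n := by positivity
      have : 4 * (4 / (2 : ℝ) ^ n) * (2 * (n : ℝ) * c ^ n) ≤ 1 := by
        rw [mul_div_assoc', div_mul_eq_mul_div, div_le_one h2n]
        linarith
      refine le_trans ?_ this
      exact mul_le_mul_of_nonneg_left hfl (by positivity))
    (by
      apply Nat.le_floor
      push_cast
      nlinarith)
    (by
      have h0 : 0 < Fintype.card (T → Bool) := Fintype.card_pos
      convert h0)
  refine ⟨Rd ω, ?_, ?_, ?_⟩
  · intro x hx
    obtain ⟨t, rfl⟩ := (hRd ω x).1 hx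
    exact hvV t _
  · show (univ.image (fun t => v t (ω t))).card = _
    rw [card_image_of_injective]
    · simp [T]
    · intro t t' h
      exact (hvinj _ _ _ _ h).1
  · intro A hA
    have h := hω A hA
    simp only [B, not_or] at h
    refine ⟨?_, h.1⟩
    rw [← Finset.not_disjoint_iff_nonempty_inter]
    exact h.2

end Pool.Agent.Q285.Halving
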