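import Pool.Agent.Q88.MT.Stm3

set_option autoImplicit false

/-!
# Project MT (helper88), JOB FOG: the quadratic form of `T k` and the symbol
-/

open Set Filter Topology
open Pool.Agent.Q88.MT

namespace Pool.Agent.Q285.MT

noncomputable section

/-- the character with the frequencies `z` -/
def ee {n : ℕ} (z : Fin n → ℤ) (t : Fin n → ℝ) : ℂ :=
  Complex.exp (((∑ j, t j * (z j : ℝ) : ℝ) : ℂ) * Complex.I)

lemma ee_add {n : ℕ} (z z' : Fin n → ℤ) (t : Fin n → ℝ) :
    ee (fun j => z j + z' j) t = ee z t * ee z' t := by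
  unfold ee
  rw [← Complex.exp_add, ← add_mul, ← Complex.ofReal_add, ← Finset.sum_add_distrib]
  congr 4
  funext j
  push_cast
  ring

lemma ee_conj {n : ℕ} (z : Fin n → ℤ) (t : Fin n → ℝ) :
    (starRingEnd ℂ) (ee z t) = ee (fun j => -z j) t := by
  unfold ee
  rw [← Complex.exp_conj, map_mul, Complex.conj_ofReal, Complex.conj_I]
  congr 1
  have h : ∑ j, t j * ((-z j : ℤ) : ℝ) = -∑ j, t j * (z j : ℝ) := by
    rw [← Finset.sum_neg_distrib]
    refine Finset.sum_congr rfl fun j _ => ?_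
    push_cast
    ring
  rw [h, Complex.ofReal_neg]
  ring

lemma one_dim (N : ℕ) (hN : 0 < N) (z : ℤ) (hz : |z| < N) :
    ∑ a : Fin N, Complex.exp (((2 * Real.pi * ((a : ℕ) : ℝ) / N * z : ℝ) : ℂ) * Complex.I) =
      if z = 0 then (N : ℂ) else 0 := by
  have hNR : (N : ℝ) ≠ 0 := by exact_mod_cast hN.ne'
  have hNC : (N : ℂ) ≠ 0 := by exact_mod_cast hN.ne'
  split_ifs with h0
  · subst h0
    simp
  · obtain ⟨w, hw⟩ : ∃ w : ℂ, w = Complex.exp (((2 * Real.pi / N * z : ℝ) : ℂ) * Complex.I) :=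
      ⟨_, rfl⟩
    have h1 : ∀ a : Fin N, Complex.exp (((2 * Real.pi * ((a : ℕ) : ℝ) / N * z : ℝ) : ℂ) *
        Complex.I) = w ^ (a : ℕ) := by
      intro a
      rw [hw, ← Complex.exp_nat_mul]
      congr 1
      push_cast
      ring
    rw [Finset.sum_congr rfl fun a _ => h1 a, Fin.sum_univ_eq_sum_range (fun i => w ^ i) N]
    have hw1 : w ≠ 1 := by
      rw [hw]
      intro h
      rw [Complex.exp_eq_one_iff] at h
      obtain ⟨m, hm⟩ := h
      have hpi : (Real.pi : ℂ) ≠ 0 := by exact_mod_cast Real.pi_ne_zero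
      have h2 : (z : ℂ) = m * N := by
        push_cast at hm
        have h3 : (2 * (Real.pi : ℂ) * Complex.I) * (z : ℂ) =
            (2 * (Real.pi : ℂ) * Complex.I) * (m * N) := by
          have h4 := congrArg (fun x : ℂ => x * N) hm
          field_simp at h4
          linear_combination (2 * (Real.pi : ℂ) * Complex.I) * h4
        exact mul_left_cancel₀ (mul_ne_zero (mul_ne_zero two_ne_zero hpi) Complex.I_ne_zero) h3
      have h5 : z = m * N := by exact_mod_cast h2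
      have h6 : m ≠ 0 := by
        rintro rfl
        apply h0
        rw [h5, zero_mul]
      have h7 : 1 ≤ |m| := Int.one_le_abs h6
      rw [h5, abs_mul, Nat.abs_cast] at hz
      have h8 : (1 : ℤ) * N ≤ |m| * N := mul_le_mul_of_nonneg_right h7 (by positivity)
      linarith
    have hwN : w ^ N = 1 := by
      rw [hw, ← Complex.exp_nat_mul, Complex.exp_eq_one_iff]
      refine ⟨z, ?_⟩
      push_cast
      field_simp
    rw [geom_sum_eq hw1, hwN, sub_self, zero_div]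

/-- the sample points -/
def tt {n : ℕ} (N : ℕ) (ξ : Fin n → Fin N) (j : Fin n) : ℝ := 2 * Real.pi * ((ξ j : ℕ) : ℝ) / N

lemma orth {n : ℕ} (N : ℕ) (hN : 0 < N) (z : Fin n → ℤ) (hz : ∀ j, |z j| < N) :
    ∑ ξ : Fin n → Fin N, ee z (tt N ξ) = if z = 0 then (N : ℂ) ^ n else 0 := by
  classical
  have h1 : ∀ ξ : Fin n → Fin N, ee z (tt N ξ) =
      ∏ j, Complex.exp (((2 * Real.pi * ((ξ j : ℕ) : ℝ) / N * z j : ℝ) : ℂ) * Complex.I) := by
    intro ξ
    unfold ee tt
    rw [Complex.ofReal_sum, Finset.sum_mul, Complex.exp_sum]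
  rw [Finset.sum_congr rfl fun ξ _ => h1 ξ]
  have h2 := Finset.prod_univ_sum (fun _ : Fin n => (Finset.univ : Finset (Fin N)))
    (fun j a => Complex.exp (((2 * Real.pi * ((a : ℕ) : ℝ) / N * z j : ℝ) : ℂ) * Complex.I))
  rw [Fintype.piFinset_univ] at h2
  rw [← h2, Finset.prod_congr rfl fun j _ => one_dim N hN (z j) (hz j)]
  split_ifs with h0
  · subst h0
    simp
  · obtain ⟨j, hj⟩ : ∃ j, z j ≠ 0 := by
      by_contra hcon
      push Not at hcon
      exact h0 (funext hcon)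
    exact Finset.prod_eq_zero (Finset.mem_univ j) (if_neg hj)

/-- the box -/
def Bx (n R : ℕ) : Finset (X n) := Fintype.piFinset fun _ : Fin n => Finset.range R

lemma mem_Bx {n R : ℕ} (x : X n) : x ∈ Bx n R ↔ ∀ j, x j < R := by
  unfold Bx
  rw [Fintype.mem_piFinset]
  simp only [Finset.mem_range]

/-- the truncation -/
def tr {n : ℕ} (R : ℕ) (u : X n → ℂ) (x : X n) : ℂ := if x ∈ Bx n R then u x else 0

/-- the Fourier transform of the truncation -/
def hat {n : ℕ} (R : ℕ) (u : X n → ℂ) (t : Fin n → ℝ) : ℂ :=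
  ∑ x ∈ Bx n R, u x * ee (fun j => (x j : ℤ)) t

lemma corr {n : ℕ} (R N : ℕ) (hN : 0 < N) (u : X n → ℂ) (k : Fin n → ℤ)
    (hk : ∀ j, |k j| + R ≤ N) :
    ∑ ξ : Fin n → Fin N, ee k (tt N ξ) *
      ((starRingEnd ℂ) (hat R u (tt N ξ)) * hat R u (tt N ξ)) =
      (N : ℂ) ^ n * ∑ y ∈ Bx n R, ∑ x ∈ Bx n R,
        if (∀ j, (x j : ℤ) + k j = y j) then (starRingEnd ℂ) (u y) * u x else 0 := by
  have h1 : ∀ ξ : Fin n → Fin N, ee k (tt N ξ) *
      ((starRingEnd ℂ) (hat R u (tt N ξ)) * hat R u (tt N ξ)) =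
      ∑ y ∈ Bx n R, ∑ x ∈ Bx n R, ((starRingEnd ℂ) (u y) * u x) *
        ee (fun j => (x j : ℤ) + k j + -(y j : ℤ)) (tt N ξ) := by
    intro ξ
    unfold hat
    rw [map_sum, Finset.sum_mul_sum, Finset.mul_sum]
    refine Finset.sum_congr rfl fun y _ => ?_
    rw [Finset.mul_sum]
    refine Finset.sum_congr rfl fun x _ => ?_
    rw [map_mul, ee_conj, ee_add (fun j => (x j : ℤ) + k j) (fun j => -(y j : ℤ)),
      ee_add (fun j => (x j : ℤ)) k]
    ring
  rw [Finset.sum_congr rfl fun ξ _ => h1 ξ, Finset.sum_comm, Finset.mul_sum]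
  refine Finset.sum_congr rfl fun y hy => ?_
  rw [Finset.sum_comm, Finset.mul_sum]
  refine Finset.sum_congr rfl fun x hx => ?_
  rw [mem_Bx] at hx hy
  rw [← Finset.mul_sum, orth N hN _ (fun j => by
    have h3 := hk j
    have h4 := hx j
    have h5 := hy j
    have h6 : |(x j : ℤ) + k j + -(y j : ℤ)| ≤ |(x j : ℤ) - y j| + |k j| := by
      have h7 : (x j : ℤ) + k j + -(y j : ℤ) = ((x j : ℤ) - y j) + k j := by ring
      rw [h7]
      exact abs_add_le _ _
    have h8 : |(x j : ℤ) - y j| < R := by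
      rw [abs_lt]
      constructor <;> omega
    linarith)]
  by_cases hc : ∀ j, (x j : ℤ) + k j = y j
  · have h2 : (fun j => (x j : ℤ) + k j + -(y j : ℤ)) = 0 := by
      funext j
      rw [hc j, add_neg_cancel]
      rfl
    rw [if_pos h2, if_pos hc]
    ring
  · have h2 : (fun j => (x j : ℤ) + k j + -(y j : ℤ)) ≠ 0 := by
      intro h
      apply hc
      intro j
      have := congrFun h j
      simp only [Pi.zero_apply] at this
      linarith
    rw [if_neg h2, if_neg hc]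
    ring

lemma W_tr {n : ℕ} (R : ℕ) (u : X n → ℂ) (k : Fin n → ℤ) (y : X n) :
    W k (tr R u) y = ∑ x ∈ Bx n R, if (∀ j, (x j : ℤ) + k j = y j) then u x else 0 := by
  classical
  unfold W
  split_ifs with h
  · have h1 : ∀ x : X n, (∀ j, (x j : ℤ) + k j = y j) ↔
        x = fun j => ((y j : ℤ) - k j).toNat := by
      intro x
      constructor
      · intro hx
        funext j
        have := hx j
        omega
      · rintro rfl j
        have := h j
        simp only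
        omega
    simp only [h1]
    rw [Finset.sum_ite_eq']
    rfl
  · refine (Finset.sum_eq_zero fun x _ => ?_).symm
    rw [if_neg]
    intro hx
    apply h
    intro j
    have := hx j
    omega

lemma fin_form {n : ℕ} (k : Fin n → ℤ) (c : ℂ) (r : ℝ) (hr : ∀ t : Fin n → ℝ, (c * sy k t).re ≤ r)
    (R : ℕ) (u : X n → ℂ) :
    (c * ∑ y ∈ Bx n R, (starRingEnd ℂ) (u y) * T k (tr R u) y).re ≤
      r * ∑ x ∈ Bx n R, ‖u x‖ ^ 2 := by
  obtain ⟨N, hN, hkN⟩ : ∃ N : ℕ, 0 < N ∧ ∀ j, |k j| + R ≤ (N : ℤ) := by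
    refine ⟨(∑ j, (k j).natAbs) + R + 1, by omega, fun j => ?_⟩
    have h1 : (k j).natAbs ≤ ∑ j, (k j).natAbs :=
      Finset.single_le_sum (f := fun j => (k j).natAbs) (fun _ _ => Nat.zero_le _)
        (Finset.mem_univ j)
    rw [Int.abs_eq_natAbs]
    push_cast
    have h2 : ((k j).natAbs : ℤ) ≤ ((∑ j, (k j).natAbs : ℕ) : ℤ) := by exact_mod_cast h1
    push_cast at h2
    linarith
  have hNp : (0 : ℝ) < (N : ℝ) ^ n := by positivity
  have hkπ : ∀ (π : Equiv.Perm (Fin n)) (j : Fin n), |k (π j)| + R ≤ (N : ℤ) := fun π j => hkN (π j)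
  have hsq : ∀ z : ℂ, (starRingEnd ℂ) z * z = ((‖z‖ ^ 2 : ℝ) : ℂ) := by
    intro z
    rw [mul_comm, Complex.mul_conj, Complex.normSq_eq_norm_sq]
  -- the quadratic form
  have hq : (N : ℂ) ^ n * ∑ y ∈ Bx n R, (starRingEnd ℂ) (u y) * T k (tr R u) y =
      ∑ ξ : Fin n → Fin N, sy k (tt N ξ) * ((‖hat R u (tt N ξ)‖ ^ 2 : ℝ) : ℂ) := by
    have h1 : ∀ ξ : Fin n → Fin N, sy k (tt N ξ) * ((‖hat R u (tt N ξ)‖ ^ 2 : ℝ) : ℂ) =
        1 / (n.factorial : ℂ) * ∑ π : Equiv.Perm (Fin n), ee (fun j => k (π j)) (tt N ξ) *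
          ((starRingEnd ℂ) (hat R u (tt N ξ)) * hat R u (tt N ξ)) := by
      intro ξ
      rw [hsq, ← Finset.sum_mul, ← mul_assoc]
      rfl
    rw [Finset.sum_congr rfl fun ξ _ => h1 ξ, ← Finset.mul_sum, Finset.sum_comm,
      Finset.sum_congr rfl fun π _ => corr R N hN u (fun j => k (π j)) (hkπ π), ← Finset.mul_sum]
    have h2 : ∑ y ∈ Bx n R, (starRingEnd ℂ) (u y) * T k (tr R u) y =
        1 / (n.factorial : ℂ) * ∑ π : Equiv.Perm (Fin n), ∑ y ∈ Bx n R, ∑ x ∈ Bx n R,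
          if (∀ j, (x j : ℤ) + k (π j) = y j) then (starRingEnd ℂ) (u y) * u x else 0 := by
      rw [Finset.sum_comm, Finset.mul_sum]
      refine Finset.sum_congr rfl fun y _ => ?_
      unfold T
      rw [mul_left_comm]
      congr 1
      rw [Finset.mul_sum]
      refine Finset.sum_congr rfl fun π _ => ?_
      rw [W_tr, Finset.mul_sum]
      refine Finset.sum_congr rfl fun x _ => ?_
      split_ifs
      · rfl
      · rw [mul_zero]
    rw [h2]
    ring
  -- the norm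
  have hn : (N : ℝ) ^ n * ∑ x ∈ Bx n R, ‖u x‖ ^ 2 =
      ∑ ξ : Fin n → Fin N, ‖hat R u (tt N ξ)‖ ^ 2 := by
    have h1 := corr R N hN u (fun _ => 0) (fun j => by
      have := hkN j
      have h2 := abs_nonneg (k j)
      rw [abs_zero]
      linarith)
    have h2 : ∀ t : Fin n → ℝ, ee (fun _ => (0 : ℤ)) t = 1 := by
      intro t
      unfold ee
      simp
    have h3 : ∀ x y : X n, (∀ j, (x j : ℤ) + 0 = y j) ↔ y = x := by
      intro x y
      constructor
      · intro h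
        funext j
        have := h j
        omega
      · rintro rfl j
        exact add_zero _
    simp only [h2, one_mul, hsq, h3] at h1
    have h4 : ∀ y ∈ Bx n R, (∑ x ∈ Bx n R, if y = x then (starRingEnd ℂ) (u y) * u x else 0) =
        ((‖u y‖ ^ 2 : ℝ) : ℂ) := by
      intro y hy
      rw [Finset.sum_ite_eq, if_pos hy, hsq]
    rw [Finset.sum_congr rfl h4] at h1
    have h5 : (((N : ℝ) ^ n * ∑ x ∈ Bx n R, ‖u x‖ ^ 2 : ℝ) : ℂ) =
        ((∑ ξ : Fin n → Fin N, ‖hat R u (tt N ξ)‖ ^ 2 : ℝ) : ℂ) := by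
      push_cast
      push_cast at h1
      exact h1.symm
    exact_mod_cast h5
  -- conclusion
  have h1 : (N : ℝ) ^ n * (c * ∑ y ∈ Bx n R, (starRingEnd ℂ) (u y) * T k (tr R u) y).re =
      ∑ ξ : Fin n → Fin N, (c * sy k (tt N ξ)).re * ‖hat R u (tt N ξ)‖ ^ 2 := by
    have h2 : (((N : ℝ) ^ n : ℝ) : ℂ) *
        (c * ∑ y ∈ Bx n R, (starRingEnd ℂ) (u y) * T k (tr R u) y) =
        ∑ ξ : Fin n → Fin N, ((‖hat R u (tt N ξ)‖ ^ 2 : ℝ) : ℂ) * (c * sy k (tt N ξ)) := by
      have h3 : (((N : ℝ) ^ n : ℝ) : ℂ) = (N : ℂ) ^ n := by push_cast; rfl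
      rw [h3, mul_left_comm, hq, Finset.mul_sum]
      refine Finset.sum_congr rfl fun ξ _ => ?_
      ring
    have h4 := congrArg Complex.re h2
    rw [Complex.re_ofReal_mul, Complex.re_sum] at h4
    rw [h4]
    refine Finset.sum_congr rfl fun ξ _ => ?_
    rw [Complex.re_ofReal_mul]
    ring
  have h2 : (N : ℝ) ^ n * (c * ∑ y ∈ Bx n R, (starRingEnd ℂ) (u y) * T k (tr R u) y).re ≤
      (N : ℝ) ^ n * (r * ∑ x ∈ Bx n R, ‖u x‖ ^ 2) := by
    rw [h1, mul_left_comm, hn, Finset.mul_sum]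
    refine Finset.sum_le_sum fun ξ _ => ?_
    exact mul_le_mul_of_nonneg_right (hr _) (by positivity)
  exact le_of_mul_le_mul_left h2 hNp

lemma tr_eventually {n : ℕ} (u : X n → ℂ) (x : X n) : ∀ᶠ R : ℕ in atTop, tr R u x = u x := by
  refine eventually_atTop.mpr ⟨(∑ j, x j) + 1, fun R hR => ?_⟩
  unfold tr
  rw [if_pos]
  rw [mem_Bx]
  intro j
  have h1 : x j ≤ ∑ j, x j :=
    Finset.single_le_sum (f := fun j => x j) (fun _ _ => Nat.zero_le _) (Finset.mem_univ j)
  omega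

lemma tr_norm {n : ℕ} (R : ℕ) (u : X n → ℂ) (x : X n) : ‖tr R u x‖ ≤ ‖u x‖ := by
  unfold tr
  split_ifs
  · exact le_rfl
  · rw [norm_zero]
    exact norm_nonneg _

lemma W_norm {n : ℕ} (k : Fin n → ℤ) (u v : X n → ℂ) (h : ∀ x, ‖v x‖ ≤ ‖u x‖) (y : X n) :
    ‖W k v y‖ ≤ ‖W k (fun x => (‖u x‖ : ℂ)) y‖ := by
  unfold W
  split_ifs
  · rw [Complex.norm_real, norm_norm]
    exact h _
  · exact le_rfl

/-- the real version of `T` -/
lemma T_norm {n : ℕ} (k : Fin n → ℤ) (u v : X n → ℂ) (h : ∀ x, ‖v x‖ ≤ ‖u x‖) (y : X n) :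
    ‖T k v y‖ ≤ ‖T k (fun x => (‖u x‖ : ℂ)) y‖ := by
  have hre : ∀ π : Equiv.Perm (Fin n), W (fun j => k (π j)) (fun x => (‖u x‖ : ℂ)) y =
      ((‖W (fun j => k (π j)) (fun x => (‖u x‖ : ℂ)) y‖ : ℝ) : ℂ) := by
    intro π
    unfold W
    split_ifs
    · rw [Complex.norm_real, norm_norm]
    · rw [norm_zero, Complex.ofReal_zero]
  unfold T
  rw [norm_mul, norm_mul]
  refine mul_le_mul_of_nonneg_left ?_ (norm_nonneg _)
  refine (norm_sum_le _ _).trans ?_
  rw [Finset.sum_congr rfl fun π _ => hre π, ← Complex.ofReal_sum, Complex.norm_real,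
    Real.norm_eq_abs, abs_of_nonneg (Finset.sum_nonneg fun _ _ => norm_nonneg _)]
  exact Finset.sum_le_sum fun π _ => W_norm _ u v h y

lemma T_eventually {n : ℕ} (k : Fin n → ℤ) (u : X n → ℂ) (y : X n) :
    ∀ᶠ R : ℕ in atTop, T k (tr R u) y = T k u y := by
  have h1 : ∀ᶠ R : ℕ in atTop, ∀ π : Equiv.Perm (Fin n),
      W (fun j => k (π j)) (tr R u) y = W (fun j => k (π j)) u y := by
    rw [eventually_all]
    intro π
    filter_upwards [tr_eventually u (fun j => ((y j : ℤ) - k (π j)).toNat)] with R hR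
    unfold W
    split_ifs
    · exact hR
    · rfl
  filter_upwards [h1] with R hR
  unfold T
  rw [Finset.sum_congr rfl fun π _ => hR π]

theorem fog (_h : S_bas) (h1 : S_bdd) : S_fog := by
  intro n k c r hr u hu
  have hu' : Sq (fun x => (‖u x‖ : ℂ)) := by
    unfold Sq at hu ⊢
    simpa [Complex.norm_real] using hu
  have hT' := (h1 n k _ hu').1
  -- the bound
  have hb : Summable fun y : X n => ‖u y‖ * ‖T k (fun x => (‖u x‖ : ℂ)) y‖ := by
    have h2 : Summable fun y : X n => (‖u y‖ ^ 2 + ‖T k (fun x => (‖u x‖ : ℂ)) y‖ ^ 2) :=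
      Summable.add hu hT'
    refine Summable.of_nonneg_of_le (fun y => by positivity) (fun y => ?_) h2
    nlinarith [sq_nonneg (‖u y‖ - ‖T k (fun x => (‖u x‖ : ℂ)) y‖), norm_nonneg (u y),
      norm_nonneg (T k (fun x => (‖u x‖ : ℂ)) y),
      mul_nonneg (norm_nonneg (u y)) (norm_nonneg (T k (fun x => (‖u x‖ : ℂ)) y))]
  have hsum : Summable (fun y => (starRingEnd ℂ) (u y) * T k u y) := by
    refine Summable.of_norm_bounded hb fun y => ?_
    rw [norm_mul, RCLike.norm_conj]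
    exact mul_le_mul_of_nonneg_left (T_norm k u u (fun _ => le_rfl) y) (norm_nonneg _)
  refine ⟨hsum, ?_⟩
  have hlim1 : Tendsto (fun R : ℕ => ∑' y : X n, (starRingEnd ℂ) (tr R u y) * T k (tr R u) y) atTop
      (𝓝 (∑' y, (starRingEnd ℂ) (u y) * T k u y)) := by
    refine tendsto_tsum_of_dominated_convergence hb (fun y => ?_) ?_
    · refine tendsto_const_nhds.congr' ?_
      filter_upwards [tr_eventually u y, T_eventually k u y] with R hR1 hR2
      rw [hR1, hR2]
    · refine Eventually.of_forall fun R y => ?_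
      rw [norm_mul, RCLike.norm_conj]
      exact mul_le_mul (tr_norm R u y) (T_norm k u (tr R u) (tr_norm R u) y) (norm_nonneg _)
        (norm_nonneg _)
  have hlim2 : Tendsto (fun R : ℕ => ∑' y : X n, ‖tr R u y‖ ^ 2) atTop
      (𝓝 (∑' y, ‖u y‖ ^ 2)) := by
    refine tendsto_tsum_of_dominated_convergence hu (fun y => ?_) ?_
    · refine tendsto_const_nhds.congr' ?_
      filter_upwards [tr_eventually u y] with R hR1
      rw [hR1]
    · refine Eventually.of_forall fun R y => ?_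
      rw [Real.norm_eq_abs, abs_of_nonneg (by positivity)]
      exact pow_le_pow_left₀ (norm_nonneg _) (tr_norm R u y) 2
  have hnn : nn u ^ 2 = ∑' y, ‖u y‖ ^ 2 := by
    unfold nn
    rw [Real.sq_sqrt (tsum_nonneg fun _ => by positivity)]
  have hfin : ∀ R : ℕ, (c * ∑' y : X n, (starRingEnd ℂ) (tr R u y) * T k (tr R u) y).re ≤
      r * ∑' y : X n, ‖tr R u y‖ ^ 2 := by
    intro R
    have e1 : ∑' y : X n, (starRingEnd ℂ) (tr R u y) * T k (tr R u) y =
        ∑ y ∈ Bx n R, (starRingEnd ℂ) (u y) * T k (tr R u) y := by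
      rw [tsum_eq_sum (s := Bx n R)]
      · refine Finset.sum_congr rfl fun y hy => ?_
        unfold tr
        rw [if_pos hy]
      · intro y hy
        unfold tr
        rw [if_neg hy, map_zero, zero_mul]
    have e2 : ∑' y : X n, ‖tr R u y‖ ^ 2 = ∑ y ∈ Bx n R, ‖u y‖ ^ 2 := by
      rw [tsum_eq_sum (s := Bx n R)]
      · refine Finset.sum_congr rfl fun y hy => ?_
        unfold tr
        rw [if_pos hy]
      · intro y hy
        unfold tr
        rw [if_neg hy, norm_zero]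
        norm_num
    rw [e1, e2]
    exact fin_form k c r hr R u
  rw [hnn]
  refine le_of_tendsto_of_tendsto' ?_ (hlim2.const_mul r) hfin
  exact (Complex.continuous_re.tendsto _).comp (hlim1.const_mul c)

end

end Pool.Agent.Q285.MT
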