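import Pool.Agent.Q16.SQ.Stm5

/-!
# The classification of the rational angle relations (part NT)
-/

set_option autoImplicit false

namespace Q16.SQ

theorem nt_sum3 {R : Type} [AddCommMonoid R] {i j k : Fin 3} (hij : i ≠ j) (hjk : j ≠ k)
    (hik : i ≠ k) (f : Fin 3 → R) : f 0 + f 1 + f 2 = f i + f j + f k := by
  have h : (Finset.univ : Finset (Fin 3)) = {i, j, k} := by
    revert i j k
    decide
  have h2 := Fin.sum_univ_three f
  rw [h, Finset.sum_insert (by simp [hij, hik]), Finset.sum_pair hjk] at h2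
  rw [← h2, add_assoc]

theorem nt_third (i j k l : Fin 3) (h1 : i ≠ j) (h2 : j ≠ k) (h3 : i ≠ k) (h4 : l ≠ i)
    (h5 : l ≠ j) : l = k := by
  have a1 := fun h => h1 (Fin.ext h)
  have a2 := fun h => h2 (Fin.ext h)
  have a3 := fun h => h3 (Fin.ext h)
  have a4 := fun h => h4 (Fin.ext h)
  have a5 := fun h => h5 (Fin.ext h)
  apply Fin.ext
  omega

theorem nt_others : ∀ k : Fin 3, ∃ i j : Fin 3, i ≠ j ∧ j ≠ k ∧ i ≠ k := by
  decide

theorem nt_notdvd {J : ℤ} {M p : ℕ} (h : IsCoprime J (M : ℤ)) (hp : p ∣ M) (hp1 : 1 < p) :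
    ¬ (p : ℤ) ∣ J := by
  intro hd
  have h1 := h.isUnit_of_dvd' hd (Int.natCast_dvd_natCast.2 hp)
  rcases Int.isUnit_iff.1 h1 with h2 | h2 <;> omega

theorem nt_lift (M m : ℕ) (r : ℤ) (hM : 0 < M) (hm : 0 < m) (hr : IsCoprime r (m : ℤ)) :
    ∃ t : ℤ, IsCoprime t (M : ℤ) ∧ t % m = r % m := by
  have : NeZero (m * M) := ⟨(Nat.mul_pos hm hM).ne'⟩
  obtain ⟨v, hv⟩ := ZMod.unitsMap_surjective (dvd_mul_right m M) (ZMod.unitOfIsCoprime r hr)
  refine ⟨((v : ZMod (m * M)).val : ℤ), ?_, ?_⟩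
  · have h1 := ZMod.val_coe_unit_coprime v
    exact Nat.isCoprime_iff_coprime.2 (Nat.Coprime.coprime_mul_left_right h1)
  · have h1 := congrArg (Units.val) hv
    rw [ZMod.unitsMap_val, ZMod.coe_unitOfIsCoprime, ← ZMod.natCast_val] at h1
    have h2 : ((((v : ZMod (m * M)).val : ℤ)) : ZMod m) = (r : ZMod m) := by
      rw [← h1]
      push_cast
      rfl
    exact (ZMod.intCast_eq_intCast_iff' _ _ _).1 h2

theorem nt_vf {n x c d : ℕ} (hn : 0 < n) (hd : 0 < d) (h : d * x = c * n) (J : ℤ) :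
    vf n J x = ((J * c % d : ℤ) : ℝ) / d := by
  unfold vf
  have hn' : (n : ℝ) ≠ 0 := by exact_mod_cast hn.ne'
  have hd' : (d : ℝ) ≠ 0 := by exact_mod_cast hd.ne'
  have e : (J : ℝ) * x / n = ((J * c : ℤ) : ℝ) / (d : ℕ) := by
    rw [div_eq_div_iff hn' hd']
    have := congrArg (Nat.cast : ℕ → ℝ) h
    push_cast at this ⊢
    linear_combination (J : ℝ) * this
  rw [e, Int.fract_div_intCast_eq_div_intCast_mod]

theorem nt_fract_ne {n x : ℕ} {J : ℤ} (hn : 0 < n) (hx : 0 < x) (hxn : x < n)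
    (hJ : IsCoprime J ((4 * n : ℕ) : ℤ)) : vf n J x ≠ 0 := by
  unfold vf
  intro h
  obtain ⟨z, hz⟩ : ∃ z : ℤ, (J : ℝ) * x / n = z :=
    ⟨⌊(J : ℝ) * x / n⌋, by rw [Int.fract] at h; linarith⟩
  have hn' : (n : ℝ) ≠ 0 := by exact_mod_cast hn.ne'
  rw [div_eq_iff hn'] at hz
  have h1 : J * (x : ℤ) = z * (n : ℤ) := by exact_mod_cast hz
  have h2 : IsCoprime (n : ℤ) J := by
    push_cast at hJ
    exact (IsCoprime.of_mul_right_right hJ).symm
  have h3 : (n : ℤ) ∣ (x : ℤ) := h2.dvd_of_dvd_mul_left ⟨z, by rw [h1, mul_comm]⟩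
  have h4 := Nat.le_of_dvd hx (Int.natCast_dvd_natCast.1 h3)
  omega

theorem nt_pos {n x : ℕ} {J : ℤ} (hn : 0 < n) (hx : 0 < x) (hxn : x < n)
    (hJ : IsCoprime J ((4 * n : ℕ) : ℤ)) : 0 < vf n J x ∧ vf n J x < 1 :=
  ⟨lt_of_le_of_ne (Int.fract_nonneg _) (nt_fract_ne hn hx hxn hJ).symm, Int.fract_lt_one _⟩

theorem nt_neg {n x : ℕ} {J : ℤ} (hn : 0 < n) (hx : 0 < x) (hxn : x < n)
    (hJ : IsCoprime J ((4 * n : ℕ) : ℤ)) : vf n (-J) x = 1 - vf n J x := by
  have h := nt_fract_ne hn hx hxn hJ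
  unfold vf at h ⊢
  rw [← Int.fract_neg h]
  congr 1
  push_cast
  ring

/-- the weights -/
def nt_W (n : ℕ) (a P : Fin 3 → ℕ) : Prop :=
  ∀ J : ℤ, IsCoprime J ((4 * n : ℕ) : ℤ) → ∃ w : Fin 3 → ℝ, (∀ k, 0 < w k) ∧
    w 0 + w 1 + w 2 = 1 ∧ (P 0 : ℝ) * w 0 + P 1 * w 1 + P 2 * w 2 = 1 ∧
    ((∀ k, w k = vf n J (a k)) ∨ ∀ k, w k = 1 - vf n J (a k))

theorem nt_getW {n : ℕ} {a P : Fin 3 → ℕ} (hn : 0 < n) (ha : ∀ k, 0 < a k)
    (hs : a 0 + a 1 + a 2 = n)
    (h : ∀ j : ℤ, IsCoprime j ((4 * n : ℕ) : ℤ) →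
      vf n j (a 0) + vf n j (a 1) + vf n j (a 2) = 1 →
      (P 0 : ℝ) * vf n j (a 0) + P 1 * vf n j (a 1) + P 2 * vf n j (a 2) = 1) :
    nt_W n a P := by
  intro J hJ
  have hlt : ∀ k, a k < n := by
    intro k
    have h0 := ha 0
    have h1 := ha 1
    have h2 := ha 2
    fin_cases k
    · change a 0 < n
      omega
    · change a 1 < n
      omega
    · change a 2 < n
      omega
  have hp := fun k => nt_pos hn (ha k) (hlt k) hJ
  have hn' : (n : ℝ) ≠ 0 := by exact_mod_cast hn.ne'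
  obtain ⟨z, hz⟩ : ∃ z : ℤ, vf n J (a 0) + vf n J (a 1) + vf n J (a 2) = z := by
    refine ⟨J - ⌊(J : ℝ) * a 0 / n⌋ - ⌊(J : ℝ) * a 1 / n⌋ - ⌊(J : ℝ) * a 2 / n⌋, ?_⟩
    unfold vf
    simp only [Int.fract]
    push_cast
    have e : (J : ℝ) * a 0 / n + (J : ℝ) * a 1 / n + (J : ℝ) * a 2 / n = J := by
      rw [← add_div, ← add_div, ← mul_add, ← mul_add, div_eq_iff hn']
      congr 1
      exact_mod_cast hs
    linarith
  have hz0 : (0 : ℝ) < z := by
    rw [← hz]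
    linarith [(hp 0).1, (hp 1).1, (hp 2).1]
  have hz3 : (z : ℝ) < 3 := by
    rw [← hz]
    linarith [(hp 0).2, (hp 1).2, (hp 2).2]
  have hz0' : 0 < z := by exact_mod_cast hz0
  have hz3' : z < 3 := by exact_mod_cast hz3
  have hz12 : z = 1 ∨ z = 2 := by omega
  rcases hz12 with rfl | rfl
  · have hz' : vf n J (a 0) + vf n J (a 1) + vf n J (a 2) = 1 := by
      rw [hz]
      norm_num
    exact ⟨fun k => vf n J (a k), fun k => (hp k).1, hz', h J hJ hz', Or.inl fun _ => rfl⟩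
  · have hneg := fun k => nt_neg hn (ha k) (hlt k) hJ
    have hz' : vf n J (a 0) + vf n J (a 1) + vf n J (a 2) = 2 := by
      rw [hz]
      norm_num
    have hs' : vf n (-J) (a 0) + vf n (-J) (a 1) + vf n (-J) (a 2) = 1 := by
      rw [hneg, hneg, hneg]
      linarith
    refine ⟨fun k => vf n (-J) (a k), fun k => ?_, hs', h (-J) hJ.neg_left hs',
      Or.inr fun k => hneg k⟩
    change 0 < vf n (-J) (a k)
    rw [hneg]
    linarith [(hp k).2]

/-- the values of the weights at a rational with small denominator -/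
theorem nt_mod {n : ℕ} {J : ℤ} {p : ℕ} (hJ : IsCoprime J ((4 * n : ℕ) : ℤ)) (hp : p ∣ 4 * n)
    (hp1 : 1 < p) : J % p ≠ 0 := by
  intro h
  exact nt_notdvd hJ hp hp1 (Int.dvd_of_emod_eq_zero h)

/-- a uniform bound for the weights gives the hypothesis of the number theory -/
theorem nt_use (h : S_NTA) {n : ℕ} {a P : Fin 3 → ℕ} (hn : 0 < n) (ha : ∀ k, 0 < a k)
    (hlt : ∀ k, a k < n) (hW : nt_W n a P) (l : Fin 3) (p : ℕ) (hp : 3 ≤ p)
    (hb : ∀ J : ℤ, IsCoprime J ((4 * n : ℕ) : ℤ) → ∀ w : Fin 3 → ℝ, (∀ k, 0 < w k) →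
      w 0 + w 1 + w 2 = 1 → (P 0 : ℝ) * w 0 + P 1 * w 1 + P 2 * w 2 = 1 →
      ((∀ k, w k = vf n J (a k)) ∨ ∀ k, w k = 1 - vf n J (a k)) → w l < 1 / p) :
    (p = 3 ∧ (4 * a l = n ∨ 4 * a l = 3 * n)) ∨ (p ≤ 5 ∧ (6 * a l = n ∨ 6 * a l = 5 * n)) ∨
    (p = 3 ∧ (10 * a l = n ∨ 10 * a l = 3 * n ∨ 10 * a l = 7 * n ∨ 10 * a l = 9 * n)) := by
  refine h n (a l) p hn (ha l) (hlt l) hp fun J hJ => ?_
  obtain ⟨w, w1, w2, w3, w4⟩ := hW J hJ
  have h1 := hb J hJ w w1 w2 w3 w4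
  rcases w4 with w4 | w4
  · left
    rw [← w4]
    exact h1
  · right
    have := w4 l
    linarith

theorem nt_val4 {n x : ℕ} {J : ℤ} {u : ℝ} (hn : 0 < n) (hJ : IsCoprime J ((4 * n : ℕ) : ℤ))
    (hx : 4 * x = n) (hu : u = vf n J x ∨ u = 1 - vf n J x) : u = 1 / 4 ∨ u = 3 / 4 := by
  have h1 := nt_vf (x := x) (c := 1) (d := 4) hn (by norm_num) (by omega) J
  have h2 : J % 2 ≠ 0 := by
    have := nt_mod (p := 2) hJ ⟨2 * n, by ring⟩ (by norm_num)
    exact_mod_cast this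
  have h3 : J * ((1 : ℕ) : ℤ) % ((4 : ℕ) : ℤ) = 1 ∨ J * ((1 : ℕ) : ℤ) % ((4 : ℕ) : ℤ) = 3 := by
    push_cast
    omega
  rcases h3 with h3 | h3 <;> rw [h3] at h1 <;> push_cast at h1 <;> rcases hu with hu | hu <;>
    rw [h1] at hu
  · left; rw [hu]
  · right; rw [hu]; norm_num
  · right; rw [hu]
  · left; rw [hu]; norm_num

theorem nt_val6 {n x : ℕ} {J : ℤ} {u : ℝ} (hn : 0 < n) (hJ : IsCoprime J ((4 * n : ℕ) : ℤ))
    (hx : 6 * x = n) (hu : u = vf n J x ∨ u = 1 - vf n J x) : u = 1 / 6 ∨ u = 5 / 6 := by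
  have h1 := nt_vf (x := x) (c := 1) (d := 6) hn (by norm_num) (by omega) J
  have h2 : J % 2 ≠ 0 := by
    have := nt_mod (p := 2) hJ ⟨2 * n, by ring⟩ (by norm_num)
    exact_mod_cast this
  have h2' : J % 3 ≠ 0 := by
    have := nt_mod (p := 3) hJ ⟨8 * x, by rw [← hx]; ring⟩ (by norm_num)
    exact_mod_cast this
  have h3 : J * ((1 : ℕ) : ℤ) % ((6 : ℕ) : ℤ) = 1 ∨ J * ((1 : ℕ) : ℤ) % ((6 : ℕ) : ℤ) = 5 := by
    push_cast
    omega
  rcases h3 with h3 | h3 <;> rw [h3] at h1 <;> push_cast at h1 <;> rcases hu with hu | hu <;>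
    rw [h1] at hu
  · left; rw [hu]
  · right; rw [hu]; norm_num
  · right; rw [hu]
  · left; rw [hu]; norm_num

theorem nt_val10 {n x : ℕ} {J : ℤ} {u : ℝ} (hn : 0 < n) (hJ : IsCoprime J ((4 * n : ℕ) : ℤ))
    (hx : 10 * x = n ∨ 10 * x = 3 * n) (hu : u = vf n J x ∨ u = 1 - vf n J x) :
    u = 1 / 10 ∨ u = 3 / 10 ∨ u = 7 / 10 ∨ u = 9 / 10 := by
  have h2 : J % 2 ≠ 0 := by
    have := nt_mod (p := 2) hJ ⟨2 * n, by ring⟩ (by norm_num)
    exact_mod_cast this
  have h2' : J % 5 ≠ 0 := by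
    have h5 : 5 ∣ n := by omega
    have := nt_mod (p := 5) hJ (Dvd.dvd.mul_left h5 4) (by norm_num)
    exact_mod_cast this
  have h3 : vf n J x = 1 / 10 ∨ vf n J x = 3 / 10 ∨ vf n J x = 7 / 10 ∨ vf n J x = 9 / 10 := by
    rcases hx with hx | hx
    · have h1 := nt_vf (x := x) (c := 1) (d := 10) hn (by norm_num) (by omega) J
      have h3 : J * ((1 : ℕ) : ℤ) % ((10 : ℕ) : ℤ) = 1 ∨ J * ((1 : ℕ) : ℤ) % ((10 : ℕ) : ℤ) = 3 ∨
          J * ((1 : ℕ) : ℤ) % ((10 : ℕ) : ℤ) = 7 ∨ J * ((1 : ℕ) : ℤ) % ((10 : ℕ) : ℤ) = 9 := by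
        push_cast
        omega
      rcases h3 with h3 | h3 | h3 | h3 <;> rw [h3] at h1 <;> push_cast at h1 <;> rw [h1] <;> simp
    · have h1 := nt_vf (x := x) (c := 3) (d := 10) hn (by norm_num) (by omega) J
      have h3 : J * ((3 : ℕ) : ℤ) % ((10 : ℕ) : ℤ) = 1 ∨ J * ((3 : ℕ) : ℤ) % ((10 : ℕ) : ℤ) = 3 ∨
          J * ((3 : ℕ) : ℤ) % ((10 : ℕ) : ℤ) = 7 ∨ J * ((3 : ℕ) : ℤ) % ((10 : ℕ) : ℤ) = 9 := by
        push_cast
        omega
      rcases h3 with h3 | h3 | h3 | h3 <;> rw [h3] at h1 <;> push_cast at h1 <;> rw [h1] <;> simp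
  rcases hu with hu | hu <;> rw [hu] <;> rcases h3 with h3 | h3 | h3 | h3 <;> rw [h3] <;> norm_num

theorem nt_B (h : S_NTA) {n : ℕ} {a P : Fin 3 → ℕ} (hn : 0 < n) (ha : ∀ k, 0 < a k)
    (hlt : ∀ k, a k < n) (hs : a 0 + a 1 + a 2 = n) (hW : nt_W n a P)
    (hP : P 0 * a 0 + P 1 * a 1 + P 2 * a 2 = n) {i j k : Fin 3} (hij : i ≠ j) (hjk : j ≠ k)
    (hik : i ≠ k) (hk : P k = 0) (hj : 0 < P j) (hji : P j ≤ P i) (h3 : 3 ≤ P i + P j) :
    NTout n a P := by
  have hs' : a i + a j + a k = n := by rw [← nt_sum3 hij hjk hik a, hs]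
  have hP' : P i * a i + P j * a j = n := by
    have := nt_sum3 hij hjk hik (fun l => P l * a l)
    rw [this, hk, zero_mul, add_zero] at hP
    exact hP
  have hW' : ∀ w : Fin 3 → ℝ, (P 0 : ℝ) * w 0 + P 1 * w 1 + P 2 * w 2 = 1 →
      (P i : ℝ) * w i + P j * w j = 1 := by
    intro w hw
    have := nt_sum3 hij hjk hik (fun l => (P l : ℝ) * w l)
    rw [this, hk, Nat.cast_zero, zero_mul, add_zero] at hw
    exact hw
  have hai := ha i
  have haj := ha j
  have hak := ha k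
  have hm : 0 < P j * a j := Nat.mul_pos hj haj
  rcases Nat.lt_or_ge (P i) 3 with hp | hp
  · have hi2 : P i = 2 := by omega
    rw [hi2] at hP' hji h3
    have hj12 : P j = 1 ∨ P j = 2 := by omega
    rcases hj12 with hj1 | hj2
    · exact Or.inr (Or.inr (Or.inr (Or.inl ⟨i, j, k, hij, hjk, hik, hi2, hj1, hk⟩)))
    · rw [hj2] at hP'
      exact Or.inr (Or.inr (Or.inl ⟨i, j, k, hij, hjk, hik, hi2, hj2, hk, by omega⟩))
  have hjr : (0 : ℝ) < P j := by exact_mod_cast hj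
  have hir : (0 : ℝ) < P i := by exact_mod_cast (by omega : 0 < P i)
  have hbd : ∀ J : ℤ, IsCoprime J ((4 * n : ℕ) : ℤ) → ∀ w : Fin 3 → ℝ, (∀ k, 0 < w k) →
      w 0 + w 1 + w 2 = 1 → (P 0 : ℝ) * w 0 + P 1 * w 1 + P 2 * w 2 = 1 →
      ((∀ k, w k = vf n J (a k)) ∨ ∀ k, w k = 1 - vf n J (a k)) → w i < 1 / (P i : ℕ) := by
    intro J _ w w1 _ w3 _
    have := hW' w w3
    rw [lt_div_iff₀ hir, mul_comm]
    have := mul_pos hjr (w1 j)
    linarith
  have hor : ∀ {J : ℤ} {w : Fin 3 → ℝ},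
      ((∀ k, w k = vf n J (a k)) ∨ ∀ k, w k = 1 - vf n J (a k)) → ∀ l,
      w l = vf n J (a l) ∨ w l = 1 - vf n J (a l) := by
    intro J w hw l
    rcases hw with hw | hw
    · exact Or.inl (hw l)
    · exact Or.inr (hw l)
  -- no weight is always below 1/6
  have hno : (∀ J : ℤ, IsCoprime J ((4 * n : ℕ) : ℤ) → ∀ w : Fin 3 → ℝ, (∀ k, 0 < w k) →
      w 0 + w 1 + w 2 = 1 → (P 0 : ℝ) * w 0 + P 1 * w 1 + P 2 * w 2 = 1 →
      ((∀ k, w k = vf n J (a k)) ∨ ∀ k, w k = 1 - vf n J (a k)) → w j < 1 / (6 : ℕ)) → False := by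
    intro hb
    rcases nt_use h hn ha hlt hW j 6 (by norm_num) hb with ⟨h1, -⟩ | ⟨h1, -⟩ | ⟨h1, -⟩ <;>
      norm_num at h1
  have houtd : ∀ d : ℕ, (d = 3 ∨ d = 4 ∨ d = 6) → (∃ m, d * a i = m * n) → (∃ m, d * a j = m * n) →
      NTout n a P := by
    intro d hd h1 h2
    refine Or.inr (Or.inl ⟨d, hd, fun l hl => ?_⟩)
    by_cases hli : l = i
    · rw [hli]
      exact h1
    · by_cases hlj : l = j
      · rw [hlj]
        exact h2
      · have : l = k := nt_third i j k l hij hjk hik hli hlj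
        rw [this, hk] at hl
        exact absurd hl (lt_irrefl 0)
  rcases nt_use h hn ha hlt hW i (P i) hp hbd with ⟨hp3, hx⟩ | ⟨hp5, hx⟩ | ⟨hp3, hx⟩
  · -- one quarter
    rw [hp3] at hP' hji
    have hx4 : 4 * a i = n := by
      generalize P j * a j = m at hP' hm
      omega
    rcases Nat.lt_or_ge (P j) 2 with hj1 | hj2
    · have hj1' : P j = 1 := by omega
      rw [hj1'] at hP'
      exact houtd 4 (by norm_num) ⟨1, by omega⟩ ⟨1, by omega⟩
    · exfalso
      apply hno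
      intro J hJ w w1 w2 w3 w4
      have h1 := hW' w w3
      have h2 := hbd J hJ w w1 w2 w3 w4
      rw [hp3] at h1 h2
      have hj2r : (2 : ℝ) ≤ P j := by exact_mod_cast hj2
      have h4 := mul_le_mul_of_nonneg_right hj2r (w1 j).le
      push_cast at h1 h2 ⊢
      rcases nt_val4 hn hJ hx4 (hor w4 i) with h3 | h3
      · rw [h3] at h1
        linarith
      · rw [h3] at h2
        norm_num at h2
  · -- one sixth
    have hx6 : 6 * a i = n := by
      have h31 : 3 * a i ≤ P i * a i := Nat.mul_le_mul_right _ hp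
      generalize P j * a j = m at hP' hm
      generalize P i * a i = m' at hP' h31
      omega
    have hw6 : ∀ J : ℤ, IsCoprime J ((4 * n : ℕ) : ℤ) → ∀ w : Fin 3 → ℝ, (∀ k, 0 < w k) →
      w 0 + w 1 + w 2 = 1 → (P 0 : ℝ) * w 0 + P 1 * w 1 + P 2 * w 2 = 1 →
      ((∀ k, w k = vf n J (a k)) ∨ ∀ k, w k = 1 - vf n J (a k)) → w i = 1 / 6 := by
      intro J hJ w w1 w2 w3 w4
      have h2 := hbd J hJ w w1 w2 w3 w4
      rcases nt_val6 hn hJ hx6 (hor w4 i) with h3 | h3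
      · exact h3
      · exfalso
        rw [h3, lt_div_iff₀ hir] at h2
        have hpr : (3 : ℝ) ≤ P i := by exact_mod_cast hp
        linarith
    obtain ⟨p, hpe⟩ : ∃ p, p = P i := ⟨_, rfl⟩
    obtain ⟨q, hqe⟩ : ∃ q, q = P j := ⟨_, rfl⟩
    rw [← hpe] at hp hp5 hji hP'
    rw [← hqe] at hji hj hP'
    have hsm : 6 < p + q → False := by
      intro hpq
      apply hno
      intro J hJ w w1 w2 w3 w4
      have h1 := hW' w w3
      have h2 := hw6 J hJ w w1 w2 w3 w4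
      rw [h2, ← hpe, ← hqe] at h1
      have hpq' : (7 : ℝ) ≤ p + q := by exact_mod_cast hpq
      push_cast
      have hq0 : (0 : ℝ) < q := by exact_mod_cast hj
      by_contra hcon
      rw [not_lt] at hcon
      have := mul_le_mul_of_nonneg_left hcon hq0.le
      linarith
    have hpq : (p = 3 ∧ q = 1) ∨ (p = 3 ∧ q = 2) ∨ (p = 3 ∧ q = 3) ∨ (p = 4 ∧ q = 1) ∨
        (p = 4 ∧ q = 2) ∨ (p = 5 ∧ q = 1) := by
      by_contra hcon
      apply hsm
      omega
    rcases hpq with ⟨rfl, rfl⟩ | ⟨rfl, rfl⟩ | ⟨rfl, rfl⟩ | ⟨rfl, rfl⟩ | ⟨rfl, rfl⟩ | ⟨rfl, rfl⟩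
    · exact houtd 6 (by norm_num) ⟨1, by omega⟩ ⟨3, by omega⟩
    · -- the exceptional case
      exfalso
      have hj4 : 4 * a j = 1 * n := by omega
      obtain ⟨J, hJ, hJm⟩ := nt_lift (4 * n) 12 7 (by omega) (by norm_num) (by
        rw [Int.isCoprime_iff_gcd_eq_one]
        rfl)
      obtain ⟨w, w1, w2, w3, w4⟩ := hW J hJ
      have h1 := hW' w w3
      have h2 := hw6 J hJ w w1 w2 w3 w4
      rw [h2, ← hpe, ← hqe] at h1
      have e1 := nt_vf (x := a i) (c := 1) (d := 6) hn (by norm_num) (by omega) J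
      have e2 := nt_vf (x := a j) (c := 1) (d := 4) hn (by norm_num) (by omega) J
      have e3 : J * ((1 : ℕ) : ℤ) % ((6 : ℕ) : ℤ) = 1 := by
        push_cast at hJm ⊢
        omega
      have e4 : J * ((1 : ℕ) : ℤ) % ((4 : ℕ) : ℤ) = 3 := by
        push_cast at hJm ⊢
        omega
      rw [e3] at e1
      rw [e4] at e2
      push_cast at e1 e2 h1
      rcases w4 with w4 | w4
      · have := w4 j
        rw [e2] at this
        rw [this] at h1
        norm_num at h1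
      · have := w4 i
        rw [e1, h2] at this
        norm_num at this
    · exact houtd 6 (by norm_num) ⟨1, by omega⟩ ⟨1, by omega⟩
    · exact houtd 6 (by norm_num) ⟨1, by omega⟩ ⟨2, by omega⟩
    · exact houtd 6 (by norm_num) ⟨1, by omega⟩ ⟨1, by omega⟩
    · exact houtd 6 (by norm_num) ⟨1, by omega⟩ ⟨1, by omega⟩
  · -- tenths
    rw [hp3] at hP' hji
    have hx10 : 10 * a i = n ∨ 10 * a i = 3 * n := by
      generalize P j * a j = m at hP' hm
      omega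
    have hq : P j = 1 ∨ P j = 2 ∨ P j = 3 := by omega
    have hw10 : ∀ J : ℤ, IsCoprime J ((4 * n : ℕ) : ℤ) → ∀ w : Fin 3 → ℝ, (∀ k, 0 < w k) →
      w 0 + w 1 + w 2 = 1 → (P 0 : ℝ) * w 0 + P 1 * w 1 + P 2 * w 2 = 1 →
      ((∀ k, w k = vf n J (a k)) ∨ ∀ k, w k = 1 - vf n J (a k)) → w i = 1 / 10 ∨ w i = 3 / 10 := by
      intro J hJ w w1 w2 w3 w4
      have h2 := hbd J hJ w w1 w2 w3 w4
      rw [hp3] at h2
      push_cast at h2
      rcases nt_val10 hn hJ hx10 (hor w4 i) with h3 | h3 | h3 | h3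
      · exact Or.inl h3
      · exact Or.inr h3
      · rw [h3] at h2
        norm_num at h2
      · rw [h3] at h2
        norm_num at h2
    rcases hq with hq | hq | hq
    · rw [hq] at hP'
      refine Or.inr (Or.inr (Or.inr (Or.inr ⟨i, j, k, hij, hjk, hik, hp3, hq, hk, ?_⟩)))
      omega
    · -- q = 2
      exfalso
      rw [hq] at hP'
      have hsec : (10 * a i = 1 * n ∧ 20 * a j = 7 * n) ∨ (10 * a i = 3 * n ∧ 20 * a j = 1 * n) := by
        omega
      have hJ0 : ∃ J : ℤ, IsCoprime J ((4 * n : ℕ) : ℤ) ∧ vf n J (a i) = 9 / 10 ∧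
          vf n J (a j) = 3 / 20 := by
        rcases hsec with ⟨s1, s2⟩ | ⟨s1, s2⟩
        · obtain ⟨J, hJ, hJm⟩ := nt_lift (4 * n) 20 9 (by omega) (by norm_num) (by
            rw [Int.isCoprime_iff_gcd_eq_one]
            rfl)
          refine ⟨J, hJ, ?_, ?_⟩
          · rw [nt_vf hn (by norm_num) s1 J]
            have e3 : J * ((1 : ℕ) : ℤ) % ((10 : ℕ) : ℤ) = 9 := by
              push_cast at hJm ⊢
              omega
            rw [e3]
            norm_num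
          · rw [nt_vf hn (by norm_num) s2 J]
            have e3 : J * ((7 : ℕ) : ℤ) % ((20 : ℕ) : ℤ) = 3 := by
              push_cast at hJm ⊢
              omega
            rw [e3]
            norm_num
        · obtain ⟨J, hJ, hJm⟩ := nt_lift (4 * n) 20 3 (by omega) (by norm_num) (by
            rw [Int.isCoprime_iff_gcd_eq_one]
            rfl)
          refine ⟨J, hJ, ?_, ?_⟩
          · rw [nt_vf hn (by norm_num) s1 J]
            have e3 : J * ((3 : ℕ) : ℤ) % ((10 : ℕ) : ℤ) = 9 := by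
              push_cast at hJm ⊢
              omega
            rw [e3]
            norm_num
          · rw [nt_vf hn (by norm_num) s2 J]
            have e3 : J * ((1 : ℕ) : ℤ) % ((20 : ℕ) : ℤ) = 3 := by
              push_cast at hJm ⊢
              omega
            rw [e3]
            norm_num
      obtain ⟨J, hJ, e1, e2⟩ := hJ0
      obtain ⟨w, w1, w2, w3, w4⟩ := hW J hJ
      have h1 := hW' w w3
      rw [hp3, hq] at h1
      push_cast at h1
      rcases w4 with w4' | w4'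
      · have f1 := w4' i
        rw [e1] at f1
        rcases hw10 J hJ w w1 w2 w3 (Or.inl w4') with h5 | h5 <;> rw [h5] at f1 <;> norm_num at f1
      · have f1 := w4' i
        have f2 := w4' j
        rw [e1] at f1
        rw [e2] at f2
        rw [f1, f2] at h1
        norm_num at h1
    · -- q = 3
      exfalso
      rw [hq] at hP'
      have hb4 := nt_use h hn ha hlt hW j 4 (by norm_num) (fun J hJ w w1 w2 w3 w4 => by
        have h1 := hW' w w3
        rw [hp3, hq] at h1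
        push_cast at h1 ⊢
        rcases hw10 J hJ w w1 w2 w3 w4 with h5 | h5 <;> rw [h5] at h1 <;> linarith)
      omega

theorem nt_A (h : S_NTA) {n : ℕ} {a P : Fin 3 → ℕ} (hn : 0 < n) (ha : ∀ k, 0 < a k)
    (hlt : ∀ k, a k < n) (hW : nt_W n a P)
    (hP : P 0 * a 0 + P 1 * a 1 + P 2 * a 2 = n) {i j k : Fin 3} (hij : i ≠ j) (hjk : j ≠ k)
    (hik : i ≠ k) (hk : P k = 0) (hj : P j = 0) (h3 : 3 ≤ P i) :
    NTout n a P := by
  have hP' : P i * a i = n := by
    have := nt_sum3 hij hjk hik (fun l => P l * a l)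
    rw [this, hk, hj, zero_mul, zero_mul, add_zero, add_zero] at hP
    exact hP
  have hW' : ∀ w : Fin 3 → ℝ, (P 0 : ℝ) * w 0 + P 1 * w 1 + P 2 * w 2 = 1 →
      (P i : ℝ) * w i = 1 := by
    intro w hw
    have := nt_sum3 hij hjk hik (fun l => (P l : ℝ) * w l)
    rw [this, hk, hj, Nat.cast_zero, zero_mul, zero_mul, add_zero, add_zero] at hw
    exact hw
  have hai := ha i
  have houtd : ∀ d : ℕ, (d = 3 ∨ d = 4 ∨ d = 6) → P i = d → NTout n a P := by
    intro d hd h1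
    refine Or.inr (Or.inl ⟨d, hd, fun l hl => ?_⟩)
    by_cases hli : l = i
    · rw [hli]
      exact ⟨1, by rw [← h1, hP', one_mul]⟩
    · exfalso
      by_cases hlj : l = j
      · rw [hlj, hj] at hl
        exact absurd hl (lt_irrefl 0)
      · have : l = k := nt_third i j k l hij hjk hik hli hlj
        rw [this, hk] at hl
        exact absurd hl (lt_irrefl 0)
  rcases Nat.lt_or_ge (P i) 4 with h4 | h4
  · exact houtd 3 (by norm_num) (by omega)
  · obtain ⟨p, hp⟩ : ∃ p, P i = p + 1 := ⟨P i - 1, by omega⟩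
    have hp0 : (0 : ℝ) < p := by exact_mod_cast (by omega : 0 < p)
    have hu := nt_use h hn ha hlt hW i p (by omega) (fun J hJ w w1 w2 w3 w4 => by
      have h1 := hW' w w3
      rw [hp] at h1
      push_cast at h1
      rw [lt_div_iff₀ hp0]
      have := w1 i
      linarith)
    rw [hp] at hP'
    rcases hu with ⟨h1, -⟩ | ⟨-, h1 | h1⟩ | ⟨h1, -⟩
    · exact houtd 4 (by norm_num) (by omega)
    · have h2 : (p + 1) * a i = 6 * a i := by rw [hP', h1]
      have h3 := Nat.eq_of_mul_eq_mul_right hai h2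
      exact houtd 6 (by norm_num) (by omega)
    · exfalso
      have h2 : (5 * (p + 1)) * a i = 6 * a i := by rw [mul_assoc, hP', h1]
      have h3 := Nat.eq_of_mul_eq_mul_right hai h2
      omega
    · exact houtd 4 (by norm_num) (by omega)

/-- Job NT. -/
theorem t_NT (h : S_NTA) : S_NT := by
  intro n a P hn ha hs h3 hyp
  have hlt : ∀ k, a k < n := by
    intro k
    have h0 := ha 0
    have h1 := ha 1
    have h2 := ha 2
    fin_cases k
    · change a 0 < n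
      omega
    · change a 1 < n
      omega
    · change a 2 < n
      omega
  have hW := nt_getW hn ha hs hyp
  have hn' : (n : ℝ) ≠ 0 := by exact_mod_cast hn.ne'
  have hn0 : (0 : ℝ) < n := by exact_mod_cast hn
  have hv1 : ∀ k, vf n 1 (a k) = (a k : ℝ) / n := by
    intro k
    unfold vf
    rw [Int.cast_one, one_mul]
    refine Int.fract_eq_self.2 ⟨by positivity, ?_⟩
    rw [div_lt_one hn0]
    exact_mod_cast hlt k
  have hP : P 0 * a 0 + P 1 * a 1 + P 2 * a 2 = n := by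
    have h1 := hyp 1 isCoprime_one_left (by
      rw [hv1, hv1, hv1, ← add_div, ← add_div, div_eq_one_iff_eq hn']
      exact_mod_cast hs)
    rw [hv1, hv1, hv1] at h1
    field_simp at h1
    exact_mod_cast h1
  -- the zeros of `P`
  by_cases hz : ∃ k, P k = 0
  · obtain ⟨k, hk⟩ := hz
    obtain ⟨i, j, hij, hjk, hik⟩ := nt_others k
    have hsum : 3 ≤ P i + P j := by
      have := nt_sum3 hij hjk hik P
      omega
    rcases Nat.eq_zero_or_pos (P j) with hj | hj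
    · exact nt_A h hn ha hlt hW hP hij hjk hik hk hj (by omega)
    · rcases Nat.eq_zero_or_pos (P i) with hi | hi
      · exact nt_A h hn ha hlt hW hP hij.symm hik hjk hk hi (by omega)
      · rcases le_total (P j) (P i) with hle | hle
        · exact nt_B h hn ha hlt hs hW hP hij hjk hik hk hj hle hsum
        · exact nt_B h hn ha hlt hs hW hP hij.symm hik hjk hk hi hle (by omega)
  · left
    push Not at hz
    have hpos : ∀ k, a k ≤ P k * a k := fun k =>
      Nat.le_mul_of_pos_left _ (Nat.pos_of_ne_zero (hz k))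
    have p0 := hpos 0
    have p1 := hpos 1
    have p2 := hpos 2
    have he : ∀ k, P k * a k = 1 * a k := by
      intro k
      fin_cases k
      · change P 0 * a 0 = 1 * a 0
        omega
      · change P 1 * a 1 = 1 * a 1
        omega
      · change P 2 * a 2 = 1 * a 2
        omega
    exact fun k => Nat.eq_of_mul_eq_mul_right (ha k) (he k)

end Q16.SQ
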