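import Mathlib

set_option autoImplicit false

/-!
# A set of permutations with almost minimal edge boundary far from unions of 1-cosets

Counting lemmas for the disproof of the edge-isoperimetric stability statement for `c` close to `n`
(problem MP_e2957e_co).  The set is the complement of
`D = {σ 0 = 0} ∪ {σ 1 = 1} ∪ {σ 0 = 1, σ 1 = 0}`.
-/

open Finset

namespace Pool.Agent.Q285.SnEdge

theorem card_agree {n : ℕ} (s : Finset (Fin n)) (ρ : Equiv.Perm (Fin n)) :
    (Finset.univ.filter (fun σ : Equiv.Perm (Fin n) => ∀ i ∈ s, σ i = ρ i)).card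
      = (n - s.card).factorial := by
  classical
  have h1 : (Finset.univ.filter (fun σ : Equiv.Perm (Fin n) => ∀ i ∈ s, σ i = ρ i)).card
      = (Finset.univ.filter (fun σ : Equiv.Perm (Fin n) => ∀ i, ¬ (i ∉ s) → σ i = i)).card := by
    apply Finset.card_bij' (fun σ _ => ρ⁻¹ * σ) (fun σ _ => ρ * σ)
    · intro σ hσ
      simp only [mem_filter, mem_univ, true_and, not_not] at hσ ⊢
      intro i hi
      simp [hσ i hi]
    · intro σ hσ
      simp only [mem_filter, mem_univ, true_and, not_not] at hσ ⊢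
      intro i hi
      simp [hσ i hi]
    · intro σ _; simp
    · intro σ _; simp
  rw [h1, ← Fintype.card_subtype]
  rw [← Fintype.card_congr (Equiv.Perm.subtypeEquivSubtypePerm (fun i => i ∉ s)), Fintype.card_perm]
  congr 1
  rw [Fintype.card_subtype]
  have : (Finset.univ.filter (fun x => x ∉ s)) = sᶜ := by ext x; simp
  rw [this, Finset.card_compl, Fintype.card_fin]

/-- Bonferroni. -/
theorem bonferroni {ι α : Type*} [DecidableEq ι] [DecidableEq α] (X : ι → Finset α) (u v : ℕ)
    (Q : Finset ι) (h1 : ∀ p ∈ Q, u ≤ (X p).card)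
    (h2 : ∀ p ∈ Q, ∀ q ∈ Q, p ≠ q → (X p ∩ X q).card ≤ v) :
    Q.card * u ≤ (Q.biUnion X).card + Q.card ^ 2 * v := by
  induction Q using Finset.induction_on with
  | empty => simp
  | insert a Q ha ih =>
    have ih' := ih (fun p hp => h1 p (mem_insert_of_mem hp))
      (fun p hp q hq => h2 p (mem_insert_of_mem hp) q (mem_insert_of_mem hq))
    rw [card_insert_of_notMem ha, biUnion_insert]
    have h3 : (X a ∩ Q.biUnion X).card ≤ Q.card * v := by
      rw [inter_biUnion]
      refine le_trans card_biUnion_le ?_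
      rw [← smul_eq_mul]
      apply Finset.sum_le_card_nsmul
      intro q hq
      exact h2 a (mem_insert_self _ _) q (mem_insert_of_mem hq) (fun h => ha (h ▸ hq))
    have h4 := card_union_add_card_inter (X a) (Q.biUnion X)
    have h5 := h1 a (mem_insert_self _ _)
    nlinarith

variable (m : ℕ)

/-- The complement of the example. -/
def D : Finset (Equiv.Perm (Fin (m + 3))) :=
  univ.filter (fun σ => σ 0 = 0 ∨ σ 1 = 1 ∨ (σ 0 = 1 ∧ σ 1 = 0))

theorem mem_D (σ : Equiv.Perm (Fin (m + 3))) :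
    σ ∈ D m ↔ (σ 0 = 0 ∨ σ 1 = 1 ∨ (σ 0 = 1 ∧ σ 1 = 0)) := by
  simp [D]

theorem c1 (a : Fin (m + 3)) :
    (univ.filter (fun σ : Equiv.Perm (Fin (m + 3)) => σ a = a)).card = (m + 2).factorial := by
  have h := card_agree {a} (1 : Equiv.Perm (Fin (m + 3)))
  simpa using h

theorem c3 : (univ.filter (fun σ : Equiv.Perm (Fin (m + 3)) => σ 0 = 0 ∧ σ 1 = 1)).card
    = (m + 1).factorial := by
  have h := card_agree {0, 1} (1 : Equiv.Perm (Fin (m + 3)))
  simpa using h

theorem c4 : (univ.filter (fun σ : Equiv.Perm (Fin (m + 3)) => σ 0 = 1 ∧ σ 1 = 0)).card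
    = (m + 1).factorial := by
  have h := card_agree {0, 1} (Equiv.swap 0 1 : Equiv.Perm (Fin (m + 3)))
  simpa using h

theorem card_D : (D m).card = 2 * (m + 2).factorial := by
  have h1 : D m = (univ.filter (fun σ : Equiv.Perm (Fin (m + 3)) => σ 0 = 0)
      ∪ univ.filter (fun σ : Equiv.Perm (Fin (m + 3)) => σ 1 = 1))
      ∪ univ.filter (fun σ : Equiv.Perm (Fin (m + 3)) => σ 0 = 1 ∧ σ 1 = 0) := by
    ext σ; simp [D]
  have h2 : Disjoint (univ.filter (fun σ : Equiv.Perm (Fin (m + 3)) => σ 0 = 0)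
      ∪ univ.filter (fun σ : Equiv.Perm (Fin (m + 3)) => σ 1 = 1))
      (univ.filter (fun σ : Equiv.Perm (Fin (m + 3)) => σ 0 = 1 ∧ σ 1 = 0)) := by
    rw [Finset.disjoint_left]
    intro σ
    simp only [mem_union, mem_filter, mem_univ, true_and, not_and]
    rintro (h | h) h'
    · rw [h] at h'; simp at h'
    · rw [h]; simp
  rw [h1, card_union_of_disjoint h2, c4]
  have h3 := card_union_add_card_inter
    (univ.filter (fun σ : Equiv.Perm (Fin (m + 3)) => σ 0 = 0))
    (univ.filter (fun σ : Equiv.Perm (Fin (m + 3)) => σ 1 = 1))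
  rw [← filter_and, c3, c1, c1] at h3
  omega

/-- The transpositions. -/
abbrev prs : Finset (Fin (m + 3) × Fin (m + 3)) := univ.filter (fun p => p.1 < p.2)

theorem swap_of_ne {m : ℕ} (σ : Equiv.Perm (Fin (m + 3))) {p : Fin (m + 3) × Fin (m + 3)}
    {a : Fin (m + 3)} (h1 : a ≠ p.1) (h2 : a ≠ p.2) : (σ * Equiv.swap p.1 p.2) a = σ a := by
  simp [Equiv.swap_apply_of_ne_of_ne h1 h2]

/-- Number of boundary edges at a permutation. -/
def w (σ : Equiv.Perm (Fin (m + 3))) : ℕ :=
  if σ 0 = 0 ∧ σ 1 = 1 then 0 else if σ 0 = 1 ∧ σ 1 = 0 then 2 * (m + 1) else m + 2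

theorem lt_two {m : ℕ} {a : Fin (m + 3)} : a < 1 ↔ a = 0 := by
  constructor
  · intro h
    have : a.val < (1 : Fin (m + 3)).val := h
    simp at this
    ext; simpa using this
  · rintro rfl
    simp

theorem deg_le (σ : Equiv.Perm (Fin (m + 3))) (hσ : σ ∈ D m) :
    ((prs m).filter (fun p => σ * Equiv.swap p.1 p.2 ∉ D m)).card ≤ w m σ := by
  have h01 : (0 : Fin (m + 3)) ≠ 1 := by simp
  unfold w
  split_ifs with h h'
  · rw [Nat.le_zero, card_eq_zero, filter_eq_empty_iff]
    intro p hp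
    simp only [mem_filter, mem_univ, true_and] at hp
    rw [not_not, mem_D]
    by_cases h0 : 0 = p.1
    · by_cases h1 : 1 = p.2
      · right; right
        rw [← h0, ← h1]
        simp [h.1, h.2]
      · right; left
        rw [swap_of_ne σ (by rw [← h0]; exact h01.symm) h1]
        exact h.2
    · left
      rw [swap_of_ne σ h0 (by rintro h2; rw [← h2] at hp; simp at hp)]
      exact h.1
  · -- (1, 0)
    have : (prs m).filter (fun p => σ * Equiv.swap p.1 p.2 ∉ D m)
        ⊆ ({0, 1} : Finset (Fin (m + 3))) ×ˢ (({0, 1} : Finset (Fin (m + 3)))ᶜ) := by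
      intro p
      simp only [mem_filter, mem_univ, true_and, mem_product, mem_insert, mem_singleton,
        mem_compl, not_or]
      rintro ⟨hp, hD⟩
      rw [mem_D] at hD
      push Not at hD
      by_cases h0 : p.1 = 0
      · refine ⟨Or.inl h0, ?_, ?_⟩
        · rw [h0] at hp; exact hp.ne'
        · intro h1
          apply hD.1
          rw [h0, h1]
          simp [h'.2]
      · have h2 : p.2 ≠ 0 := by rintro h2; rw [h2] at hp; simp at hp
        by_cases h1 : p.1 = 1
        · exact ⟨Or.inr h1, h2, by rw [h1] at hp; exact hp.ne'⟩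
        · exfalso
          have h3 : p.2 ≠ 1 := by
            rintro h3; rw [h3, lt_two] at hp; exact h0 hp
          apply hD.2.2
          · rw [swap_of_ne σ (Ne.symm h0) (Ne.symm h2)]; exact h'.1
          · rw [swap_of_ne σ (Ne.symm h1) (Ne.symm h3)]; exact h'.2
    refine le_trans (card_le_card this) ?_
    rw [card_product, card_compl, Fintype.card_fin]
    simp
  · rw [mem_D] at hσ
    rcases hσ with h0 | h1 | h2
    · have : (prs m).filter (fun p => σ * Equiv.swap p.1 p.2 ∉ D m)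
        ⊆ (univ.erase (0 : Fin (m + 3))).image (fun j => ((0 : Fin (m + 3)), j)) := by
        intro p
        simp only [mem_filter, mem_univ, true_and, mem_image, mem_erase, and_true]
        rintro ⟨hp, hD⟩
        rw [mem_D] at hD
        push Not at hD
        have h3 : p.2 ≠ 0 := by rintro h2; rw [h2] at hp; simp at hp
        refine ⟨p.2, h3, ?_⟩
        by_contra h4
        apply hD.1
        rw [swap_of_ne σ _ h3.symm]
        · exact h0
        · rintro h5; apply h4; rw [h5]
      refine le_trans (card_le_card this) (le_trans card_image_le ?_)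
      simp
    · have : (prs m).filter (fun p => σ * Equiv.swap p.1 p.2 ∉ D m)
        ⊆ (univ.erase (1 : Fin (m + 3))).image
          (fun j => if j = 0 then ((0 : Fin (m + 3)), (1 : Fin (m + 3))) else (1, j)) := by
        intro p
        simp only [mem_filter, mem_univ, true_and, mem_image, mem_erase, and_true]
        rintro ⟨hp, hD⟩
        rw [mem_D] at hD
        push Not at hD
        have h3 : p.2 ≠ 0 := by rintro h2; rw [h2] at hp; simp at hp
        by_cases h4 : p.1 = 1
        · refine ⟨p.2, by rw [h4] at hp; exact hp.ne', ?_⟩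
          rw [if_neg h3, ← h4]
        · by_cases h5 : p.2 = 1
          · refine ⟨0, h01, ?_⟩
            rw [if_pos rfl]
            rw [h5, lt_two] at hp
            rw [← h5, ← hp]
          · exfalso
            apply hD.2.1
            rw [swap_of_ne σ (Ne.symm h4) (Ne.symm h5)]
            exact h1
      refine le_trans (card_le_card this) (le_trans card_image_le ?_)
      simp
    · exact absurd h2 h'

theorem sum_w : ∑ σ ∈ D m, w m σ
    = 2 * (m + 1) * (m + 1).factorial + (m + 2) * (2 * (m + 2).factorial - 2 * (m + 1).factorial) := by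
  have h1 : ∀ σ ∈ D m, w m σ = (m + 2) - (if σ 0 = 0 ∧ σ 1 = 1 then (m + 2) else 0)
      + (if σ 0 = 1 ∧ σ 1 = 0 then m else 0) := by
    intro σ _
    unfold w
    split_ifs with h h' h'
    · rw [h.1] at h'; simp at h'
    · simp
    · omega
    · omega
  have h2 : ∑ σ ∈ D m, w m σ + ∑ σ ∈ D m, (if σ 0 = 0 ∧ σ 1 = 1 then (m + 2) else 0)
      = (D m).card * (m + 2) + ∑ σ ∈ D m, (if σ 0 = 1 ∧ σ 1 = 0 then m else 0) := by
    rw [← smul_eq_mul, ← Finset.sum_const, ← sum_add_distrib, ← sum_add_distrib]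
    apply sum_congr rfl
    intro σ hσ
    rw [h1 σ hσ]
    split_ifs <;> omega
  rw [← sum_filter, ← sum_filter, sum_const, sum_const, smul_eq_mul, smul_eq_mul, card_D] at h2
  have h3 : (D m).filter (fun σ => σ 0 = 0 ∧ σ 1 = 1)
      = univ.filter (fun σ : Equiv.Perm (Fin (m + 3)) => σ 0 = 0 ∧ σ 1 = 1) := by
    ext σ
    simp only [mem_filter, mem_D, mem_univ, true_and, and_iff_right_iff_imp]
    exact fun h => Or.inl h.1
  have h4 : (D m).filter (fun σ => σ 0 = 1 ∧ σ 1 = 0)
      = univ.filter (fun σ : Equiv.Perm (Fin (m + 3)) => σ 0 = 1 ∧ σ 1 = 0) := by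
    ext σ
    simp only [mem_filter, mem_D, mem_univ, true_and, and_iff_right_iff_imp]
    exact fun h => Or.inr (Or.inr h)
  rw [h3, h4, c3, c4] at h2
  have h5 : (m + 2).factorial = (m + 2) * (m + 1).factorial := Nat.factorial_succ _
  rw [h5] at h2 ⊢
  have h6 : 2 * ((m + 2) * (m + 1).factorial) - 2 * (m + 1).factorial
      = 2 * (m + 1) * (m + 1).factorial := by
    have : 2 * ((m + 2) * (m + 1).factorial)
        = 2 * (m + 1) * (m + 1).factorial + 2 * (m + 1).factorial := by ring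
    omega
  rw [h6]
  nlinarith

theorem boundary_le :
    ((((D m)ᶜ ×ˢ (prs m)).filter (fun x => x.1 * Equiv.swap x.2.1 x.2.2 ∉ (D m)ᶜ)).card)
      ≤ 2 * (m + 1) * (m + 1).factorial + 2 * (m + 1) * (m + 2).factorial := by
  have h1 : (((D m)ᶜ ×ˢ (prs m)).filter (fun x => x.1 * Equiv.swap x.2.1 x.2.2 ∉ (D m)ᶜ)).card
      ≤ (((D m) ×ˢ (prs m)).filter (fun x => x.1 * Equiv.swap x.2.1 x.2.2 ∉ (D m))).card := by
    apply card_le_card_of_injOn (fun x => (x.1 * Equiv.swap x.2.1 x.2.2, x.2))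
    · intro x hx
      simp only [coe_filter, Set.mem_ofPred_eq, mem_product, mem_compl, not_not] at hx ⊢
      refine ⟨⟨hx.2, hx.1.2⟩, ?_⟩
      simpa [mul_assoc] using hx.1.1
    · rintro ⟨σ, p⟩ _ ⟨τ, q⟩ _ h
      simp only [Prod.mk.injEq] at h
      obtain ⟨h1, rfl⟩ := h
      rw [mul_left_inj] at h1
      rw [h1]
  have h2 : (((D m) ×ˢ (prs m)).filter (fun x => x.1 * Equiv.swap x.2.1 x.2.2 ∉ (D m))).card
      = ∑ σ ∈ D m, ((prs m).filter (fun p => σ * Equiv.swap p.1 p.2 ∉ D m)).card := by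
    rw [card_filter, sum_product]
    apply sum_congr rfl
    intro σ _
    rw [card_filter]
  refine le_trans h1 ?_
  rw [h2]
  refine le_trans (sum_le_sum (deg_le m)) ?_
  rw [sum_w]
  have h5 : (m + 2).factorial = (m + 2) * (m + 1).factorial := Nat.factorial_succ _
  rw [h5]
  have h6 : 2 * ((m + 2) * (m + 1).factorial) - 2 * (m + 1).factorial
      = 2 * (m + 1) * (m + 1).factorial := by
    have : 2 * ((m + 2) * (m + 1).factorial)
        = 2 * (m + 1) * (m + 1).factorial + 2 * (m + 1).factorial := by ring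
    omega
  rw [h6]
  apply le_of_eq
  ring

/-- Many cosets cover a large part of `{σ a = a}`. -/
theorem cover (a : Fin (m + 3)) (Q : Finset (Fin (m + 3) × Fin (m + 3)))
    (hQ : ∀ p ∈ Q, p.1 ≠ a ∧ p.2 ≠ a) (hm : Q.card ^ 2 ≤ m + 1) :
    Q.card * (m + 1).factorial
      ≤ (univ.filter (fun σ : Equiv.Perm (Fin (m + 3)) => σ a = a ∧ ∃ p ∈ Q, σ p.1 = p.2)).card
        + (m + 1).factorial := by
  have h := bonferroni
    (fun p : Fin (m + 3) × Fin (m + 3) => univ.filter (fun σ : Equiv.Perm (Fin (m + 3)) =>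
      σ a = a ∧ σ p.1 = p.2)) (m + 1).factorial m.factorial Q ?_ ?_
  · have h1 : Q.biUnion (fun p => univ.filter (fun σ : Equiv.Perm (Fin (m + 3)) =>
        σ a = a ∧ σ p.1 = p.2))
        = univ.filter (fun σ : Equiv.Perm (Fin (m + 3)) => σ a = a ∧ ∃ p ∈ Q, σ p.1 = p.2) := by
      ext σ
      simp only [mem_biUnion, mem_filter, mem_univ, true_and]
      constructor
      · rintro ⟨p, hp, h1, h2⟩; exact ⟨h1, p, hp, h2⟩
      · rintro ⟨h1, p, hp, h2⟩; exact ⟨p, hp, h1, h2⟩
    rw [h1] at h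
    refine le_trans h (Nat.add_le_add_left ?_ _)
    rw [Nat.factorial_succ]
    exact Nat.mul_le_mul_right _ hm
  · intro p hp
    obtain ⟨h1, h2⟩ := hQ p hp
    have h3 := card_agree {a, p.1} (Equiv.swap p.1 p.2)
    have h4 : (Equiv.swap p.1 p.2) a = a := Equiv.swap_apply_of_ne_of_ne h1.symm h2.symm
    rw [card_pair h1.symm] at h3
    have h5 : m + 3 - 2 = m + 1 := rfl
    rw [h5] at h3
    rw [← h3]
    apply card_le_card
    intro σ
    simp [h4]
  · intro p hp q hq hpq
    obtain ⟨h1, h2⟩ := hQ p hp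
    obtain ⟨h3, h4⟩ := hQ q hq
    by_cases he : ∃ ρ : Equiv.Perm (Fin (m + 3)), ρ a = a ∧ ρ p.1 = p.2 ∧ ρ q.1 = q.2
    · obtain ⟨ρ, r1, r2, r3⟩ := he
      have h5 : p.1 ≠ q.1 := by
        intro h5
        apply hpq
        ext
        · rw [h5]
        · rw [← r2, ← r3, h5]
      have h6 := card_agree {a, p.1, q.1} ρ
      have h7 : ({a, p.1, q.1} : Finset (Fin (m + 3))).card = 3 := by
        rw [card_eq_three]
        exact ⟨a, p.1, q.1, h1.symm, h3.symm, h5, rfl⟩
      rw [h7] at h6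
      have h8 : m + 3 - 3 = m := rfl
      rw [h8] at h6
      rw [← h6]
      apply card_le_card
      intro σ
      simp only [mem_inter, mem_filter, mem_univ, true_and, mem_insert, mem_singleton,
        forall_eq_or_imp, forall_eq]
      rintro ⟨⟨s1, s2⟩, -, s3⟩
      exact ⟨s1.trans r1.symm, s2.trans r2.symm, s3.trans r3.symm⟩
    · have h9 : (univ.filter (fun σ : Equiv.Perm (Fin (m + 3)) => σ a = a ∧ σ p.1 = p.2)) ∩
          (univ.filter (fun σ : Equiv.Perm (Fin (m + 3)) => σ a = a ∧ σ q.1 = q.2)) = ∅ := by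
        rw [eq_empty_iff_forall_notMem]
        intro σ
        simp only [mem_inter, mem_filter, mem_univ, true_and]
        rintro ⟨⟨s1, s2⟩, -, s3⟩
        exact he ⟨σ, s1, s2, s3⟩
      rw [h9]
      simp

/-- The union of the cosets in `P`. -/
abbrev B (P : Finset (Fin (m + 3) × Fin (m + 3))) : Finset (Equiv.Perm (Fin (m + 3))) :=
  univ.filter (fun σ => ∃ p ∈ P, σ p.1 = p.2)

theorem sub_symm (P : Finset (Fin (m + 3) × Fin (m + 3))) (a : Fin (m + 3)) (ha : a = 0 ∨ a = 1)
    (Q : Finset (Fin (m + 3) × Fin (m + 3))) (hQ : Q ⊆ P) :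
    (univ.filter (fun σ : Equiv.Perm (Fin (m + 3)) => σ a = a ∧ ∃ p ∈ Q, σ p.1 = p.2)).card
      ≤ (symmDiff (D m)ᶜ (B m P)).card := by
  apply card_le_card
  intro σ
  simp only [mem_filter, mem_univ, true_and, mem_symmDiff, mem_compl, not_not]
  rintro ⟨h1, p, hp, h2⟩
  right
  refine ⟨⟨p, hQ hp, h2⟩, ?_⟩
  rw [mem_D]
  rcases ha with rfl | rfl
  · exact Or.inl h1
  · exact Or.inr (Or.inl h1)

theorem far (K : ℕ) (hK : K ^ 2 + 2 * K + 1 ≤ m) (P : Finset (Fin (m + 3) × Fin (m + 3)))
    (hP : P.card = m + 1) :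
    K * (m + 1).factorial ≤ (symmDiff (D m)ᶜ (B m P)).card + (m + 1).factorial := by
  have key : ∀ a : Fin (m + 3), (a = 0 ∨ a = 1) →
      K ≤ (P.filter (fun p => p.1 ≠ a ∧ p.2 ≠ a)).card →
      K * (m + 1).factorial ≤ (symmDiff (D m)ᶜ (B m P)).card + (m + 1).factorial := by
    intro a ha hc
    obtain ⟨Q, hQ, hQc⟩ := exists_subset_card_eq hc
    have h1 := cover m a Q (fun p hp => (mem_filter.1 (hQ hp)).2) (by rw [hQc]; nlinarith)
    rw [hQc] at h1
    exact le_trans h1 (Nat.add_le_add_right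
      (sub_symm m P a ha Q (fun p hp => (mem_filter.1 (hQ hp)).1)) _)
  by_cases h0 : ∃ a : Fin (m + 3), (a = 0 ∨ a = 1) ∧ (a, a) ∈ P
  · obtain ⟨a, ha, haP⟩ := h0
    have h1 := sub_symm m P a ha {(a, a)} (by simpa using haP)
    have h2 : (univ.filter (fun σ : Equiv.Perm (Fin (m + 3)) =>
        σ a = a ∧ ∃ p ∈ ({(a, a)} : Finset (Fin (m + 3) × Fin (m + 3))), σ p.1 = p.2)).card
        = (m + 2).factorial := by
      rw [← c1 m a]
      congr 1
      ext σ
      simp
    rw [h2] at h1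
    have h3 : K * (m + 1).factorial ≤ (m + 2).factorial := by
      rw [Nat.factorial_succ (m + 1)]
      apply Nat.mul_le_mul_right
      nlinarith
    omega
  · push Not at h0
    have h00 := h0 0 (Or.inl rfl)
    have h11 := h0 1 (Or.inr rfl)
    by_cases hc0 : K ≤ (P.filter (fun p => p.1 ≠ 0 ∧ p.2 ≠ 0)).card
    · exact key 0 (Or.inl rfl) hc0
    by_cases hc1 : K ≤ (P.filter (fun p => p.1 ≠ 1 ∧ p.2 ≠ 1)).card
    · exact key 1 (Or.inr rfl) hc1
    exfalso
    have h5 : P ⊆ ((P.filter (fun p => p.1 ≠ 0 ∧ p.2 ≠ 0))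
        ∪ (P.filter (fun p => p.1 ≠ 1 ∧ p.2 ≠ 1))) ∪ {((0 : Fin (m + 3)), (1 : Fin (m + 3))), (1, 0)} := by
      rintro ⟨i, j⟩ hp
      simp only [mem_union, mem_filter, mem_insert, mem_singleton, Prod.mk.injEq, hp, true_and]
      by_cases i0 : i = 0
      · subst i0
        by_cases j0 : j = 0
        · subst j0; exact absurd hp h00
        · by_cases j1 : j = 1
          · simp [j1]
          · simp [j1]
      · by_cases j0 : j = 0
        · subst j0
          by_cases i1 : i = 1
          · simp [i1]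
          · simp [i1]
        · simp [i0, j0]
    have h6 := card_le_card h5
    have h7 := card_union_le ((P.filter (fun p => p.1 ≠ 0 ∧ p.2 ≠ 0))
        ∪ (P.filter (fun p => p.1 ≠ 1 ∧ p.2 ≠ 1)))
        {((0 : Fin (m + 3)), (1 : Fin (m + 3))), (1, 0)}
    have h8 := card_union_le (P.filter (fun p => p.1 ≠ 0 ∧ p.2 ≠ 0))
        (P.filter (fun p => p.1 ≠ 1 ∧ p.2 ≠ 1))
    have h9 : ({((0 : Fin (m + 3)), (1 : Fin (m + 3))), (1, 0)} :
        Finset (Fin (m + 3) × Fin (m + 3))).card ≤ 2 :=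
      card_le_two
    rw [hP] at h6
    push Not at hc0 hc1
    nlinarith

end Pool.Agent.Q285.SnEdge
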