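import Pool.Agent.Q256.UI.Stm

set_option autoImplicit false

/-! Project UI (helper256), job PAR: two given zeros. -/

namespace Pool.Agent.Q285.UI

open Finset MvPolynomial Pool.Agent.Q256.UI
open Pool.Agent.Q256.UP (PBox modify pbox_add pbox_monomial eval_single)

/-- **PAR** -/
theorem par : S_PAR := by
  intro d H Φ P P' hd hne
  obtain ⟨k, hk⟩ := Function.ne_iff.1 hne
  have hPhi : ∀ (Q : Fin 2 → ℤ) (F G : MvPolynomial (Fin 2) ℤ), eval Q (F + G) =
      eval Q F + eval Q G := fun Q F G => map_add _ _ _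
  have h := modify (d := d - 1) (H := H) (K := 2)
    {G | G ∈ PBox (d - 1) H ∧ eval P (Φ + G) = 0 ∧ eval P' (Φ + G) = 0}
    (fun F hF => hF.1) (fun m : Fin (H + 1) × Fin (H + 1) =>
      monomial (Finsupp.single k 0) ((m.1 : ℕ) : ℤ) + monomial (Finsupp.single k 1) ((m.2 : ℕ) : ℤ))
    (fun m => by
      have h1 := pbox_add (pbox_monomial (d := d - 1) (B := H) k 0 (by omega) ((m.1 : ℕ) : ℤ) (by
        rw [Nat.abs_cast]; have := m.1.2; exact_mod_cast (by omega : (m.1 : ℕ) ≤ H)))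
        (pbox_monomial (d := d - 1) (B := H) k 1 (by omega) ((m.2 : ℕ) : ℤ) (by
        rw [Nat.abs_cast]; have := m.2.2; exact_mod_cast (by omega : (m.2 : ℕ) ≤ H)))
      rw [two_mul]
      exact h1) (by
      intro F hF F' hF' m m' h
      have h21 : ∀ (Q : Fin 2 → ℤ) (F : MvPolynomial (Fin 2) ℤ) (m : Fin (H + 1) × Fin (H + 1)),
          eval Q (F + (monomial (Finsupp.single k 0) ((m.1 : ℕ) : ℤ) +
            monomial (Finsupp.single k 1) ((m.2 : ℕ) : ℤ))) =
          eval Q F + (((m.1 : ℕ) : ℤ) + ((m.2 : ℕ) : ℤ) * Q k) := by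
        intro Q F m
        rw [map_add, map_add, eval_single, eval_single, pow_zero, mul_one, pow_one]
      have a1 := hF.2.1
      have a2 := hF.2.2
      have b1 := hF'.2.1
      have b2 := hF'.2.2
      rw [hPhi] at a1 a2 b1 b2
      have h1 := congrArg (eval P) h
      have h2 := congrArg (eval P') h
      simp only [h21] at h1 h2
      have h3 : (((m.2 : ℕ) : ℤ) - ((m'.2 : ℕ) : ℤ)) * (P k - P' k) = 0 := by
        linear_combination h1 - h2 - a1 + a2 + b1 - b2
      have h4 : ((m.2 : ℕ) : ℤ) = ((m'.2 : ℕ) : ℤ) := by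
        rcases mul_eq_zero.1 h3 with h5 | h5
        · linarith
        · exact absurd (by linarith) hk
      rw [h4] at h1
      have h6 : ((m.1 : ℕ) : ℤ) = ((m'.1 : ℕ) : ℤ) := by linarith
      exact Prod.ext (Fin.ext (by exact_mod_cast h6)) (Fin.ext (by exact_mod_cast h4)))
  rw [Nat.card_prod, Nat.card_fin] at h
  have hNN : (d - 1 + 2).choose 2 = NN d := by
    unfold NN
    congr 1
    omega
  have h3 : (2 + 1) * H = 3 * H := by ring
  rw [hNN, h3] at h
  refine le_trans (Nat.mul_le_mul_right _ ?_) h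
  have hfin : Finite {G | G ∈ PBox (d - 1) H ∧ eval P (Φ + G) = 0 ∧ eval P' (Φ + G) = 0} :=
    ((Pool.Agent.Q256.UP.finite_pbox (d - 1) H).subset fun G hG => hG.1).to_subtype
  refine Nat.card_le_card_of_injective
    (fun F : {F | F ∈ Fam Φ d H ∧ eval P F = 0 ∧ eval P' F = 0} =>
      (⟨F.1 - Φ, by
        obtain ⟨⟨G, hG, hF⟩, h1, h2⟩ := F.2
        have e1 : F.1 - Φ = G := by rw [hF]; ring
        have e2 : Φ + (F.1 - Φ) = F.1 := by ring
        refine ⟨?_, ?_, ?_⟩
        · rw [e1]; exact hG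
        · rw [e2]; exact h1
        · rw [e2]; exact h2⟩ :
        {G | G ∈ PBox (d - 1) H ∧ eval P (Φ + G) = 0 ∧ eval P' (Φ + G) = 0})) ?_
  rintro F F' hFF
  have h5 : F.1 - Φ = F'.1 - Φ := congrArg Subtype.val hFF
  exact Subtype.ext (sub_left_inj.1 h5)

end Pool.Agent.Q285.UI
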