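import Pool.Agent.Q16.XP.Stm

/-!
# Project XP (MP_1b773e_co), job B1
-/

set_option autoImplicit false

namespace Q285.XP_B1

open Q16.XP

lemma minFac_eq {n p : ℕ} (hn : 1 < n) (hp : p.Prime) (hpn : p ∣ n)
    (h : ∀ q : ℕ, q.Prime → q ∣ n → p ≤ q) : n.minFac = p :=
  le_antisymm (Nat.minFac_le_of_dvd hp.two_le hpn)
    (h n.minFac (Nat.minFac_prime (by omega)) (Nat.minFac_dvd n))

lemma div_bounds {v be D : ℕ} (hD : 0 < D) (h1 : D ≤ be) (h2 : be < 2 * D) :
    v / D + 1 ≤ (v + be) / D ∧ (v + be) / D ≤ v / D + 2 := by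
  have e1 : (v + D) / D = v / D + 1 := Nat.add_div_right v hD
  have e2 : (v + D + D) / D = v / D + 2 := by
    rw [Nat.add_div_right _ hD, e1]
  constructor
  · rw [← e1]
    exact Nat.div_le_div_right (by omega)
  · rw [← e2]
    exact Nat.div_le_div_right (by omega)

theorem t_B1 (hD : S_D1) : S_B1 := by
  intro p a b hp ha hb hpa hpb hlt
  rintro ⟨h1, h2, h3⟩
  have ha0 : a ≠ 0 := by omega
  have hb0 : b ≠ 0 := by omega
  have hab0 : a ^ b ≠ 0 := pow_ne_zero _ ha0
  have hpa' : p ∣ a := hpa ▸ Nat.minFac_dvd a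
  have hpb' : p ∣ b := hpb ▸ Nat.minFac_dvd b
  have ka : ∀ q : ℕ, q.Prime → q ∣ a → p ≤ q := fun q hq h => hpa ▸ Nat.minFac_le_of_dvd hq.two_le h
  have kb : ∀ q : ℕ, q.Prime → q ∣ b → p ≤ q := fun q hq h => hpb ▸ Nat.minFac_le_of_dvd hq.two_le h
  have hab1 : 1 < a ^ b := Nat.one_lt_pow hb0 ha
  have m1 : (a * b).minFac = p := by
    refine minFac_eq (by nlinarith) hp (hpa'.mul_right b) fun q hq h => ?_
    rcases (Nat.Prime.dvd_mul hq).1 h with h | h
    · exact ka q hq h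
    · exact kb q hq h
  have m2 : (a ^ b).minFac = p :=
    minFac_eq hab1 hp (dvd_pow hpa' hb0) fun q hq h => ka q hq (hq.dvd_of_dvd_pow h)
  have m3 : (a ^ b * b).minFac = p := by
    refine minFac_eq (by nlinarith) hp (hpb'.mul_left _) fun q hq h => ?_
    rcases (Nat.Prime.dvd_mul hq).1 h with h | h
    · exact ka q hq (hq.dvd_of_dvd_pow h)
    · exact kb q hq h
  have fa : a.factorization p = ex a := by
    unfold ex
    rw [hpa]
  have fb : b.factorization p = ex b := by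
    unfold ex
    rw [hpb]
  have e1 : ex (a * b) = ex b + ex a := by
    unfold ex
    rw [m1, hpa, hpb, Nat.factorization_mul ha0 hb0, Finsupp.add_apply, Nat.add_comm]
  have e2 : ex (a ^ b) = b * ex a := by
    unfold ex
    rw [m2, hpa, Nat.factorization_pow, Finsupp.smul_apply, smul_eq_mul]
  have e3 : ex (a ^ b * b) = ex b + b * ex a := by
    rw [← e2]
    unfold ex
    rw [m3, m2, hpb, Nat.factorization_mul hab0 hb0, Finsupp.add_apply, Nat.add_comm]
  have pa : 0 < ex a := by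
    rw [← fa]
    exact hp.factorization_pos_of_dvd ha0 hpa'
  have pb : 0 < ex b := by
    rw [← fb]
    exact hp.factorization_pos_of_dvd hb0 hpb'
  have d0 : p ^ (ex a).factorization p ∣ ex a := Nat.ordProj_dvd (ex a) p
  have D1 := hD p hp (G1 p) (ex b) (ex a) ((ex a).factorization p) pb pa d0 hlt
  have D2 := hD p hp (G1 p) (ex b) (b * ex a) ((ex a).factorization p) pb
    (Nat.mul_pos (by omega) pa) (d0.mul_left b) hlt
  have f2 : (b * ex a).factorization p = (ex a).factorization p + ex b := by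
    rw [Nat.factorization_mul hb0 pa.ne', Finsupp.add_apply, fb, Nat.add_comm]
  rw [f2] at D2
  unfold c1 at h1 h2 h3
  rw [m1, hpa, e1, D1] at h1
  rw [m2, hpa, e2] at h2
  rw [m3, hpa, e3, D2] at h3
  have hl : p ^ Nat.log p (ex b) ≤ ex b := Nat.pow_log_le_self p pb.ne'
  have hpl : 0 < p ^ Nat.log p (ex b) := pow_pos hp.pos _
  have hd : 0 < ex b / p ^ Nat.log p (ex b) := Nat.div_pos hl hpl
  have hle : ex b / p ^ Nat.log p (ex b) * p ^ Nat.log p (ex b) ≤ ex b := Nat.div_mul_le_self _ _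
  have hlt2 : ex b < p ^ Nat.log p (ex b) * (ex b / p ^ Nat.log p (ex b) + 1) :=
    Nat.lt_mul_div_succ _ hpl
  have g1 : ∀ q, G1 p (Nat.log p (ex b)) (ex b / p ^ Nat.log p (ex b)) q =
      q / (ex b / p ^ Nat.log p (ex b) * p ^ Nat.log p (ex b)) := fun q => rfl
  rw [g1] at h1 h3
  obtain ⟨b1, b2⟩ := div_bounds (v := (ex a).factorization p) (Nat.mul_pos hd hpl) hle
    (by nlinarith)
  omega

end Q285.XP_B1
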